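import Pool.Agent.GH.M5.Stm

/-!
# GH5-MAT, row A2: the Artin-Hasse series over `ℤ_5`
-/

open PowerSeries

noncomputable section

namespace GH.M5

/-- The operator `T d/dT`. -/
def ahD {R : Type*} [CommRing R] (F : PowerSeries R) : PowerSeries R := X * derivative R F

theorem coeff_ahD {R : Type*} [CommRing R] (F : PowerSeries R) (n : ℕ) :
    coeff n (ahD F) = n * coeff n F := by
  cases n with
  | zero => simp [ahD]
  | succ n =>
    rw [ahD, coeff_succ_X_mul, coeff_derivative]
    push_cast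
    ring

theorem ahD_mul {R : Type*} [CommRing R] (F G : PowerSeries R) :
    ahD (F * G) = ahD F * G + F * ahD G := by
  unfold ahD
  rw [Derivation.leibniz, smul_eq_mul, smul_eq_mul]
  ring

theorem ahD_pow {R : Type*} [CommRing R] (F : PowerSeries R) :
    ahD (F ^ 5) = 5 * F ^ 4 * ahD F := by
  unfold ahD
  rw [derivative_pow]
  push_cast
  ring

theorem ahD_expand {R : Type*} [CommRing R] {N : ℕ} (hN : N ≠ 0) (F : PowerSeries R) :
    ahD (expand N hN F) = (N : PowerSeries R) * expand N hN (ahD F) := by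
  ext1 n
  rw [coeff_ahD, coeff_expand, ← map_natCast (C (R := R)) N, coeff_C_mul, coeff_expand]
  split_ifs with h
  · obtain ⟨k, rfl⟩ := h
    rw [Nat.mul_div_cancel_left k (Nat.pos_of_ne_zero hN), coeff_ahD]
    push_cast
    ring
  · simp

theorem ah_five_ne : (5 : PowerSeries ℤ_[5]) ≠ 0 := by
  intro h
  have h1 := congrArg (constantCoeff (R := ℤ_[5])) h
  rw [map_ofNat, map_zero] at h1
  exact absurd h1 (by norm_num)

/-- `ψ = T A'/A` satisfies `ψ(T) = ψ(T^5) + T`. -/
theorem ah_psi {A L : PowerSeries ℤ_[5]} (hA : constantCoeff A = 1)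
    (h : A ^ 5 = expand 5 (by norm_num) A * L) (hL : ahD L = 5 * X * L) :
    ∃ psi : PowerSeries ℤ_[5], ahD A = psi * A ∧ psi = expand 5 (by norm_num) psi + X := by
  set B : PowerSeries ℤ_[5] := invOfUnit A 1
  have hB : A * B = 1 := mul_invOfUnit A 1 (by rw [hA]; rfl)
  have h1 : ahD A = ahD A * B * A := by
    rw [mul_assoc, mul_comm B A, hB, mul_one]
  refine ⟨ahD A * B, h1, ?_⟩
  set psi := ahD A * B with hpsi
  set E : PowerSeries ℤ_[5] →ₐ[ℤ_[5]] PowerSeries ℤ_[5] := expand 5 (by norm_num) with hE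
  have h2 := congrArg ahD h
  rw [ahD_pow, ahD_mul, hE, ahD_expand, ← hE, hL, h1, map_mul] at h2
  have h3 : (5 : PowerSeries ℤ_[5]) * A ^ 5 * psi = 5 * A ^ 5 * (E psi + X) := by
    push_cast at h2
    calc (5 : PowerSeries ℤ_[5]) * A ^ 5 * psi = 5 * A ^ 4 * (psi * A) := by ring
      _ = 5 * (E psi * E A) * L + E A * (5 * X * L) := h2
      _ = 5 * (E A * L) * (E psi + X) := by ring
      _ = 5 * A ^ 5 * (E psi + X) := by rw [← h]
  have hA0 : A ≠ 0 := by
    rintro rfl
    rw [map_zero] at hA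
    exact zero_ne_one hA
  exact mul_left_cancel₀ (mul_ne_zero ah_five_ne (pow_ne_zero _ hA0)) h3

/-- The coefficients of `ψ`. -/
theorem ah_coeff {psi : PowerSeries ℤ_[5]} (h : psi = expand 5 (by norm_num) psi + X)
    (h0 : coeff 0 psi = 0) (l : ℕ) : coeff (5 ^ l) psi = 1 := by
  induction l with
  | zero =>
    rw [h, map_add, coeff_expand, pow_zero, coeff_one_X, if_neg (by norm_num), zero_add]
  | succ l ih =>
    rw [h, map_add, coeff_expand, if_pos ⟨5 ^ l, by rw [pow_succ, mul_comm]⟩, coeff_X,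
      if_neg (Nat.one_lt_pow (by omega) (by norm_num)).ne', add_zero, pow_succ,
      Nat.mul_div_cancel _ (by norm_num), ih]

theorem ah_coeff' {psi : PowerSeries ℤ_[5]} (h : psi = expand 5 (by norm_num) psi + X)
    (h0 : coeff 0 psi = 0) (n : ℕ) (hn : ∀ l, n ≠ 5 ^ l) : coeff n psi = 0 := by
  induction n using Nat.strong_induction_on with
  | _ n ih =>
    rcases Nat.eq_zero_or_pos n with rfl | hp
    · exact h0
    have h1 : n ≠ 1 := by
      have := hn 0
      rwa [pow_zero] at this
    rw [h, map_add, coeff_expand, coeff_X, if_neg h1, add_zero]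
    split_ifs with h2
    · obtain ⟨k, rfl⟩ := h2
      rw [Nat.mul_div_cancel_left k (by norm_num)]
      refine ih k (by omega) fun l e => hn (l + 1) ?_
      rw [e, pow_succ, mul_comm]
    · rfl

/-- The series `exp(5s)`. -/
def ahL : PowerSeries ℤ_[5] := PowerSeries.mk fun m ↦ MatU.uu 5 m

theorem ahD_L : ahD ahL = 5 * X * ahL := by
  ext1 n
  have h5 : (5 : PowerSeries ℤ_[5]) = C 5 := by rw [map_ofNat]
  rw [coeff_ahD, h5, mul_assoc, coeff_C_mul, ahL, coeff_mk]
  cases n with
  | zero => simp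
  | succ m =>
    rw [coeff_succ_X_mul, coeff_mk]
    have h1 := MatU.uu_mul 5 (m + 1)
    have h2 := MatU.uu_mul 5 m
    have h3 : ((m.factorial : ℕ) : ℤ_[5]) ≠ 0 := by
      rw [Nat.cast_ne_zero]
      exact Nat.factorial_ne_zero m
    apply mul_right_cancel₀ h3
    rw [Nat.factorial_succ] at h1
    push_cast at h1 h2 ⊢
    rw [pow_succ, ← h2] at h1
    linear_combination h1

/-- The Artin-Hasse series. -/
theorem ah_exists : ∃ A : PowerSeries ℤ_[5], constantCoeff A = 1 ∧
    A ^ 5 = expand 5 (by norm_num) A * ahL := by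
  set L0 : PowerSeries (Polynomial ℤ_[5]) := PowerSeries.map Polynomial.C ahL with hL0
  have hr : MatU.red 5 L0 = 1 := by
    ext1 n
    rw [MatU.red, coeff_map, hL0, coeff_map, ahL, coeff_mk]
    change Polynomial.map PadicInt.toZMod (Polynomial.C (MatU.uu 5 n)) = _
    rw [Polynomial.map_C, coeff_one]
    split_ifs with h
    · rw [h, MatU.uu_zero, map_one, map_one]
    · obtain ⟨t, ht⟩ := MatU.dvd_uu 5 (Nat.one_le_iff_ne_zero.2 h)
      rw [ht, map_mul, map_natCast, CharP.cast_eq_zero, zero_mul, map_zero]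
  have hc : constantCoeff L0 = 1 := by
    rw [hL0, ← coeff_zero_eq_constantCoeff_apply, coeff_map, ahL, coeff_mk, MatU.uu_zero,
      map_one]
  obtain ⟨Th, h1, h2⟩ := MatU.dwork 5 hr hc
  refine ⟨PowerSeries.map (Polynomial.evalRingHom 0) Th, ?_, ?_⟩
  · rw [← coeff_zero_eq_constantCoeff_apply, coeff_map, coeff_zero_eq_constantCoeff_apply, h1,
      map_one]
  · have h3 := congrArg (PowerSeries.map (Polynomial.evalRingHom (0 : ℤ_[5]))) h2
    rw [map_pow, map_mul] at h3
    rw [h3]
    congr 1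
    · rw [MatU.sig_apply, map_expand]
      congr 1
      ext1 n
      rw [coeff_map, coeff_map, coeff_map]
      change Polynomial.eval 0 (Polynomial.expand ℤ_[5] 5 (coeff n Th)) =
        Polynomial.eval 0 (coeff n Th)
      rw [Polynomial.expand_eval, zero_pow (by norm_num)]
    · ext1 n
      rw [coeff_map, hL0, coeff_map]
      exact Polynomial.eval_C

/-- `F ↦ F(5c y^j T^N)`. -/
def ahS (c : ℤ_[5]) (j N : ℕ) (hN : N ≠ 0) : PowerSeries ℤ_[5] →+* PowerSeries Zy :=
  ((RingHomClass.toRingHom (PowerSeries.expand (R := Polynomial ℤ_[5]) N hN)).comp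
    (rescale (Polynomial.monomial j (5 * c)))).comp (PowerSeries.map Polynomial.C)

theorem coeff_ahS (c : ℤ_[5]) (j N : ℕ) (hN : N ≠ 0) (F : PowerSeries ℤ_[5]) (n : ℕ) :
    coeff n (ahS c j N hN F) =
      if N ∣ n then Polynomial.monomial (j * (n / N)) (coeff (n / N) F * (5 * c) ^ (n / N))
      else 0 := by
  change coeff n (expand N hN (rescale (Polynomial.monomial j (5 * c))
    (PowerSeries.map Polynomial.C F))) = _
  rw [coeff_expand]
  split_ifs with h
  · rw [coeff_rescale, coeff_map, Polynomial.monomial_pow, mul_comm, Polynomial.C_mul_monomial]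
  · rfl

theorem ahD_S (c : ℤ_[5]) (j N : ℕ) (hN : N ≠ 0) (F : PowerSeries ℤ_[5]) :
    ahD (ahS c j N hN F) = (N : PowerSeries Zy) * ahS c j N hN (ahD F) := by
  ext1 n
  rw [coeff_ahD, coeff_ahS, ← map_natCast (C (R := Zy)) N, coeff_C_mul, coeff_ahS]
  split_ifs with h
  · obtain ⟨k, rfl⟩ := h
    rw [Nat.mul_div_cancel_left k (Nat.pos_of_ne_zero hN), coeff_ahD]
    push_cast
    rw [← Polynomial.C_eq_natCast, mul_assoc, ← Polynomial.C_eq_natCast k,
      Polynomial.C_mul_monomial]
    congr 2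
    ring
  · simp

theorem ahm_eq (A : PowerSeries ℤ_[5]) (c : ℤ_[5]) (j N : ℕ) (hN : N ≠ 0) :
    AHm (fun k => coeff k A) c j N = ahS c j N hN A := by
  ext1 n
  rw [coeff_ahS, AHm, coeff_mk]

theorem ahD_GG {psi : PowerSeries ℤ_[5]} (h : psi = expand 5 (by norm_num) psi + X)
    (h0 : coeff 0 psi = 0) (c : ℤ_[5]) (j N : ℕ) (hN : N ≠ 0) :
    ahD (GG c j N) = (N : PowerSeries Zy) * ahS c j N hN psi := by
  ext1 n
  rw [coeff_ahD, ← map_natCast (C (R := Zy)) N, coeff_C_mul, coeff_ahS, GG, coeff_mk]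
  have hN' : 0 < N := Nat.pos_of_ne_zero hN
  by_cases hd : N ∣ n
  · obtain ⟨k, rfl⟩ := hd
    rw [if_pos (dvd_mul_right N k), Nat.mul_div_cancel_left k hN']
    by_cases hk : ∃ l, k = 5 ^ l
    · obtain ⟨l, rfl⟩ := hk
      rw [ah_coeff h h0, Finset.sum_eq_single l]
      · rw [if_pos rfl, one_mul]
        push_cast
        rw [← Polynomial.C_eq_natCast, mul_assoc]
        congr 1
        have h5 : (5 : Zy) = Polynomial.C 5 := by rw [map_ofNat]
        rw [h5, ← map_pow, Polynomial.C_mul_monomial, ← mul_assoc, ← pow_add,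
          Nat.add_sub_cancel' (Nat.lt_pow_self (by norm_num)).le, mul_pow]
      · intro b _ hb
        rw [if_neg]
        intro e
        exact hb (Nat.pow_right_injective (le_refl 2 |>.trans (by norm_num))
          (Nat.eq_of_mul_eq_mul_left hN' e)).symm
      · intro hl
        exfalso
        apply hl
        rw [Finset.mem_range]
        have h1 : l < 5 ^ l := Nat.lt_pow_self (by norm_num)
        nlinarith
    · push Not at hk
      rw [ah_coeff' h h0 k hk, Finset.sum_eq_zero]
      · simp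
      · intro l _
        rw [if_neg]
        intro e
        exact hk l (Nat.eq_of_mul_eq_mul_left hN' e)
  · rw [if_neg hd, Finset.sum_eq_zero]
    · simp
    · intro l _
      rw [if_neg]
      rintro rfl
      exact hd (dvd_mul_right _ _)

/-- **A2**: the Artin-Hasse series. -/
theorem spAH : SpAH := by
  obtain ⟨A, hA, h5⟩ := ah_exists
  obtain ⟨psi, h1, h2⟩ := ah_psi hA h5 ahD_L
  have h0 : coeff 0 psi = 0 := by
    have h3 := congrArg (coeff 0) h1
    rw [coeff_ahD, Nat.cast_zero, zero_mul, coeff_zero_eq_constantCoeff_apply, map_mul, hA,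
      mul_one] at h3
    rw [coeff_zero_eq_constantCoeff_apply, ← h3]
  refine ⟨fun k => coeff k A, ?_, ?_⟩
  · change coeff 0 A = 1
    rw [coeff_zero_eq_constantCoeff_apply, hA]
  intro c j N hN
  have hN' : N ≠ 0 := by omega
  refine ⟨?_, ?_, ?_⟩
  · rw [← coeff_zero_eq_constantCoeff_apply, GG, coeff_mk, Finset.sum_eq_zero]
    intro l _
    rw [if_neg]
    intro e
    have : 0 < N * 5 ^ l := Nat.mul_pos (by omega) (pow_pos (by norm_num) l)
    omega
  · rw [← coeff_zero_eq_constantCoeff_apply, AHm, coeff_mk, if_pos (dvd_zero N), Nat.zero_div,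
      mul_zero, pow_zero, mul_one, coeff_zero_eq_constantCoeff_apply, hA,
      Polynomial.monomial_zero_left, map_one]
  · rw [ahm_eq A c j N hN']
    have h3 : ahD (ahS c j N hN' A) = ahD (GG c j N) * ahS c j N hN' A := by
      rw [ahD_S, h1, map_mul, ahD_GG h2 h0 c j N hN', mul_assoc]
    apply mul_left_cancel₀ (X_ne_zero (R := Zy))
    unfold ahD at h3
    rw [h3, mul_assoc]

end GH.M5
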