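import Pool.Agent.GH.M5.Stm

/-!
# GH5-MAT, row GH5-C: the corank of the scaled matrix
-/

open PowerSeries

noncomputable section

namespace GH.M5

open GH.D5 GH.CombU

/-- the entries of the matrix from the decomposition of `T` -/
theorem gh5c_mq {e a : ℕ} (x : ℕ → Fin ((a - e) / 3) → ℚ) (y : Fin ((a - e) / 3) → ℕ → ℚ)
    (h : ∀ i i' : ℕ, 1 ≤ i → 1 ≤ i' → i' < 2 * a → TQ e a i i' = ∑ l, x i l * y l i')
    (i j : ℕ) (hj : j + 1 < 2 * a) :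
    MQ e (2 * a) (i + 1) (j + 1) =
      (-1) ^ e * (5 : ℚ) ^ (3 * ((2 * a - (j + 1) : ℕ) : ℤ) - a - 1 + e) *
        (∑ l, x (i + 1) l * y l (2 * a - (j + 1)) -
          if i + 1 = 2 * a - (j + 1) then 1 else 0) := by
  have h1 := h (i + 1) (2 * a - (j + 1)) (by omega) (by omega) (by omega)
  unfold TQ at h1
  rw [show 2 * a - (2 * a - (j + 1)) = j + 1 by omega] at h1
  rw [← h1, add_sub_cancel_left]
  have h2 : ((-1 : ℚ) ^ e) * (-1) ^ e = 1 := by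
    rw [← mul_pow]
    norm_num
  have h3 : (5 : ℚ) ^ (3 * ((2 * a - (j + 1) : ℕ) : ℤ) - a - 1 + e) *
      (5 : ℚ) ^ ((a : ℤ) + 1 - 3 * ((2 * a - (j + 1) : ℕ) : ℤ) - e) = 1 := by
    rw [← zpow_add₀ (by norm_num : (5 : ℚ) ≠ 0)]
    rw [show (3 * ((2 * a - (j + 1) : ℕ) : ℤ) - a - 1 + e) +
      ((a : ℤ) + 1 - 3 * ((2 * a - (j + 1) : ℕ) : ℤ) - e) = 0 by ring, zpow_zero]
  calc MQ e (2 * a) (i + 1) (j + 1) = (((-1 : ℚ) ^ e) * (-1) ^ e) *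
        ((5 : ℚ) ^ (3 * ((2 * a - (j + 1) : ℕ) : ℤ) - a - 1 + e) *
        (5 : ℚ) ^ ((a : ℤ) + 1 - 3 * ((2 * a - (j + 1) : ℕ) : ℤ) - e)) *
        MQ e (2 * a) (i + 1) (j + 1) := by rw [h2, h3, one_mul, one_mul]
    _ = _ := by ring

/-- the exponent of the error -/
theorem gh5c_exp {e a i j : ℕ} (hj : j + 1 < 2 * a) (hij : i + 1 = 2 * a - (j + 1)) :
    (3 * ((2 * a - (j + 1) : ℕ) : ℤ) - a - 1 + e) + (gg j : ℤ) - gg i = (s5 e (2 * a) : ℤ) := by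
  unfold gg s5
  omega

theorem gh5c_eval (hp : SpPS) {e : ℕ} (he : e ≤ 1) (i j : ℕ) (m : ℤ_[5]) :
    (5 : ℤ_[5]) ^ gg i * (PS e i j).eval m = 5 ^ gg j * (PM e i j).eval m := by
  have h := congrArg (Polynomial.eval m) (hp e i j he).1
  rwa [Polynomial.eval_mul, Polynomial.eval_mul, Polynomial.eval_C, Polynomial.eval_C] at h

/-- C: the field `corank` -/
theorem spCor (hJ : SpJ) (hv : SpVal) (hH : SpH) (hp : SpPS) : SpCor := by
  intro e he m hm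
  obtain ⟨n, hn⟩ := hm
  obtain ⟨a, rfl⟩ : ∃ a, m = 2 * a := by
    unfold T5 at hn
    split_ifs at hn with h
    · exact ⟨m / 2, by omega⟩
    · exact absurd rfl hn
  have ha : 1 ≤ a := by
    unfold T5 at hn
    split_ifs at hn with h
    · omega
    · exact absurd rfl hn
  have ht : t5 e (2 * a) = (a - e) / 3 := by
    unfold t5
    rw [Nat.mul_div_cancel_left a (by norm_num)]
  rw [ht]
  obtain ⟨x, y, h1, _⟩ := hJ e a he ha
  have h5 : (5 : ℚ_[5]) ≠ 0 := by norm_num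
  refine ⟨fun i l => (5 : ℚ_[5]) ^ (-(gg i : ℤ)) * ((x (i + 1) l : ℚ) : ℚ_[5]),
    fun l j => if j + 1 < 2 * a then (5 : ℚ_[5]) ^ (gg j : ℤ) *
      ((-1) ^ e * (5 : ℚ_[5]) ^ (3 * ((2 * a - (j + 1) : ℕ) : ℤ) - a - 1 + e)) *
      ((y l (2 * a - (j + 1)) : ℚ) : ℚ_[5]) else 0, fun i j => ?_⟩
  have h2 := gh5c_eval hp he i j ((2 * a : ℕ) : ℤ_[5])
  have h3 : (((PS e i j).eval ((2 * a : ℕ) : ℤ_[5]) : ℤ_[5]) : ℚ_[5]) =
      (5 : ℚ_[5]) ^ (-(gg i : ℤ)) * ((5 : ℚ_[5]) ^ (gg j : ℤ) *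
        (((PM e i j).eval ((2 * a : ℕ) : ℤ_[5]) : ℤ_[5]) : ℚ_[5])) := by
    have h4 := congrArg (fun z : ℤ_[5] => (z : ℚ_[5])) h2
    simp only [PadicInt.coe_mul, PadicInt.coe_pow] at h4
    have h6 : (((5 : ℤ_[5])) : ℚ_[5]) = 5 := by
      exact_mod_cast PadicInt.coe_natCast (p := 5) 5
    rw [h6] at h4
    rw [zpow_natCast, ← h4, ← mul_assoc, zpow_neg, zpow_natCast,
      inv_mul_cancel₀ (pow_ne_zero _ h5), one_mul]
  by_cases hj : j + 1 < 2 * a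
  · refine ⟨if i + 1 = 2 * a - (j + 1) then -(-1) ^ e else 0, ?_⟩
    rw [h3, hv e (2 * a) i j he, gh5c_mq x y h1 i j hj]
    simp only [if_pos hj]
    have h7 : ∑ l, (5 : ℚ_[5]) ^ (-(gg i : ℤ)) * ((x (i + 1) l : ℚ) : ℚ_[5]) *
        ((5 : ℚ_[5]) ^ (gg j : ℤ) * ((-1) ^ e *
          (5 : ℚ_[5]) ^ (3 * ((2 * a - (j + 1) : ℕ) : ℤ) - a - 1 + e)) *
          ((y l (2 * a - (j + 1)) : ℚ) : ℚ_[5])) =
        (5 : ℚ_[5]) ^ (-(gg i : ℤ)) * ((5 : ℚ_[5]) ^ (gg j : ℤ) * ((-1) ^ e *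
          (5 : ℚ_[5]) ^ (3 * ((2 * a - (j + 1) : ℕ) : ℤ) - a - 1 + e) *
          ((∑ l, x (i + 1) l * y l (2 * a - (j + 1)) : ℚ) : ℚ_[5]))) := by
      rw [Rat.cast_sum, Finset.mul_sum, Finset.mul_sum, Finset.mul_sum]
      refine Finset.sum_congr rfl fun l _ => ?_
      rw [Rat.cast_mul]
      ring
    rw [h7]
    push_cast
    split_ifs with hij
    · have h8 := gh5c_exp (e := e) hj hij
      have h9 : (5 : ℚ_[5]) ^ (-(gg i : ℤ)) * ((5 : ℚ_[5]) ^ (gg j : ℤ) *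
          (5 : ℚ_[5]) ^ (3 * ((2 * a - (j + 1) : ℕ) : ℤ) - a - 1 + e)) =
          (5 : ℚ_[5]) ^ s5 e (2 * a) := by
        rw [← zpow_add₀ h5, ← zpow_add₀ h5, ← zpow_natCast (5 : ℚ_[5]) (s5 e (2 * a)), ← h8]
        congr 1
        ring
      rw [← h9]
      push_cast
      ring
    · push_cast
      ring
  · have h4 : (5 : ℤ_[5]) ^ (i + j + 1 + e + gg i) ∣
        5 ^ gg i * (PS e i j).eval ((2 * a : ℕ) : ℤ_[5]) := by
      rw [h2]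
      exact hH e (2 * a) i j he
    have h6 : (5 : ℤ_[5]) ^ (s5 e (2 * a)) ∣ (PS e i j).eval ((2 * a : ℕ) : ℤ_[5]) := by
      refine (pow_dvd_pow (5 : ℤ_[5]) (?_ : s5 e (2 * a) ≤ i + j + 1 + e)).trans ?_
      · unfold s5
        omega
      · rw [pow_add, mul_comm] at h4
        exact (mul_dvd_mul_iff_left (pow_ne_zero _ (by norm_num : (5 : ℤ_[5]) ≠ 0))).1 h4
    obtain ⟨z, hz⟩ := h6
    refine ⟨z, ?_⟩
    simp only [if_neg hj, mul_zero, Finset.sum_const_zero, zero_add]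
    rw [hz, PadicInt.coe_mul, PadicInt.coe_pow]
    have h7 : (((5 : ℤ_[5])) : ℚ_[5]) = 5 := by
      exact_mod_cast PadicInt.coe_natCast (p := 5) 5
    rw [h7]
    norm_num

end GH.M5
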