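import Pool.Agent.GH.M5.Stm

/-!
# GH5-D5: the value of the leading minor for even `n` at `m = n + 2`
-/

noncomputable section

namespace GH.M5

open GH.D5 GH.CombU

/-- The norm of a rational number in `ℚ_5`. -/
def deN (r : ℚ) : ℝ := ‖((r : ℚ) : ℚ_[5])‖

theorem deN_mul (r s : ℚ) : deN (r * s) = deN r * deN s := by
  simp [deN, norm_mul]

theorem deN_five : deN 5 = (5 : ℝ)⁻¹ := by
  have h := Padic.norm_p (p := 5)
  simpa [deN] using h

theorem deN_neg_one : deN (-1) = 1 := by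
  simp [deN]

theorem deN_one : deN 1 = 1 := by
  simp [deN]

theorem deN_pow (r : ℚ) (k : ℕ) : deN (r ^ k) = deN r ^ k := by
  simp [deN, norm_pow]

theorem deN_sign (k : ℕ) : deN ((-1) ^ k) = 1 := by
  rw [deN_pow, deN_neg_one, one_pow]

theorem deN_zpow (k : ℤ) : deN ((5 : ℚ) ^ k) = (5 : ℝ) ^ (-k) := by
  have h := deN_five
  unfold deN at h ⊢
  push_cast at h ⊢
  rw [norm_zpow, h, inv_zpow', zpow_neg]

theorem deN_prod {n : ℕ} (f : Fin n → ℚ) : deN (∏ i, f i) = ∏ i, deN (f i) := by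
  simp [deN, norm_prod]

/-- The matrix at `y = 2a` and the matrix `T`. -/
theorem de_MQ (e a i k : ℕ) :
    MQ e (2 * a) i (2 * a - k) = (-1) ^ e * (5 : ℚ) ^ (3 * (k : ℤ) - a - 1 + e) *
      (TQ e a i k - if i = k then 1 else 0) := by
  unfold TQ
  have h1 : ((-1 : ℚ) ^ e) * (-1) ^ e = 1 := by
    rw [← mul_pow]; norm_num
  have h2 : (5 : ℚ) ^ (3 * (k : ℤ) - a - 1 + e) * (5 : ℚ) ^ ((a : ℤ) + 1 - 3 * k - e) = 1 := by
    rw [← zpow_add₀ (by norm_num)]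
    have : 3 * (k : ℤ) - a - 1 + e + ((a : ℤ) + 1 - 3 * k - e) = 0 := by ring
    rw [this, zpow_zero]
  calc MQ e (2 * a) i (2 * a - k)
      = ((-1 : ℚ) ^ e * (-1) ^ e) * ((5 : ℚ) ^ (3 * (k : ℤ) - a - 1 + e) *
        (5 : ℚ) ^ ((a : ℤ) + 1 - 3 * k - e)) * MQ e (2 * a) i (2 * a - k) := by
        rw [h1, h2]; ring
    _ = _ := by ring

/-- `T - 1` with `T = x y`, `y x = 6`: determinant and inverse. -/
theorem de_K {N t : ℕ} (X : Matrix (Fin N) (Fin t) ℚ) (Y : Matrix (Fin t) (Fin N) ℚ)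
    (h : Y * X = (6 : ℚ) • 1) :
    (X * Y - 1).adjugate = ((-1) ^ N * (-5) ^ t / 5 : ℚ) • (X * Y - (5 : ℚ) • 1) := by
  have hd : (X * Y - 1).det = (-1) ^ N * (-5) ^ t := by
    have h1 : X * Y - 1 = -(1 - X * Y) := by abel
    rw [h1, Matrix.det_neg, Fintype.card_fin, Matrix.det_one_sub_mul_comm, h]
    have h2 : (1 : Matrix (Fin t) (Fin t) ℚ) - (6 : ℚ) • 1 = (-5 : ℚ) • 1 := by
      rw [← one_smul ℚ (1 : Matrix (Fin t) (Fin t) ℚ), smul_smul, ← sub_smul]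
      norm_num
    rw [h2, Matrix.det_smul, Matrix.det_one, Fintype.card_fin, mul_one]
  have hT : (X * Y) * (X * Y) = (6 : ℚ) • (X * Y) := by
    rw [Matrix.mul_assoc, ← Matrix.mul_assoc Y X Y, h]
    simp
  have hK : (X * Y - 1) * (X * Y - (5 : ℚ) • 1) = (5 : ℚ) • 1 := by
    rw [sub_mul, mul_sub, hT, one_mul]
    simp only [Matrix.mul_smul, mul_one]
    module
  have hA : (X * Y - 1).adjugate * ((X * Y - 1) * (X * Y - (5 : ℚ) • 1)) =
      (X * Y - 1).det • (X * Y - (5 : ℚ) • 1) := by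
    rw [← Matrix.mul_assoc, Matrix.adjugate_mul, Matrix.smul_mul, Matrix.one_mul]
  rw [hK, hd] at hA
  rw [Matrix.mul_smul, Matrix.mul_one] at hA
  have : (X * Y - 1).adjugate = (5 : ℚ)⁻¹ • ((5 : ℚ) • (X * Y - 1).adjugate) := by
    rw [smul_smul]; norm_num
  rw [this, hA, smul_smul]
  congr 1
  ring

theorem de_sum (N : ℕ) (A : ℤ) :
    2 * ∑ j ∈ Finset.range N, (A - 3 * (j : ℤ)) = 2 * N * A - 3 * N * (N - 1) := by
  induction N with
  | zero => simp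
  | succ N ih =>
    rw [Finset.sum_range_succ, mul_add, ih]
    push_cast
    ring

theorem de_prod (N : ℕ) (f : ℕ → ℤ) :
    ∏ j : Fin N, (5 : ℝ) ^ (-(f j)) = (5 : ℝ) ^ (-∑ j ∈ Finset.range N, f j) := by
  induction N with
  | zero => simp
  | succ N ih =>
    rw [Fin.prod_univ_castSucc, Finset.sum_range_succ]
    simp only [Fin.val_castSucc, Fin.val_last]
    rw [ih, ← zpow_add₀ (by norm_num)]
    congr 1
    ring

/-- The norm of the determinant over `ℚ`. -/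
theorem de_det (h : SpJ) (e n a : ℕ) (he : e ≤ 1) (hn : n + 3 = 2 * a) :
    deN (Matrix.of fun i j : Fin (n + 1) ↦
      MQ e (2 * a) ((i : ℕ) + 1) ((j : ℕ) + 1)).det * 5 ^ ((a - e) / 3) =
    5 * (∏ j : Fin n, (5 : ℝ) ^ (-(3 * ((n + 1 : ℕ) : ℤ) - a - 1 + e - 3 * (j : ℕ)))) *
      deN (MQ e (2 * a) 1 1) := by
  have hJ := h e a he (by omega)
  generalize (a - e) / 3 = t at hJ ⊢
  obtain ⟨x, y, hx, hy⟩ := hJ
  let X : Matrix (Fin (n + 2)) (Fin t) ℚ := Matrix.of fun i l ↦ x (i + 1) l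
  let Y : Matrix (Fin t) (Fin (n + 2)) ℚ := Matrix.of fun l k ↦ y l (k + 1)
  have hXY : ∀ i k : Fin (n + 2), (X * Y) i k = TQ e a (i + 1) (k + 1) := by
    intro i k
    rw [hx (i + 1) (k + 1) (by omega) (by omega) (by omega), Matrix.mul_apply]
    rfl
  have hYX : Y * X = (6 : ℚ) • 1 := by
    ext l l'
    rw [Matrix.mul_apply, Matrix.smul_apply, Matrix.one_apply]
    have h1 := hy l l'
    have h2 : ∑ i' ∈ Finset.Icc 1 (2 * a - 1), y l i' * x i' l' =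
        ∑ k : Fin (n + 2), y l (k + 1) * x (k + 1) l' := by
      rw [Fin.sum_univ_eq_sum_range (fun k ↦ y l (k + 1) * x (k + 1) l')]
      rw [Finset.range_eq_Ico, Finset.sum_Ico_add' (fun k ↦ y l k * x k l') 0 (n + 2) 1]
      apply Finset.sum_congr _ fun _ _ ↦ rfl
      ext k
      simp only [Finset.mem_Icc, Finset.mem_Ico]
      omega
    rw [h2] at h1
    change ∑ k : Fin (n + 2), y l (k + 1) * x (k + 1) l' = _
    rw [h1]
    by_cases hl : l = l' <;> simp [hl]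
  have hadj := de_K X Y hYX
  have h0 : (X * Y - 1).adjugate 0 (Fin.last (n + 1)) =
      ((-1) ^ (n + 2) * (-5) ^ t / 5 : ℚ) * TQ e a 1 (n + 2) := by
    rw [hadj, Matrix.smul_apply, Matrix.sub_apply, Matrix.smul_apply, Matrix.one_apply, hXY]
    have : (0 : Fin (n + 2)) ≠ Fin.last (n + 1) := by
      intro h; have := congrArg Fin.val h; simp at this
    rw [if_neg this]
    simp [add_assoc]
  have h1 : (X * Y - 1).adjugate 0 (Fin.last (n + 1)) =
      (-1) ^ (n + 1) * ((X * Y - 1).submatrix Fin.castSucc Fin.succ).det := by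
    rw [Matrix.adjugate_fin_succ_eq_det_submatrix]
    simp only [Fin.val_last, Fin.val_zero, add_zero, Fin.succAbove_last, Fin.succAbove_zero]
  -- the matrix
  let c : Fin (n + 1) → ℚ := fun j ↦
    (-1) ^ e * (5 : ℚ) ^ (3 * ((n + 2 - (j : ℕ) : ℕ) : ℤ) - a - 1 + e)
  have hmat : (Matrix.of fun i j : Fin (n + 1) ↦ MQ e (2 * a) ((i : ℕ) + 1) ((j : ℕ) + 1)) =
      Matrix.of fun i j ↦ c j *
        ((((X * Y - 1).submatrix Fin.castSucc Fin.succ).submatrix id Fin.revPerm) i j) := by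
    ext i j
    rw [Matrix.of_apply, Matrix.of_apply]
    have hj : ((j : ℕ) + 1) = 2 * a - (n + 2 - (j : ℕ)) := by omega
    rw [hj, de_MQ e a _ _]
    simp only [Matrix.submatrix_apply, id, Matrix.sub_apply, hXY, Matrix.one_apply, c]
    have hr : (((Fin.revPerm j).succ : Fin (n + 2)) : ℕ) + 1 = n + 2 - (j : ℕ) := by
      simp only [Fin.revPerm_apply, Fin.val_succ, Fin.val_rev]
      omega
    rw [hr, Fin.val_castSucc]
    congr 2
    apply if_congr _ rfl rfl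
    rw [Fin.ext_iff, Fin.val_castSucc]
    omega
  rw [hmat, Matrix.det_mul_row, Matrix.det_permute', deN_mul, deN_mul, deN_prod]
  have hs : deN ((Equiv.Perm.sign (Fin.revPerm : Equiv.Perm (Fin (n + 1))) : ℤ) : ℚ) = 1 := by
    rcases Int.units_eq_one_or (Equiv.Perm.sign (Fin.revPerm : Equiv.Perm (Fin (n + 1)))) with
      h | h
    · rw [h]
      simpa using deN_one
    · rw [h]
      simpa using deN_neg_one
  rw [hs, one_mul, Fin.prod_univ_succ]
  have hdet : deN ((X * Y - 1).submatrix Fin.castSucc Fin.succ).det * 5 ^ t =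
      5 * deN (TQ e a 1 (n + 2)) := by
    have h2 := congrArg deN (h1.symm.trans h0)
    rw [deN_mul, deN_sign, one_mul, deN_mul] at h2
    rw [h2]
    have h3 : ((-1) ^ (n + 2) * (-5) ^ t / 5 : ℚ) =
        (-1) ^ (n + 2) * (-1) ^ t * (5 : ℚ) ^ ((t : ℤ) - 1) := by
      rw [zpow_sub_one₀ (by norm_num), zpow_natCast,
        show (-5 : ℚ) ^ t = (-1) ^ t * 5 ^ t from by rw [← mul_pow]; norm_num]
      ring
    rw [h3, deN_mul, deN_mul, deN_sign, deN_sign, deN_zpow]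
    have h4 : (5 : ℝ) ^ (-((t : ℤ) - 1)) * 5 ^ t = 5 := by
      rw [← zpow_natCast, ← zpow_add₀ (by norm_num)]
      have : -((t : ℤ) - 1) + t = 1 := by ring
      rw [this, zpow_one]
    linear_combination deN (TQ e a 1 (n + 2)) * h4
  have hM : MQ e (2 * a) 1 1 = c 0 * TQ e a 1 (n + 2) := by
    have h2 := de_MQ e a 1 (n + 2)
    have h3 : 2 * a - (n + 2) = 1 := by omega
    rw [h3, if_neg (by omega), sub_zero] at h2
    rw [h2]
    simp [c]
  have hc : ∀ j : Fin n, deN (c j.succ) =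
      (5 : ℝ) ^ (-(3 * ((n + 1 : ℕ) : ℤ) - a - 1 + e - 3 * (j : ℕ))) := by
    intro j
    simp only [c]
    rw [deN_mul, deN_sign, one_mul, deN_zpow]
    congr 2
    have : ((n + 2 - ((j.succ : Fin (n + 1)) : ℕ) : ℕ) : ℤ) = (n + 1 : ℕ) - (j : ℕ) := by
      rw [Fin.val_succ]
      omega
    rw [this]
    ring
  rw [hM, deN_mul (c 0), Finset.prod_congr rfl fun j _ ↦ hc j]
  linear_combination deN (c 0) *
    (∏ j : Fin n, (5 : ℝ) ^ (-(3 * ((n + 1 : ℕ) : ℤ) - a - 1 + e - 3 * (j : ℕ)))) * hdet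

theorem spDetEven (h : SpJ) (hv : SpVal) : SpDetEven := by
  intro e n he hn ht
  unfold t5 at ht ⊢
  obtain ⟨b, hb⟩ := hn
  obtain ⟨k, rfl⟩ : ∃ k, n = k + 1 := ⟨n - 1, by omega⟩
  have ha : (k + 1 + 2) / 2 = b + 1 := by omega
  rw [ha] at ht ⊢
  have hkb : k + 3 = 2 * (b + 1) := by omega
  have hD := de_det h e k (b + 1) he hkb
  have hm : k + 1 + 2 = 2 * (b + 1) := by omega
  rw [hm]
  have hv' : ∀ i j : ℕ, (((PM e i j).eval ((2 * (b + 1) : ℕ) : ℤ_[5]) : ℤ_[5]) : ℚ_[5]) =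
      ((MQ e (2 * (b + 1)) (i + 1) (j + 1) : ℚ) : ℚ_[5]) := fun i j ↦ hv e _ i j he
  have hlead : ‖(Pot.lead (PM e) (k + 1)).eval ((2 * (b + 1) : ℕ) : ℤ_[5])‖ =
      deN (Matrix.of fun i j : Fin (k + 1) ↦
        MQ e (2 * (b + 1)) ((i : ℕ) + 1) ((j : ℕ) + 1)).det := by
    unfold deN
    rw [← PadicInt.padic_norm_e_of_padicInt]
    congr 1
    unfold Pot.lead Pot.minor
    rw [← Polynomial.coe_evalRingHom, RingHom.map_det]
    change (PadicInt.Coe.ringHom (_ : ℤ_[5])) = (Rat.castHom ℚ_[5]) _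
    rw [RingHom.map_det, RingHom.map_det]
    congr 1
    ext i j
    exact hv' i j
  have h00 : ‖(PM e 0 0).eval ((2 * (b + 1) : ℕ) : ℤ_[5])‖ = deN (MQ e (2 * (b + 1)) 1 1) := by
    unfold deN
    rw [← PadicInt.padic_norm_e_of_padicInt, hv' 0 0]
  rw [hlead, h00]
  generalize deN (MQ e (2 * (b + 1)) 1 1) = M at hD ⊢
  generalize deN (Matrix.of fun i j : Fin (k + 1) ↦
        MQ e (2 * (b + 1)) ((i : ℕ) + 1) ((j : ℕ) + 1)).det = L at hD ⊢
  have hsum := de_sum k (3 * ((k + 1 : ℕ) : ℤ) - (b + 1 : ℕ) - 1 + e)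
  rw [de_prod k fun j ↦ 3 * ((k + 1 : ℕ) : ℤ) - (b + 1 : ℕ) - 1 + e - 3 * (j : ℤ)] at hD
  obtain ⟨t, ht'⟩ : ∃ t, (b + 1 - e) / 3 = t + 1 := ⟨(b + 1 - e) / 3 - 1, by omega⟩
  rw [ht'] at hD ⊢
  have hS : ∑ j ∈ Finset.range k, (3 * ((k + 1 : ℕ) : ℤ) - (b + 1 : ℕ) - 1 + e - 3 * (j : ℤ)) =
      k * (k + 2 + e) := by
    have hb2 : (k : ℤ) + 1 = 2 * b := by omega
    push_cast at hsum ⊢
    nlinarith [hsum, hb2]
  rw [hS] at hD
  have he' : (((k + 1 - 1) * (k + 1 + 1 + e) + (t + 1 - 1) : ℕ) : ℤ) = k * (k + 2 + e) + t := by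
    have : k + 1 - 1 = k := by omega
    have h2 : t + 1 - 1 = t := by omega
    rw [this, h2]
    push_cast
    ring
  rw [he', neg_add, zpow_add₀ (by norm_num), zpow_neg _ (t : ℤ), zpow_natCast]
  have h5 : (0 : ℝ) < 5 ^ t := by positivity
  rw [pow_succ] at hD
  field_simp
  linarith

end GH.M5
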