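import Pool.Agent.GH.M5.Stm

/-!
# GH5-D4: the leading minors for odd `n` at `y = n + 1`
-/

noncomputable section

namespace GH.M5

open GH.CombU

theorem d4_sum (n a : ℕ) (hn : n + 1 = 2 * a) (f : ℕ → ℚ) :
    ∑ j : Fin n, f ((j : ℕ) + 1) = ∑ i ∈ Finset.Icc 1 (2 * a - 1), f i := by
  rw [Fin.sum_univ_eq_sum_range (fun j ↦ f (j + 1)) n, Finset.range_eq_Ico,
    Finset.sum_Ico_add' f 0 n 1]
  refine Finset.sum_congr ?_ fun _ _ ↦ rfl
  ext i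
  rw [Finset.mem_Ico, Finset.mem_Icc]
  omega

/-- The matrix `T - 1`. -/
theorem d4_det_one (e a n : ℕ) (he : e ≤ 1) (hn : n + 1 = 2 * a) (h : SpJ) :
    (Matrix.of fun i j : Fin n ↦ (TQ e a (i + 1) (j + 1) - if i = j then 1 else 0)).det =
      (-1) ^ n * (-5) ^ ((a - e) / 3) := by
  obtain ⟨x, y, hxy, hyx⟩ := h e a he (by omega)
  set X : Matrix (Fin n) (Fin ((a - e) / 3)) ℚ := Matrix.of fun i l ↦ x (i + 1) l with hX
  set Y : Matrix (Fin ((a - e) / 3)) (Fin n) ℚ := Matrix.of fun l j ↦ y l (j + 1) with hY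
  have h1 : (Matrix.of fun i j : Fin n ↦ (TQ e a (i + 1) (j + 1) - if i = j then 1 else 0)) =
      -(1 - X * Y) := by
    ext i j
    rw [Matrix.neg_apply, Matrix.sub_apply, Matrix.mul_apply, Matrix.one_apply, Matrix.of_apply,
      hxy (i + 1) (j + 1) (by omega) (by omega) (by omega)]
    simp only [hX, hY, Matrix.of_apply]
    ring
  have h2 : Y * X = (6 : ℚ) • (1 : Matrix (Fin ((a - e) / 3)) (Fin ((a - e) / 3)) ℚ) := by
    ext l l'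
    rw [Matrix.mul_apply, Matrix.smul_apply, Matrix.one_apply]
    simp only [hX, hY, Matrix.of_apply]
    rw [d4_sum n a hn (fun i ↦ y l i * x i l'), hyx l l']
    split_ifs <;> simp
  have h3 : (1 : Matrix (Fin ((a - e) / 3)) (Fin ((a - e) / 3)) ℚ) - Y * X =
      (-5 : ℚ) • (1 : Matrix (Fin ((a - e) / 3)) (Fin ((a - e) / 3)) ℚ) := by
    rw [h2]
    ext l l'
    simp only [Matrix.sub_apply, Matrix.smul_apply, Matrix.one_apply, smul_eq_mul]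
    ring
  rw [h1, Matrix.det_neg, Matrix.det_one_sub_mul_comm, h3, Matrix.det_smul, Matrix.det_one,
    Fintype.card_fin, Fintype.card_fin, mul_one]

theorem d4_prod_aux (c : ℤ) (n : ℕ) :
    ∏ j ∈ Finset.range n, (5 : ℚ) ^ (3 * ((j : ℤ) + 1) + c) =
      5 ^ (∑ j ∈ Finset.range n, (3 * ((j : ℤ) + 1) + c)) := by
  induction n with
  | zero => simp
  | succ n ih =>
    rw [Finset.prod_range_succ, Finset.sum_range_succ, ih, ← zpow_add₀ (by norm_num)]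

theorem d4_exp (c : ℤ) (n : ℕ) :
    2 * ∑ j ∈ Finset.range n, (3 * ((j : ℤ) + 1) + c) = n * (3 * ((n : ℤ) + 1) + 2 * c) := by
  induction n with
  | zero => simp
  | succ n ih =>
    rw [Finset.sum_range_succ, mul_add, ih]
    push_cast
    ring

theorem d4_prod (e a n : ℕ) (hn : n + 1 = 2 * a) :
    ∏ j : Fin n, ((-1) ^ e * (5 : ℚ) ^ (3 * (((j : ℕ) : ℤ) + 1) + ((e : ℤ) - a - 1))) =
      ((-1) ^ e) ^ n * 5 ^ (n * (n + e)) := by
  rw [Finset.prod_mul_distrib, Finset.prod_const, Finset.card_univ, Fintype.card_fin,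
    Fin.prod_univ_eq_prod_range (fun j ↦ (5 : ℚ) ^ (3 * ((j : ℤ) + 1) + ((e : ℤ) - a - 1))) n,
    d4_prod_aux]
  congr 1
  have h1 := d4_exp ((e : ℤ) - a - 1) n
  have h2 : ((n : ℤ) + 1) = 2 * a := by exact_mod_cast hn
  have h3 : ∑ j ∈ Finset.range n, (3 * ((j : ℤ) + 1) + ((e : ℤ) - a - 1)) =
      ((n * (n + e) : ℕ) : ℤ) := by
    have h4 : (n : ℤ) * (3 * ((n : ℤ) + 1) + 2 * ((e : ℤ) - a - 1)) = 2 * (n * (n + e)) := by
      have h5 : (a : ℤ) * 2 = n + 1 := by rw [h2]; ring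
      linear_combination (-(n : ℤ)) * h5
    push_cast
    linarith
  rw [h3, zpow_natCast]

theorem d4_entry (e a n : ℕ) (hn : n + 1 = 2 * a) (i j : Fin n) :
    MQ e (n + 1) ((i : ℕ) + 1) ((Fin.rev j : ℕ) + 1) =
      ((-1) ^ e * (5 : ℚ) ^ (3 * (((j : ℕ) : ℤ) + 1) + ((e : ℤ) - a - 1))) *
        (TQ e a (i + 1) (j + 1) - if i = j then 1 else 0) := by
  have h1 : (Fin.rev j : ℕ) + 1 = 2 * a - ((j : ℕ) + 1) := by
    rw [Fin.val_rev]
    omega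
  have h2 : (if (i : ℕ) + 1 = (j : ℕ) + 1 then (1 : ℚ) else 0) = if i = j then 1 else 0 := by
    by_cases hij : i = j
    · simp [hij]
    · rw [if_neg hij, if_neg (fun h ↦ hij (Fin.ext (by omega)))]
  rw [TQ, h2, h1, hn, add_sub_cancel_left]
  have h3 : ((-1 : ℚ) ^ e) * (-1) ^ e = 1 := by
    rw [← mul_pow]
    norm_num
  have h4 : (5 : ℚ) ^ (3 * (((j : ℕ) : ℤ) + 1) + ((e : ℤ) - a - 1)) *
      (5 : ℚ) ^ ((a : ℤ) + 1 - 3 * (((j : ℕ) + 1 : ℕ) : ℤ) - e) = 1 := by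
    rw [← zpow_add₀ (by norm_num : (5 : ℚ) ≠ 0)]
    have h5 : 3 * (((j : ℕ) : ℤ) + 1) + ((e : ℤ) - a - 1) +
        ((a : ℤ) + 1 - 3 * (((j : ℕ) + 1 : ℕ) : ℤ) - e) = 0 := by
      push_cast
      ring
    rw [h5, zpow_zero]
  calc MQ e (2 * a) ((i : ℕ) + 1) (2 * a - ((j : ℕ) + 1)) =
      (((-1 : ℚ) ^ e) * (-1) ^ e) * ((5 : ℚ) ^ (3 * (((j : ℕ) : ℤ) + 1) + ((e : ℤ) - a - 1)) *
      (5 : ℚ) ^ ((a : ℤ) + 1 - 3 * (((j : ℕ) + 1 : ℕ) : ℤ) - e)) *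
      MQ e (2 * a) ((i : ℕ) + 1) (2 * a - ((j : ℕ) + 1)) := by rw [h3, h4]; ring
    _ = _ := by ring

/-- The determinant over `ℚ`, columns reversed. -/
theorem d4_det (e a n : ℕ) (he : e ≤ 1) (hn : n + 1 = 2 * a) (h : SpJ) :
    ((Matrix.of fun i j : Fin n ↦ MQ e (n + 1) ((i : ℕ) + 1) ((j : ℕ) + 1)).submatrix id
      Fin.revPerm).det =
      ((-1) ^ e) ^ n * 5 ^ (n * (n + e)) * ((-1) ^ n * (-5) ^ ((a - e) / 3)) := by
  rw [← d4_det_one e a n he hn h, ← d4_prod e a n hn, ← Matrix.det_mul_row]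
  congr 1
  ext i j
  rw [Matrix.submatrix_apply, Matrix.of_apply, Matrix.of_apply, Matrix.of_apply, id, Fin.revPerm_apply]
  exact d4_entry e a n hn i j

theorem d4_lead (hv : SpVal) (e n m : ℕ) (he : e ≤ 1) :
    (((Pot.lead (PM e) n).eval (m : ℤ_[5]) : ℤ_[5]) : ℚ_[5]) =
      (((Matrix.of fun i j : Fin n ↦ MQ e m ((i : ℕ) + 1) ((j : ℕ) + 1)).det : ℚ) : ℚ_[5]) := by
  have h1 : (((Pot.lead (PM e) n).eval (m : ℤ_[5]) : ℤ_[5]) : ℚ_[5]) =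
      (PadicInt.Coe.ringHom.comp (Polynomial.evalRingHom (m : ℤ_[5]))) (Pot.lead (PM e) n) := rfl
  have h2 : (((Matrix.of fun i j : Fin n ↦ MQ e m ((i : ℕ) + 1) ((j : ℕ) + 1)).det : ℚ) : ℚ_[5]) =
      (Rat.castHom ℚ_[5]) (Matrix.of fun i j : Fin n ↦ MQ e m ((i : ℕ) + 1) ((j : ℕ) + 1)).det :=
    rfl
  rw [h1, h2, Pot.lead, Pot.minor, RingHom.map_det, RingHom.map_det]
  congr 1
  ext i j
  exact hv e m i j he

theorem spDetOdd (h : SpJ) (hv : SpVal) : SpDetOdd := by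
  intro e n he hodd
  obtain ⟨b, hb⟩ := hodd
  obtain ⟨a, ha⟩ : ∃ a, a = b + 1 := ⟨_, rfl⟩
  have hn : n + 1 = 2 * a := by omega
  have ht : t5 e (n + 1) = (a - e) / 3 := by
    unfold t5
    rw [hn, Nat.mul_div_cancel_left a (by norm_num)]
  have h1 := Matrix.det_permute' (Fin.revPerm (n := n))
    (Matrix.of fun i j : Fin n ↦ MQ e (n + 1) ((i : ℕ) + 1) ((j : ℕ) + 1))
  rw [d4_det e a n he hn h] at h1
  have h2 : ∀ k : ℕ, ‖((-1 : ℚ_[5]) ^ k)‖ = 1 := by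
    intro k
    rw [norm_pow, norm_neg, norm_one, one_pow]
  have h3 : ‖((((Equiv.Perm.sign (Fin.revPerm (n := n)) : ℤˣ) : ℤ) : ℚ) : ℚ_[5])‖ = 1 := by
    rcases Int.units_eq_one_or (Equiv.Perm.sign (Fin.revPerm (n := n))) with h | h <;> rw [h] <;>
      simp
  have h4 : ‖(5 : ℚ_[5])‖ = (5 : ℝ)⁻¹ := by
    have := Padic.norm_p (p := 5)
    exact_mod_cast this
  have h5 := congrArg (fun q : ℚ ↦ ‖(q : ℚ_[5])‖) h1
  simp only [Rat.cast_mul, norm_mul] at h5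
  rw [h3, one_mul] at h5
  rw [PadicInt.norm_def, d4_lead hv e n (n + 1) he, ← h5, ht]
  push_cast
  rw [← pow_mul, h2, h2, norm_pow, norm_pow, norm_neg, h4, one_mul, one_mul, ← pow_add, inv_pow,
    zpow_neg, ← zpow_natCast]
  push_cast
  rfl

end GH.M5
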