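import Pool.Agent.GH.M5.Stm
import Pool.Agent.GH.UMatB_a

/-!
# GH5-F2: the values of `PM` in `ℂ_5`
-/

open PowerSeries

noncomputable section

namespace GH.M5

open GH.D5 GH.MatU

section

variable {K : Type*} [Field K] [CharZero K]

omit [CharZero K] in
theorem m5ev_Q_const (R : Type*) [CommRing R] : constantCoeff (Qser5 R) = 1 := by
  simp [Qser5]

theorem m5ev_Q_mul (R : Type*) [CommRing R] : Qser5 R * Qi R = 1 := by
  rw [Qi]
  exact mul_invOfUnit _ 1 (by rw [m5ev_Q_const]; simp)

theorem m5ev_Q_eq (R : Type*) [CommRing R] : Qser5 R = 1 + C (5 : R) * thQ R := by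
  have h5 : C (5 : R) = 5 := map_ofNat C 5
  have h3 : C (3 : R) = 3 := map_ofNat C 3
  have h15 : C (15 : R) = 15 := map_ofNat C 15
  have h25 : C (25 : R) = 25 := map_ofNat C 25
  rw [Qser5, thQ, h5, h3, h15, h25]
  ring

theorem m5ev_th_const (R : Type*) [CommRing R] : constantCoeff (thQ R) = 0 := by
  simp [thQ]

theorem m5ev_map_Q {R S : Type*} [CommRing R] [CommRing S] (f : R →+* S) :
    PowerSeries.map f (Qser5 R) = Qser5 S := by
  simp only [Qser5, map_add, map_mul, map_pow, map_one, PowerSeries.map_X, map_ofNat]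

theorem m5ev_map_R {R S : Type*} [CommRing R] [CommRing S] (f : R →+* S) (e : ℕ) :
    PowerSeries.map f (Rser5 R e) = Rser5 S e := by
  rw [Rser5, Rser5]
  split_ifs <;> simp only [map_add, map_mul, map_pow, map_one, PowerSeries.map_X, map_ofNat]

theorem m5ev_th0 : constantCoeff (-(thQ ℤ_[5] * Qi ℤ_[5])) = 0 := by
  rw [map_neg, map_mul, m5ev_th_const, zero_mul, neg_zero]

theorem m5ev_one_add : 1 + C (5 : ℤ_[5]) * -(thQ ℤ_[5] * Qi ℤ_[5]) = Qi ℤ_[5] := by
  have h1 := m5ev_Q_mul ℤ_[5]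
  rw [m5ev_Q_eq] at h1
  linear_combination -h1

/-- `Q^{-y}` as an inverse power. -/
theorem m5ev_ppow_neg {u v : PowerSeries K} (hu : constantCoeff u = 1)
    (hv : constantCoeff v = 1) (huv : u * v = 1) (y : K) : ppow u (-y) = ppow v y := by
  have h1 : ppow u (-y) * ppow u y = 1 := by
    rw [← ub_ppow_add hu, neg_add_cancel, ub_ppow_zero hu]
  have h2 : ppow u y * ppow v y = 1 := by
    rw [← ub_ppow_mul hu hv, huv]
    have h3 : constantCoeff (1 : PowerSeries K) = 1 := map_one _
    have h4 := ub_ppow_mul h3 h3 y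
    rw [mul_one] at h4
    have h5 : ppow (1 : PowerSeries K) y ≠ 0 := by
      intro h6
      have h7 := ub_const_ppow h3 y
      rw [h6, map_zero] at h7
      exact zero_ne_one h7
    exact (mul_left_cancel₀ h5 (by rw [mul_one]; exact h4)).symm
  calc ppow u (-y) = ppow u (-y) * (ppow u y * ppow v y) := by rw [h2, mul_one]
    _ = ppow v y := by rw [← mul_assoc, h1, one_mul]

/-- The values of `Q^{-y}`. -/
theorem m5ev_map_LY (φ : ℤ_[5] →+* K) (y : K) :
    PowerSeries.map (Polynomial.eval₂RingHom φ y) LY = ppow (Qser5 K) (-y) := by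
  set th : PowerSeries ℤ_[5] := -(thQ ℤ_[5] * Qi ℤ_[5]) with hth
  have hth0 : constantCoeff th = 0 := m5ev_th0
  have h0 : constantCoeff (PowerSeries.map φ th) = 0 := by
    rw [← coeff_zero_eq_constantCoeff_apply, coeff_map, coeff_zero_eq_constantCoeff_apply,
      hth0, map_zero]
  have h1 : PowerSeries.map (Polynomial.eval₂RingHom φ y) (PowerSeries.mk (cc 5)) =
      rescale 5 (binS y) := by
    ext m
    rw [coeff_map, coeff_mk, coeff_rescale, ub_coeff_binS, cc, map_mul]
    have h2 : Polynomial.eval₂RingHom φ y (Polynomial.C (uu 5 m)) = φ (uu 5 m) := by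
      simp
    have h3 : Polynomial.eval₂RingHom φ y (descPochhammer ℤ_[5] m) =
        ∏ i ∈ Finset.range m, (y - i) := by
      rw [Polynomial.coe_eval₂RingHom, Polynomial.eval₂_eq_eval_map, descPochhammer_map,
        descPochhammer_eval_eq_prod_range]
    have h4 : φ (uu 5 m) * (m.factorial : K) = 5 ^ m := by
      have := congrArg φ (uu_mul 5 m)
      rw [map_mul, map_pow, map_natCast, map_natCast] at this
      push_cast at this
      exact this
    have h5 : (m.factorial : K) ≠ 0 := by exact_mod_cast m.factorial_ne_zero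
    rw [h2, h3, ← h4]
    field_simp
  have h6 : PowerSeries.map (Polynomial.eval₂RingHom φ y) (PowerSeries.map Polynomial.C th) =
      PowerSeries.map φ th := by
    ext n
    simp
  have h7 : 1 + C (5 : K) * PowerSeries.map φ th = PowerSeries.map φ (Qi ℤ_[5]) := by
    rw [← m5ev_one_add, map_add, map_mul, map_one, ← hth, PowerSeries.map_C, map_ofNat φ 5]
  have h8 : constantCoeff (PowerSeries.map φ (Qi ℤ_[5])) = 1 := by
    rw [← h7, map_add, map_mul, h0, mul_zero, add_zero, map_one]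
  have h9 : Qser5 K * PowerSeries.map φ (Qi ℤ_[5]) = 1 := by
    rw [← m5ev_map_Q φ, ← map_mul, m5ev_Q_mul, map_one]
  rw [LY, ← hth, Lpow, map_subst' (hasSubst_C 5 hth0), h1, h6, ub_rescale_subst 5 y h0, h7,
    m5ev_ppow_neg (m5ev_Q_const K) h8 h9]

/-- The values of `PM` in a field of characteristic zero. -/
theorem m5ev_eval (φ : ℤ_[5] →+* K) (e : ℕ) (y : K) (i j : ℕ) :
    (PM e i j).eval₂ φ y = Mat5 e y (i + 1) (j + 1) := by
  rw [PM, Mat5]
  split_ifs with h
  · have h1 : PowerSeries.map (Polynomial.eval₂RingHom φ y)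
        (Rser5 Zy e * Qser5 Zy ^ (i + j + 1) * LY) =
        Rser5 K e * ppow (Qser5 K) (((i + 1 : ℕ) : K) + ((j + 1 : ℕ) : K) - 1 - y) := by
      have h2 : ((i + 1 : ℕ) : K) + ((j + 1 : ℕ) : K) - 1 - y = ((i + j + 1 : ℕ) : K) + -y := by
        push_cast
        ring
      rw [map_mul, map_mul, map_pow, m5ev_map_R, m5ev_map_Q, m5ev_map_LY, mul_assoc, h2,
        ub_ppow_add (m5ev_Q_const K), ub_ppow_nat (m5ev_Q_const K)]
    rw [← Polynomial.coe_eval₂RingHom, ← coeff_map, h1]
  · simp

end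

theorem spEval : SpEval := fun e y i j _ ↦ m5ev_eval iota5 e y i j

end GH.M5
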