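import Pool.Agent.GH.M5.Stm

/-!
# GH5-MAT, row A1: exponentials over `ℤ_5[y][[T]]`
-/

open PowerSeries

noncomputable section

namespace GH.M5

theorem exp_five_ne : (Polynomial.C (5 : ℤ_[5]) : Zy) ≠ 0 := by
  have h : (5 : ℤ_[5]) ≠ 0 := by norm_num
  exact Polynomial.C_ne_zero.mpr h

theorem exp_uniq {E D : PowerSeries Zy} (h0 : constantCoeff D = 0)
    (hd : derivative Zy D = derivative Zy E * D) : D = 0 := by
  ext1 n
  rw [map_zero]
  induction n using Nat.strong_induction_on with
  | _ n ih =>
    cases n with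
    | zero => rw [coeff_zero_eq_constantCoeff_apply, h0]
    | succ n =>
      have h1 := congrArg (coeff n) hd
      rw [coeff_derivative, coeff_mul, Finset.sum_eq_zero] at h1
      · rcases mul_eq_zero.1 h1 with h | h
        · exact h
        · exact absurd h (Nat.cast_add_one_ne_zero n)
      · intro ij hij
        rw [Finset.HasAntidiagonal.mem_antidiagonal] at hij
        rw [ih ij.2 (by omega), mul_zero]

theorem exp_ord {E F : PowerSeries Zy} {N : ℕ} (h : IsE E F) (hN : X ^ N ∣ E) :
    X ^ N ∣ F - 1 := by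
  rw [X_pow_dvd_iff] at hN ⊢
  intro m hm
  cases m with
  | zero => rw [coeff_zero_eq_constantCoeff_apply, map_sub, h.f0, map_one, sub_self]
  | succ n =>
    have h1 := congrArg (coeff n) h.der
    rw [coeff_derivative, coeff_mul, Finset.sum_eq_zero] at h1
    · rw [map_sub, coeff_one, if_neg (by omega), sub_zero]
      rcases mul_eq_zero.1 h1 with h2 | h2
      · exact h2
      · exact absurd h2 (Nat.cast_add_one_ne_zero n)
    · intro ij hij
      rw [Finset.HasAntidiagonal.mem_antidiagonal] at hij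
      rw [coeff_derivative, hN (ij.1 + 1) (by omega), zero_mul, zero_mul]

theorem exp_uu (n : ℕ) : MatU.uu 5 (n + 1) * ((n : ℤ_[5]) + 1) = 5 * MatU.uu 5 n := by
  have h1 := MatU.uu_mul 5 (n + 1)
  have h2 := MatU.uu_mul 5 n
  have h3 : ((n.factorial : ℕ) : ℤ_[5]) ≠ 0 := Nat.cast_ne_zero.mpr n.factorial_ne_zero
  apply mul_right_cancel₀ h3
  rw [Nat.factorial_succ] at h1
  push_cast at h1 h2
  rw [pow_succ, ← h2] at h1
  linear_combination h1

theorem exp_leib' {R : Type*} [CommRing R] (F G : PowerSeries R) :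
    derivative R (F * G) = F * derivative R G + G * derivative R F :=
  (derivative R).leibniz F G

theorem exp_leib (F G : PowerSeries Zy) :
    derivative Zy (F * G) = F * derivative Zy G + G * derivative Zy F :=
  exp_leib' F G

theorem exp_exists {E : PowerSeries Zy} (h0 : constantCoeff E = 0)
    (h5 : C (Polynomial.C (5 : ℤ_[5])) ∣ E) : ∃ F, IsE E F := by
  obtain ⟨E1, rfl⟩ := h5
  have h1 : constantCoeff E1 = 0 := by
    rw [map_mul, constantCoeff_C] at h0
    exact (mul_eq_zero.1 h0).resolve_left exp_five_ne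
  have hs : HasSubst E1 := HasSubst.of_constantCoeff_zero' h1
  obtain ⟨f, hf⟩ : ∃ f : PowerSeries Zy,
      f = PowerSeries.mk fun m => Polynomial.C (MatU.uu 5 m) := ⟨_, rfl⟩
  have hder : derivative Zy f = C (Polynomial.C (5 : ℤ_[5])) * f := by
    ext1 n
    rw [coeff_derivative, hf, coeff_mk, coeff_C_mul, coeff_mk, ← map_mul, ← exp_uu n, map_mul]
    simp
  refine ⟨f.subst E1, h0, ?_, ?_⟩
  · rw [← coeff_zero_eq_constantCoeff_apply, coeff_subst' hs, finsum_eq_single _ 0]
    · rw [pow_zero, hf, coeff_mk, MatU.uu_zero]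
      simp
    · intro d hd
      rw [coeff_zero_eq_constantCoeff_apply, map_pow, h1, zero_pow hd, smul_zero]
  · have h2 : derivative Zy (C (Polynomial.C (5 : ℤ_[5])) * E1) =
        C (Polynomial.C (5 : ℤ_[5])) * derivative Zy E1 := by
      rw [exp_leib, derivative_C, mul_zero, add_zero]
    have h3 : (C (Polynomial.C (5 : ℤ_[5])) * f : PowerSeries Zy).subst E1 =
        C (Polynomial.C (5 : ℤ_[5])) * f.subst E1 := by
      rw [← coe_substAlgHom hs, map_mul, coe_substAlgHom hs, subst_C]
      rfl
    rw [derivative_subst hs, hder, h3, h2]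
    ring

theorem spExp : SpExp := by
  refine ⟨fun E h0 h5 => exp_exists h0 h5, fun E F N h hN => exp_ord h hN, ?_, ?_⟩
  · intro E F F' h h'
    have h1 : F - F' = 0 := by
      refine exp_uniq (E := E) ?_ ?_
      · rw [map_sub, h.f0, h'.f0, sub_self]
      · rw [map_sub, h.der, h'.der]
        ring
    exact sub_eq_zero.1 h1
  · intro E F E' F' h h'
    refine ⟨?_, ?_, ?_⟩
    · rw [map_add, h.e0, h'.e0, add_zero]
    · rw [map_mul, h.f0, h'.f0, mul_one]
    · rw [exp_leib, map_add, h.der, h'.der]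
      ring

end GH.M5
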