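import Pool.Agent.GH.M5.Stm

/-!
# GH5-MAT, row A5: the factorisation (helper81)
-/

open PowerSeries

noncomputable section

namespace GH.M5

open GH.D5 GH.CombU

theorem fac_hasSubst : PowerSeries.HasSubst (gT Zy) := by
  refine PowerSeries.HasSubst.of_constantCoeff_zero' ?_
  unfold gT
  rw [map_mul, map_pow, PowerSeries.constantCoeff_X]
  simp

theorem fac_bd_one : Bd phA (1 : PowerSeries Zy) := by
  intro n j
  rw [PowerSeries.coeff_one]
  split_ifs with h
  · subst h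
    rw [Polynomial.coeff_one]
    split_ifs with h2
    · subst h2
      simp [phA]
    · exact dvd_zero _
  · rw [Polynomial.coeff_zero]
    exact dvd_zero _

theorem phA_add (n j n' j' : ℕ) : phA (n + n') (j + j') ≤ phA n j + phA n' j' := by
  unfold phA
  omega

theorem fac_bd_mul {F G : PowerSeries Zy} (hF : Bd phA F) (hG : Bd phA G) :
    Bd phA (F * G) := by
  intro n j
  rw [PowerSeries.coeff_mul, Polynomial.finset_sum_coeff]
  refine Finset.dvd_sum fun p hp => ?_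
  rw [Polynomial.coeff_mul]
  refine Finset.dvd_sum fun q hq => ?_
  have h1 := Finset.HasAntidiagonal.mem_antidiagonal.1 hp
  have h2 := Finset.HasAntidiagonal.mem_antidiagonal.1 hq
  rw [← h1, ← h2]
  refine dvd_trans (pow_dvd_pow _ (phA_add p.1 q.1 p.2 q.2)) ?_
  rw [pow_add]
  exact mul_dvd_mul (hF _ _) (hG _ _)

/-- the condition on the coefficients of `G` -/
def FG (G : PowerSeries Zy) : Prop := constantCoeff G = 1 ∧
  ∀ l, Polynomial.C ((5 : ℤ_[5]) ^ ((7 * (l + 1) + 4) / 4)) ∣ coeff (l + 1) G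

theorem FG.one : FG 1 := by
  refine ⟨map_one _, fun l => ?_⟩
  rw [PowerSeries.coeff_one, if_neg (Nat.succ_ne_zero l)]
  exact dvd_zero _

theorem FG.mul {F G : PowerSeries Zy} (hF : FG F) (hG : FG G) : FG (F * G) := by
  refine ⟨by rw [map_mul, hF.1, hG.1, one_mul], fun l => ?_⟩
  rw [PowerSeries.coeff_mul]
  refine Finset.dvd_sum fun p hp => ?_
  have h1 := Finset.HasAntidiagonal.mem_antidiagonal.1 hp
  rcases Nat.eq_zero_or_pos p.1 with h2 | h2
  · have h3 : p.2 = l + 1 := by omega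
    rw [h3]
    exact Dvd.dvd.mul_left (hG.2 l) _
  · rcases Nat.eq_zero_or_pos p.2 with h4 | h4
    · have h3 : p.1 = l + 1 := by omega
      rw [h3]
      exact Dvd.dvd.mul_right (hF.2 l) _
    · obtain ⟨a, ha⟩ : ∃ a, p.1 = a + 1 := ⟨p.1 - 1, by omega⟩
      obtain ⟨b, hb⟩ : ∃ b, p.2 = b + 1 := ⟨p.2 - 1, by omega⟩
      rw [ha, hb]
      refine dvd_trans ?_ (mul_dvd_mul (hF.2 a) (hG.2 b))
      rw [← Polynomial.C_mul, ← pow_add]
      refine (map_dvd (Polynomial.C : ℤ_[5] →+* Zy)) (pow_dvd_pow _ ?_)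
      omega

theorem spFac (h1 : SpExp) (h3 : SpStart) (h4 : SpStep) : SpFac := by
  have key : ∀ N : ℕ, ∃ A G E R : PowerSeries Zy, Bd phA A ∧ FG G ∧ IsE E R ∧ Bd phE E ∧
      X ^ (N + 1) ∣ E ∧ LY = A * G.subst (gT Zy) * R := by
    intro N
    induction N with
    | zero =>
      obtain ⟨E, hE, hE2⟩ := h3
      refine ⟨1, 1, E, LY, fac_bd_one, FG.one, hE, hE2, ?_, ?_⟩
      · rw [zero_add, pow_one, PowerSeries.X_dvd_iff]
        exact hE.e0
      · have h5 : (1 : PowerSeries Zy).subst (gT Zy) = (1 : PowerSeries Zy) := by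
          rw [← PowerSeries.coe_substAlgHom fac_hasSubst, map_one]
        rw [h5, one_mul, one_mul]
    | succ N ih =>
      obtain ⟨A, G, E, R, hA, hG, hE, hE2, hX, hL⟩ := ih
      obtain ⟨A', G', E', R', hA', hG1, hG2, hE', hE2', hX', hR⟩ :=
        h4 (N + 1) E R (by omega) hE hE2 hX
      refine ⟨A * A', G * G', E', R', fac_bd_mul hA hA', hG.mul ⟨hG1, hG2⟩, hE', hE2', hX', ?_⟩
      rw [PowerSeries.subst_mul fac_hasSubst, hL]
      conv_lhs => rw [hR]
      ring
  intro N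
  obtain ⟨A, G, E, R, hA, hG, hE, _, hX, hL⟩ := key N
  refine ⟨A, G, hA, hG.1, hG.2, ?_⟩
  have h5 : X ^ N ∣ R - 1 := h1.2.1 E R N hE (dvd_trans (pow_dvd_pow _ (Nat.le_succ N)) hX)
  have h6 : LY - A * G.subst (gT Zy) = (A * G.subst (gT Zy)) * (R - 1) := by
    rw [mul_sub, mul_one, ← hL]
  rw [h6]
  exact Dvd.dvd.mul_left h5 _

end GH.M5
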