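import Pool.Agent.GH.M5.Stm

/-!
# GH5-F4: norms of the ghost coefficients, `p = 5` (helper36)
-/

noncomputable section

namespace GH.M5

open GH.D5 GH.CombU

/-- The multiplicities as a truncated minimum, `p = 5`. -/
theorem gh5_multG_eq (n k : ℕ) : multG 5 n k =
    min (n - dimOne k) (2 * (k / 4) - 1 - dimOne k - n) := by
  unfold multG sfun dimNewG dimG nell2 nell3
  generalize dimOne k = d
  rw [if_neg (show ¬ ((5 : ℕ) = 2) by norm_num), if_pos (show (5 : ℕ) % 4 = 1 by norm_num),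
    if_neg (show ¬ ((5 : ℕ) = 3) by norm_num), if_neg (show ¬ ((5 : ℕ) % 3 = 1) by norm_num),
    Nat.zero_mul, Nat.add_zero]
  split_ifs <;> omega

theorem gh5_dimOne (e a : ℕ) (he : e ≤ 1) : dimOne (2 * (2 * a + e)) = t5 e (2 * a) := by
  unfold dimOne t5
  have h : e = 0 ∨ e = 1 := by omega
  rcases h with rfl | rfl
  · split_ifs <;> omega
  · split_ifs <;> omega

theorem gh5_mult (e n a : ℕ) (he : e ≤ 1) :
    multG 5 n (2 * (2 * a + e)) = T5 e n (2 * a) := by
  rw [gh5_multG_eq, gh5_dimOne e a he]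
  unfold T5
  rw [if_pos (by omega)]
  have h : 2 * (2 * a + e) / 4 = a := by omega
  rw [h]

theorem gh5_T5_zero {e n m : ℕ} (he : e ≤ 1) (hm : Z5 n ≤ m) : T5 e n m = 0 := by
  unfold T5 t5
  unfold Z5 at hm
  split_ifs
  · rw [Nat.min_eq_zero_iff]
    left
    omega
  · rfl

theorem gh5_norm_natCast {c : ℕ} (hc : c % 5 ≠ 0) : ‖(c : C5)‖ = 1 := by
  have h1 : (c : C5) = algebraMap ℚ_[5] C5 ((c : ℕ) : ℚ_[5]) := by rw [map_natCast]
  rw [h1, norm_algebraMap']
  have h2 : ((c : ℕ) : ℚ_[5]) = (((c : ℕ) : ℤ_[5]) : ℚ_[5]) := by push_cast; rfl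
  rw [h2, ← PadicInt.norm_def]
  rcases lt_or_eq_of_le (PadicInt.norm_le_one (((c : ℕ) : ℤ_[5]))) with h3 | h3
  · exfalso
    apply hc
    have h4 : (((c : ℕ) : ℤ) : ℤ_[5]) = ((c : ℕ) : ℤ_[5]) := by push_cast; rfl
    rw [← h4, PadicInt.norm_int_lt_one_iff_dvd] at h3
    omega
  · exact h3

theorem gh5_prod (e n : ℕ) (he : e ≤ 1) (w : C5) :
    ghostG 5 e w n = ∏ m ∈ Finset.range (Z5 n), (w - (11 ^ (2 * (m + e)) - 1)) ^ T5 e n m := by
  classical
  unfold ghostG
  rw [finprod_eq_prod_of_mulSupport_subset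
    (s := (Finset.range (Z5 n)).image fun m => 2 * (m + e))]
  · rw [Finset.prod_image (fun a _ b _ h => by
      have h' : 2 * (a + e) = 2 * (b + e) := h
      omega)]
    refine Finset.prod_congr rfl fun m _ => ?_
    rcases Nat.even_or_odd' m with ⟨a, rfl | rfl⟩
    · rw [if_pos, gh5_mult e n a he]
      · norm_num
      · refine ⟨even_two_mul _, ?_⟩
        show 2 * (2 * a + e) % (5 - 1) = 2 * e % (5 - 1)
        omega
    · rw [if_neg]
      · have h0 : T5 e n (2 * a + 1) = 0 := by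
          unfold T5
          rw [if_neg (by omega)]
        rw [h0, pow_zero]
      · rintro ⟨-, h⟩
        have h' : 2 * (2 * a + 1 + e) % (5 - 1) = 2 * e % (5 - 1) := h
        omega
  · intro k hk
    rw [Function.mem_mulSupport] at hk
    by_cases hc : Even k ∧ k ≡ 2 * e [MOD 5 - 1]
    · rw [if_pos hc] at hk
      obtain ⟨-, h2⟩ := hc
      have h3 : k % (5 - 1) = 2 * e % (5 - 1) := h2
      have hk0 : multG 5 n k ≠ 0 := by
        intro h0
        apply hk
        rw [h0, pow_zero]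
      have h4 : ∃ a, k = 2 * (2 * a + e) := by
        have h : e = 0 ∨ e = 1 := by omega
        rcases h with rfl | rfl
        · exact ⟨k / 4, by omega⟩
        · exact ⟨k / 4, by omega⟩
      obtain ⟨a, rfl⟩ := h4
      rw [Finset.coe_image, Set.mem_image]
      refine ⟨2 * a, ?_, rfl⟩
      rw [Finset.mem_coe, Finset.mem_range]
      by_contra hcon
      apply hk0
      rw [gh5_mult e n a he]
      exact gh5_T5_zero he (by omega)
    · rw [if_neg hc] at hk
      exact absurd rfl hk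

/-- F4. -/
theorem spGhost (hs : SpSum)
    (hw : ∀ y : C5, ‖y‖ ≤ 1 → ∀ m : ℕ, ‖wx5 y + 1 - 121 ^ m‖ = ‖y - (m : C5)‖ / 5) :
    SpGhost := by
  intro e n y he hy
  rw [gh5_prod e n he, norm_prod]
  have h121 : ‖(121 : C5)‖ = 1 := by
    have h := gh5_norm_natCast (c := 121) (by norm_num)
    simpa using h
  have h1 : ∀ m ∈ Finset.range (Z5 n),
      ‖((wx5 y + 1) * 121 ^ e - 1 - (11 ^ (2 * (m + e)) - 1)) ^ T5 e n m‖ =
        (5 : ℝ)⁻¹ ^ T5 e n m * ‖y - (m : C5)‖ ^ T5 e n m := by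
    intro m _
    rw [norm_pow, ← mul_pow]
    congr 1
    have h2 : (wx5 y + 1) * 121 ^ e - 1 - (11 ^ (2 * (m + e)) - 1) =
        121 ^ e * (wx5 y + 1 - 121 ^ m) := by
      have h3 : (11 : C5) ^ (2 * (m + e)) = 121 ^ m * 121 ^ e := by
        rw [pow_mul, show (11 : C5) ^ 2 = 121 by norm_num, pow_add]
      rw [h3]
      ring
    rw [h2, norm_mul, norm_pow, h121, one_pow, one_mul, hw y hy m]
    ring
  rw [Finset.prod_congr rfl h1, Finset.prod_mul_distrib, Finset.prod_pow_eq_pow_sum, hs e n he,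
    inv_pow, zpow_neg, zpow_natCast]

end GH.M5
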