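import Pool.Agent.GH.M5.Stm

/-!
# GH5-MAT, block H: the entries of the matrix at the natural numbers

The coefficient of `T^n` in `Q`, `1/Q`, `R_1` and `5 R_0` is divisible by `5^⌈n/2⌉`, and these
series form a monoid.
-/

open PowerSeries

noncomputable section

namespace GH.M5

open GH.D5 GH.CombU

namespace HX

/-- `5^⌈n/2⌉` divides the coefficient of `T^n`. -/
def Hf (F : PowerSeries ℤ) : Prop := ∀ n, (5 : ℤ) ^ ((n + 1) / 2) ∣ coeff n F

lemma Hf.one : Hf 1 := by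
  intro n
  rw [coeff_one]
  split_ifs with h
  · subst h; simp
  · exact dvd_zero _

lemma Hf.add {F G : PowerSeries ℤ} (hF : Hf F) (hG : Hf G) : Hf (F + G) := by
  intro n
  rw [map_add]
  exact dvd_add (hF n) (hG n)

lemma Hf.mul {F G : PowerSeries ℤ} (hF : Hf F) (hG : Hf G) : Hf (F * G) := by
  intro n
  rw [coeff_mul]
  refine Finset.dvd_sum fun p hp ↦ ?_
  have hp' := Finset.HasAntidiagonal.mem_antidiagonal.mp hp
  have h1 : (5 : ℤ) ^ ((n + 1) / 2) ∣ 5 ^ ((p.1 + 1) / 2) * 5 ^ ((p.2 + 1) / 2) := by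
    rw [← pow_add]
    exact pow_dvd_pow _ (by omega)
  exact h1.trans (mul_dvd_mul (hF _) (hG _))

lemma Hf.pow {F : PowerSeries ℤ} (hF : Hf F) (k : ℕ) : Hf (F ^ k) := by
  induction k with
  | zero => simpa using Hf.one
  | succ k ih => rw [pow_succ]; exact ih.mul hF

lemma Hf.mon (a : ℤ) (k : ℕ) (h : (5 : ℤ) ^ ((k + 1) / 2) ∣ a) : Hf (C a * X ^ k) := by
  intro n
  rw [coeff_C_mul, coeff_X_pow]
  split_ifs with h'
  · subst h'; simpa using h
  · simp

lemma Hf.inv {F G : PowerSeries ℤ} (hF : Hf F) (h0 : constantCoeff F = 1) (h : F * G = 1) :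
    Hf G := by
  intro n
  induction n using Nat.strong_induction_on with
  | _ n ih =>
    have e : G = 1 + (1 - F) * G := by linear_combination h
    have e2 := congrArg (coeff n) e
    rw [map_add, coeff_mul] at e2
    rw [e2]
    refine dvd_add (Hf.one n) (Finset.dvd_sum fun p hp ↦ ?_)
    have hp' := Finset.HasAntidiagonal.mem_antidiagonal.mp hp
    by_cases h1 : p.1 = 0
    · have h2 : coeff p.1 (1 - F) = 0 := by rw [h1]; simp [h0]
      rw [h2, zero_mul]
      exact dvd_zero _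
    · have h2 : coeff p.1 (1 - F) = -coeff p.1 F := by simp [coeff_one, h1]
      rw [h2]
      have h3 : (5 : ℤ) ^ ((n + 1) / 2) ∣ 5 ^ ((p.1 + 1) / 2) * 5 ^ ((p.2 + 1) / 2) := by
        rw [← pow_add]
        exact pow_dvd_pow _ (by omega)
      exact h3.trans (mul_dvd_mul ((hF _).neg_right) (ih p.2 (by omega)))

lemma Hf_poly (b c d e : ℤ) (hb : 5 ∣ b) (hc : 5 ∣ c) (hd : 25 ∣ d) (he : 25 ∣ e)
    (F : PowerSeries ℤ) (hF : Hf F) :
    Hf (F + C b * X + C c * X ^ 2 + C d * X ^ 3 + C e * X ^ 4) := by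
  have h1 : Hf (C b * X) := by
    have := Hf.mon b 1 (by norm_num; exact hb)
    simpa using this
  have h2 : Hf (C c * X ^ 2) := Hf.mon c 2 (by norm_num; exact hc)
  have h3 : Hf (C d * X ^ 3) := Hf.mon d 3 (by norm_num; exact hd)
  have h4 : Hf (C e * X ^ 4) := Hf.mon e 4 (by norm_num; exact he)
  exact (((hF.add h1).add h2).add h3).add h4

lemma Hf_Q : Hf (Qser5 ℤ) :=
  Hf_poly 5 15 25 25 (by norm_num) (by norm_num) (by norm_num) (by norm_num) 1 Hf.one

lemma Q_c0 (R : Type*) [CommRing R] : constantCoeff (Qser5 R) = 1 := by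
  simp [Qser5]

lemma Q_mul_Qi (R : Type*) [CommRing R] : Qser5 R * Qi R = 1 := by
  unfold Qi
  exact mul_invOfUnit _ 1 (by simp [Q_c0])

lemma Hf_Qi : Hf (Qi ℤ) := Hf_Q.inv (Q_c0 ℤ) (Q_mul_Qi ℤ)

lemma Hf_R (e : ℕ) (he : e ≤ 1) : Hf (C ((5 : ℤ) ^ (1 - e)) * Rser5 ℤ e) := by
  interval_cases e
  · have h := Hf_poly 20 45 50 25 (by norm_num) (by norm_num) (by norm_num) (by norm_num)
      (C (5 : ℤ)) (by simpa using Hf.mon 5 0 (by norm_num))
    have e1 : C ((5 : ℤ) ^ (1 - 0)) * Rser5 ℤ 0 =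
        C (5 : ℤ) + C (20 : ℤ) * X + C (45 : ℤ) * X ^ 2 + C (50 : ℤ) * X ^ 3 +
          C (25 : ℤ) * X ^ 4 := by
      have a1 : (C (20 : ℤ) : PowerSeries ℤ) = C 5 * C 4 := by rw [← map_mul]; norm_num
      have a2 : (C (45 : ℤ) : PowerSeries ℤ) = C 5 * C 9 := by rw [← map_mul]; norm_num
      have a3 : (C (50 : ℤ) : PowerSeries ℤ) = C 5 * C 10 := by rw [← map_mul]; norm_num
      have a4 : (C (25 : ℤ) : PowerSeries ℤ) = C 5 * C 5 := by rw [← map_mul]; norm_num
      rw [a1, a2, a3, a4]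
      simp only [Rser5, if_true, Nat.sub_zero, pow_one]
      ring
    rw [e1]
    exact h
  · have h := Hf_poly 10 45 100 125 (by norm_num) (by norm_num) (by norm_num) (by norm_num)
      1 Hf.one
    have e1 : C ((5 : ℤ) ^ (1 - 1)) * Rser5 ℤ 1 =
        1 + C (10 : ℤ) * X + C (45 : ℤ) * X ^ 2 + C (100 : ℤ) * X ^ 3 +
          C (125 : ℤ) * X ^ 4 := by
      simp [Rser5]
    rw [e1]
    exact h

lemma map_Q {R S : Type*} [CommRing R] [CommRing S] (f : R →+* S) :
    PowerSeries.map f (Qser5 R) = Qser5 S := by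
  have h5 : f 5 = 5 := map_ofNat f 5
  have h15 : f 15 = 15 := map_ofNat f 15
  have h25 : f 25 = 25 := map_ofNat f 25
  simp [Qser5, h5, h15, h25]

lemma map_R {R S : Type*} [CommRing R] [CommRing S] (f : R →+* S) (e : ℕ) :
    PowerSeries.map f (Rser5 R e) = Rser5 S e := by
  have h4 : f 4 = 4 := map_ofNat f 4
  have h5 : f 5 = 5 := map_ofNat f 5
  have h9 : f 9 = 9 := map_ofNat f 9
  have h10 : f 10 = 10 := map_ofNat f 10
  have h45 : f 45 = 45 := map_ofNat f 45
  have h100 : f 100 = 100 := map_ofNat f 100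
  have h125 : f 125 = 125 := map_ofNat f 125
  unfold Rser5
  split_ifs <;> simp [h4, h5, h9, h10, h45, h100, h125]

lemma map_Qi' {R S : Type*} [CommRing R] [CommRing S] (f : R →+* S) :
    PowerSeries.map f (Qi R) = Qi S := by
  have h1 : PowerSeries.map f (Qser5 R) * PowerSeries.map f (Qi R) = 1 := by
    rw [← map_mul, Q_mul_Qi, map_one]
  rw [map_Q] at h1
  calc PowerSeries.map f (Qi R) = (Qser5 S * Qi S) * PowerSeries.map f (Qi R) := by
        rw [Q_mul_Qi, one_mul]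
    _ = Qi S * (Qser5 S * PowerSeries.map f (Qi R)) := by ring
    _ = Qi S := by rw [h1, mul_one]

/-- The value of the matrix is an integer. -/
lemma MQ_int (e m i j : ℕ) (h : j + 1 ≤ 5 * (i + 1)) :
    MQ e m (i + 1) (j + 1) =
      ((coeff (5 * (i + 1) - (j + 1)) (Rser5 ℤ e * Qser5 ℤ ^ (i + j + 1) * Qi ℤ ^ m) : ℤ) : ℚ) := by
  have h1 : i + 1 + (j + 1) - 1 = i + j + 1 := by omega
  rw [MQ, if_pos h, h1]
  have h2 : (Rser5 ℚ e * Qser5 ℚ ^ (i + j + 1) * Qi ℚ ^ m) =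
      PowerSeries.map (Int.castRingHom ℚ) (Rser5 ℤ e * Qser5 ℤ ^ (i + j + 1) * Qi ℤ ^ m) := by
    rw [map_mul, map_mul, map_pow, map_pow, map_Q, map_R, map_Qi']
  rw [h2, coeff_map]
  rfl

end HX

open HX

/-- H: the entries at the natural numbers. -/
theorem spH (hv : SpVal) : SpH := by
  intro e m i j he
  by_cases hij : j + 1 ≤ 5 * (i + 1)
  · set n := 5 * (i + 1) - (j + 1) with hn
    set c : ℤ := coeff n (Rser5 ℤ e * Qser5 ℤ ^ (i + j + 1) * Qi ℤ ^ m) with hc
    have h1 : (5 : ℤ) ^ ((n + 1) / 2) ∣ 5 ^ (1 - e) * c := by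
      have := (((Hf_R e he).mul (Hf_Q.pow (i + j + 1))).mul (Hf_Qi.pow m)) n
      rw [mul_assoc, mul_assoc, coeff_C_mul, ← mul_assoc (Rser5 ℤ e)] at this
      exact this
    have hval : (PM e i j).eval (m : ℤ_[5]) = (c : ℤ_[5]) := by
      apply PadicInt.ext
      rw [hv e m i j he, MQ_int e m i j hij]
      push_cast
      rfl
    have key : (5 : ℤ) ^ (i + j + 1 + e + gg i) ∣ 5 ^ gg j * c := by
      have h2 : (5 : ℤ) ^ (1 - e) * 5 ^ (i + j + 1 + e + gg i) ∣
          5 ^ (1 - e) * (5 ^ gg j * c) := by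
        have h3 : (5 : ℤ) ^ (1 - e) * 5 ^ (i + j + 1 + e + gg i) ∣
            5 ^ gg j * 5 ^ ((n + 1) / 2) := by
          rw [← pow_add, ← pow_add]
          refine pow_dvd_pow _ ?_
          simp only [gg]
          omega
        have h4 : (5 : ℤ) ^ (1 - e) * (5 ^ gg j * c) = 5 ^ gg j * (5 ^ (1 - e) * c) := by ring
        rw [h4]
        exact h3.trans (mul_dvd_mul_left _ h1)
      exact (mul_dvd_mul_iff_left (by positivity)).mp h2
    rw [hval]
    have := map_dvd (Int.castRingHom ℤ_[5]) key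
    simpa using this
  · have h0 : PM e i j = 0 := by rw [PM, if_neg hij]
    rw [h0]
    simp

end GH.M5
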