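import Pool.Agent.GH.M5.Stm

/-!
# GH5-MAT, row J1: the image of `T`
-/

open PowerSeries

noncomputable section

namespace GH.M5

open GH.D5 GH.CombU

namespace Im

theorem const_Q : constantCoeff (Qser5 ℚ) = ((1 : ℚˣ) : ℚ) := by
  simp [Qser5]

theorem Q_Qi : Qser5 ℚ * Qi ℚ = 1 := PowerSeries.mul_invOfUnit _ _ const_Q

/-- `Q` as a unit -/
def Qu : (PowerSeries ℚ)ˣ where
  val := Qser5 ℚ
  inv := Qi ℚ
  val_inv := Q_Qi
  inv_val := by rw [mul_comm]; exact Q_Qi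

/-- coefficients with integer index -/
def co (n : ℤ) (F : PowerSeries ℚ) : ℚ := if 0 ≤ n then coeff n.toNat F else 0

theorem co_neg {n : ℤ} (h : n < 0) (F : PowerSeries ℚ) : co n F = 0 := if_neg (by omega)

theorem co_nat (n : ℕ) (F : PowerSeries ℚ) : co n F = coeff n F := by
  unfold co
  rw [if_pos (by omega), Int.toNat_natCast]

theorem co_add (n : ℤ) (F G : PowerSeries ℚ) : co n (F + G) = co n F + co n G := by
  unfold co
  split_ifs <;> simp

theorem co_sub (n : ℤ) (F G : PowerSeries ℚ) : co n (F - G) = co n F - co n G := by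
  unfold co
  split_ifs <;> simp

theorem co_C_mul (n : ℤ) (c : ℚ) (F : PowerSeries ℚ) : co n (C c * F) = c * co n F := by
  unfold co
  split_ifs <;> simp

theorem co_X_pow_mul (n : ℤ) (k : ℕ) (F : PowerSeries ℚ) : co n (X ^ k * F) = co (n - k) F := by
  unfold co
  by_cases h1 : 0 ≤ n
  · rw [if_pos h1, coeff_X_pow_mul']
    by_cases h2 : k ≤ n.toNat
    · rw [if_pos h2, if_pos (by omega)]
      congr 1
      congr 1
      omega
    · rw [if_neg h2, if_neg (by omega)]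
  · rw [if_neg h1, if_neg (by omega)]

/-- `R_e Q^β` -/
def RS (e : ℕ) (β : ℤ) : PowerSeries ℚ := Rser5 ℚ e * ((Qu ^ β : (PowerSeries ℚ)ˣ) : PowerSeries ℚ)

theorem RS_succ (e : ℕ) (β : ℤ) : RS e (β + 1) = RS e β * Qser5 ℚ := by
  unfold RS
  rw [zpow_add_one, Units.val_mul]
  change _ * (_ * Qser5 ℚ) = _
  ring

theorem RS_nat (e : ℕ) (n : ℕ) : RS e n = Rser5 ℚ e * Qser5 ℚ ^ n := by
  unfold RS
  rw [zpow_natCast, Units.val_pow_eq_pow_val]
  rfl

theorem RS_neg (e : ℕ) (n : ℕ) : RS e (-(n : ℤ)) = Rser5 ℚ e * Qi ℚ ^ n := by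
  unfold RS
  rw [zpow_neg, zpow_natCast, ← inv_pow, Units.val_pow_eq_pow_val]
  rfl

theorem RS_sub (e m n : ℕ) : RS e ((m : ℤ) - n) = Rser5 ℚ e * Qser5 ℚ ^ m * Qi ℚ ^ n := by
  unfold RS
  rw [sub_eq_add_neg, zpow_add, Units.val_mul, zpow_natCast, zpow_neg, zpow_natCast, ← inv_pow,
    Units.val_pow_eq_pow_val, Units.val_pow_eq_pow_val, ← mul_assoc]
  rfl

/-- the function `V(N, s)` -/
def V (e : ℕ) (N s : ℤ) : ℚ :=
  (if s = 0 then 1 else 0) + (-1) ^ e * (5 : ℚ) ^ (N + 1) * co (5 * s - 2 * N - 2 * e) (RS e (s - 1))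

theorem TQ_eq {e a i i' : ℕ} (hi : 1 ≤ i) (hi' : i' < 2 * a) :
    TQ e a i i' = V e ((a : ℤ) - e - 3 * i') ((i : ℤ) - i') := by
  unfold TQ V
  congr 1
  · by_cases h : i = i'
    · rw [if_pos h, if_pos (by omega)]
    · rw [if_neg h, if_neg (by omega)]
  · have h5 : (a : ℤ) + 1 - 3 * i' - e = (a : ℤ) - e - 3 * i' + 1 := by ring
    rw [h5]
    congr 1
    unfold MQ
    have hex : (i : ℤ) - i' - 1 = ((i + (2 * a - i') - 1 : ℕ) : ℤ) - ((2 * a : ℕ) : ℤ) := by omega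
    rw [hex, RS_sub]
    by_cases h : 2 * a - i' ≤ 5 * i
    · rw [if_pos h]
      have hn : 5 * ((i : ℤ) - i') - 2 * ((a : ℤ) - e - 3 * i') - 2 * e =
          ((5 * i - (2 * a - i') : ℕ) : ℤ) := by omega
      rw [hn, co_nat]
    · rw [if_neg h, co_neg (by omega)]

/-- the polynomial identity -/
theorem poly_id : C (5 : ℚ) * (X ^ 2 * Qser5 ℚ ^ 2) = Qser5 ℚ ^ 2 + C 250 * (X ^ 5 * Qser5 ℚ) +
    C 3125 * X ^ 10 - C 10 * (X ^ 1 * Qser5 ℚ) - 1 := by
  unfold Qser5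
  simp only [map_ofNat]
  ring

theorem V_rec (e : ℕ) (N s : ℤ) : V e (N + 6) s = V e (N + 5) s + 250 * V e (N + 5) (s - 1) +
    3125 * V e (N + 5) (s - 2) - 250 * V e (N + 3) (s - 1) - 3125 * V e N (s - 2) := by
  set U := RS e (s - 3) with hU
  have hU1 : RS e (s - 1 - 1) = U * Qser5 ℚ := by
    rw [hU, ← RS_succ]; congr 1; ring
  have hU2 : RS e (s - 1) = U * Qser5 ℚ ^ 2 := by
    have h1 : s - 1 = (s - 3 + 1) + 1 := by ring
    rw [h1, RS_succ, RS_succ, ← hU]; ring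
  have hU0 : RS e (s - 2 - 1) = U := by
    rw [hU]; congr 1; ring
  have hid : C (5 : ℚ) * (X ^ 2 * (U * Qser5 ℚ ^ 2)) = U * Qser5 ℚ ^ 2 +
      C 250 * (X ^ 5 * (U * Qser5 ℚ)) + C 3125 * (X ^ 10 * U) -
      C 10 * (X ^ 1 * (U * Qser5 ℚ)) - U := by
    have := poly_id
    calc C (5 : ℚ) * (X ^ 2 * (U * Qser5 ℚ ^ 2)) = U * (C (5 : ℚ) * (X ^ 2 * Qser5 ℚ ^ 2)) := by
          ring
      _ = _ := by rw [this]; ring
  set n : ℤ := 5 * s - 2 * N - 10 - 2 * e with hn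
  have hc := congrArg (co n) hid
  simp only [co_add, co_sub, co_C_mul, co_X_pow_mul] at hc
  push_cast at hc
  unfold V
  rw [hU0, hU1, hU2]
  have n1 : 5 * s - 2 * (N + 6) - 2 * (e : ℤ) = n - 2 := by rw [hn]; ring
  have n2 : 5 * s - 2 * (N + 5) - 2 * (e : ℤ) = n := by rw [hn]; ring
  have n3 : 5 * (s - 1) - 2 * (N + 5) - 2 * (e : ℤ) = n - 5 := by rw [hn]; ring
  have n4 : 5 * (s - 2) - 2 * (N + 5) - 2 * (e : ℤ) = n - 10 := by rw [hn]; ring
  have n5 : 5 * (s - 1) - 2 * (N + 3) - 2 * (e : ℤ) = n - 1 := by rw [hn]; ring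
  have n6 : 5 * (s - 2) - 2 * N - 2 * (e : ℤ) = n := by rw [hn]; ring
  rw [n1, n2, n3, n4, n5, n6]
  have z1 : (5 : ℚ) ^ (N + 6 + 1) = 5 ^ N * 5 ^ 7 := by
    rw [add_assoc, zpow_add₀ (by norm_num)]; norm_num
  have z2 : (5 : ℚ) ^ (N + 5 + 1) = 5 ^ N * 5 ^ 6 := by
    rw [add_assoc, zpow_add₀ (by norm_num)]; norm_num
  have z3 : (5 : ℚ) ^ (N + 3 + 1) = 5 ^ N * 5 ^ 4 := by
    rw [add_assoc, zpow_add₀ (by norm_num)]; norm_num
  have z4 : (5 : ℚ) ^ (N + 1) = 5 ^ N * 5 := by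
    rw [zpow_add₀ (by norm_num)]; norm_num
  rw [z1, z2, z3, z4]
  linear_combination ((-1) ^ e * 5 ^ N * 5 ^ 6) * hc

/-! ### the values at the start -/

theorem coeff_trunc {A B Qk Qik Rr : PowerSeries ℚ} {m n : ℕ} (hn : n < m)
    (h : Rr = A * Qk + X ^ m * B) (hq : Qk * Qik = 1) : coeff n (Rr * Qik) = coeff n A := by
  have h1 : Rr * Qik = A + X ^ m * (B * Qik) := by
    rw [h]
    calc (A * Qk + X ^ m * B) * Qik = A * (Qk * Qik) + X ^ m * (B * Qik) := by ring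
      _ = _ := by rw [hq, mul_one]
  rw [h1, map_add, coeff_X_pow_mul', if_neg (by omega), add_zero]

theorem Q_Qi_pow (k : ℕ) : Qser5 ℚ ^ k * Qi ℚ ^ k = 1 := by
  rw [← mul_pow, Q_Qi, one_pow]

/-- `R_0 / Q` up to `T^10` -/
def A01 : PowerSeries ℚ := C (1) * X ^ 0 + C (-1) * X ^ 1 + C (-1) * X ^ 2 + C (5) * X ^ 3 +
  C (-5) * X ^ 4 + C (-25) * X ^ 6 + C (125) * X ^ 7 + C (-125) * X ^ 8 + C (-625) * X ^ 9 +
  C (2500) * X ^ 10

/-- `R_1 / Q` up to `T^8` -/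
def A11 : PowerSeries ℚ := C (1) * X ^ 0 + C (5) * X ^ 1 + C (5) * X ^ 2 + C (-25) * X ^ 3 +
  C (25) * X ^ 4 + C (125) * X ^ 6 + C (-625) * X ^ 7 + C (625) * X ^ 8

/-- `R_0 / Q^2` up to `T^5` -/
def A02 : PowerSeries ℚ := C (1) * X ^ 0 + C (-6) * X ^ 1 + C (14) * X ^ 2 + C (-90) * X ^ 4 +
  C (250) * X ^ 5

/-- `R_1 / Q^2` up to `T^3` -/
def A12 : PowerSeries ℚ := C (1) * X ^ 0 + C (-10) * X ^ 2

theorem hA01 {n : ℕ} (hn : n < 11) : coeff n (Rser5 ℚ 0 * Qi ℚ ^ 1) = coeff n A01 := by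
  refine coeff_trunc (B := C (-3125) * X ^ 0 + C (-18750) * X ^ 1 + C (-46875) * X ^ 2 +
    C (-62500) * X ^ 3) hn ?_ (Q_Qi_pow 1)
  unfold A01 Rser5 Qser5
  simp only [if_true, map_neg, map_ofNat, map_one]
  ring

theorem hA11 {n : ℕ} (hn : n < 9) : coeff n (Rser5 ℚ 1 * Qi ℚ ^ 1) = coeff n A11 := by
  refine coeff_trunc (B := C (3125) * X ^ 0 + C (3125) * X ^ 1 + C (-15625) * X ^ 3) hn ?_
    (Q_Qi_pow 1)
  unfold A11 Rser5 Qser5
  simp only [one_ne_zero, if_false, map_neg, map_ofNat, map_one]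
  ring

theorem hA02 {n : ℕ} (hn : n < 6) : coeff n (Rser5 ℚ 0 * Qi ℚ ^ 2) = coeff n A02 := by
  refine coeff_trunc (B := C (-275) * X ^ 0 + C (-2750) * X ^ 1 + C (-15125) * X ^ 2 +
    C (-55000) * X ^ 3 + C (-135000) * X ^ 4 + C (-231250) * X ^ 5 + C (-256250) * X ^ 6 +
    C (-156250) * X ^ 7) hn ?_ (Q_Qi_pow 2)
  unfold A02 Rser5 Qser5
  simp only [if_true, map_neg, map_ofNat, map_one]
  ring

theorem hA12 {n : ℕ} (hn : n < 4) : coeff n (Rser5 ℚ 1 * Qi ℚ ^ 2) = coeff n A12 := by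
  refine coeff_trunc (B := C (150) * X ^ 0 + C (1000) * X ^ 1 + C (3875) * X ^ 2 +
    C (8750) * X ^ 3 + C (13125) * X ^ 4 + C (12500) * X ^ 5 + C (6250) * X ^ 6) hn ?_ (Q_Qi_pow 2)
  unfold A12 Rser5 Qser5
  simp only [one_ne_zero, if_false, map_neg, map_ofNat, map_one]
  ring

theorem co_zero_index (F : PowerSeries ℚ) : co 0 F = constantCoeff F := by
  have := co_nat 0 F
  rw [Nat.cast_zero] at this
  rw [this]
  simp

theorem const_RS (e : ℕ) (β : ℤ) : constantCoeff (RS e β) = 1 := by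
  have hR : constantCoeff (Rser5 ℚ e) = 1 := by
    unfold Rser5
    split_ifs <;> simp
  have hq : ∀ n : ℕ, constantCoeff (Qi ℚ ^ n) = 1 := by
    intro n
    have := congrArg constantCoeff (Q_Qi_pow n)
    rw [map_mul, map_pow, const_Q] at this
    simpa using this
  rcases Int.eq_nat_or_neg β with ⟨n, rfl | rfl⟩
  · rw [RS_nat, map_mul, hR, map_pow, const_Q]
    simp
  · rw [RS_neg, map_mul, hR, hq, one_mul]

/-- the polynomials -/
theorem co_deg {e : ℕ} {s n : ℤ} (hs : 1 ≤ s) (hn : 4 * s < n) : co n (RS e (s - 1)) = 0 := by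
  obtain ⟨k, hk⟩ := Int.eq_ofNat_of_zero_le (show 0 ≤ s - 1 by omega)
  obtain ⟨j, hj⟩ := Int.eq_ofNat_of_zero_le (show 0 ≤ n by omega)
  rw [hk, hj, RS_nat, co_nat]
  let Qp : Polynomial ℚ := 1 + Polynomial.C (5 : ℚ) * Polynomial.X +
    Polynomial.C (15 : ℚ) * Polynomial.X ^ 2 + Polynomial.C (25 : ℚ) * Polynomial.X ^ 3 +
    Polynomial.C (25 : ℚ) * Polynomial.X ^ 4
  let Rp : Polynomial ℚ := if e = 0 then 1 + Polynomial.C (4 : ℚ) * Polynomial.X +
    Polynomial.C (9 : ℚ) * Polynomial.X ^ 2 + Polynomial.C (10 : ℚ) * Polynomial.X ^ 3 +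
    Polynomial.C (5 : ℚ) * Polynomial.X ^ 4 else 1 + Polynomial.C (10 : ℚ) * Polynomial.X +
    Polynomial.C (45 : ℚ) * Polynomial.X ^ 2 + Polynomial.C (100 : ℚ) * Polynomial.X ^ 3 +
    Polynomial.C (125 : ℚ) * Polynomial.X ^ 4
  have hQ : Qser5 ℚ = (Qp : PowerSeries ℚ) := by
    simp [Qser5, Qp]
  have hR : Rser5 ℚ e = (Rp : PowerSeries ℚ) := by
    unfold Rser5
    simp only [Rp]
    split_ifs <;> simp
  have h : Rser5 ℚ e * Qser5 ℚ ^ k = ((Rp * Qp ^ k : Polynomial ℚ) : PowerSeries ℚ) := by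
    rw [hQ, hR]
    simp
  have dQ : Qp.natDegree ≤ 4 := by
    simp only [Qp]
    compute_degree
  have dR : Rp.natDegree ≤ 4 := by
    simp only [Rp]
    split_ifs <;> compute_degree
  rw [h, Polynomial.coeff_coe]
  apply Polynomial.coeff_eq_zero_of_natDegree_lt
  have h1 : (Rp * Qp ^ k).natDegree ≤ 4 + k * 4 :=
    (Polynomial.natDegree_mul_le).trans (Nat.add_le_add dR
      ((Polynomial.natDegree_pow_le).trans (Nat.mul_le_mul_left k dQ)))
  omega

theorem V_low {e : ℕ} {N s : ℤ} (hN : -5 ≤ N) (hs : s ≤ -3) : V e N s = 0 := by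
  unfold V
  rw [if_neg (by omega), co_neg (by omega), mul_zero, add_zero]

theorem V_high {e : ℕ} {N s : ℤ} (hs : 1 ≤ s) (h : 2 * N + 2 * e < s) : V e N s = 0 := by
  unfold V
  rw [if_neg (by omega), co_deg hs (by omega), mul_zero, add_zero]

theorem V_zero (e : ℕ) (N : ℤ) : V e N 0 = 1 + (-1) ^ e * (5 : ℚ) ^ (N + 1) *
    co (-2 * N - 2 * e) (Rser5 ℚ e * Qi ℚ ^ 1) := by
  unfold V
  have h1 : (0 : ℤ) - 1 = -((1 : ℕ) : ℤ) := by norm_num
  rw [if_pos rfl, h1, RS_neg]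
  congr 3
  ring

theorem V_m1 (e : ℕ) (N : ℤ) : V e N (-1) = (-1) ^ e * (5 : ℚ) ^ (N + 1) *
    co (-5 - 2 * N - 2 * e) (Rser5 ℚ e * Qi ℚ ^ 2) := by
  unfold V
  have h1 : (-1 : ℤ) - 1 = -((2 : ℕ) : ℤ) := by norm_num
  rw [if_neg (by norm_num), h1, RS_neg, zero_add]
  congr 2

theorem V_m2 (e : ℕ) (N : ℤ) : V e N (-2) = (-1) ^ e * (5 : ℚ) ^ (N + 1) *
    co (-10 - 2 * N - 2 * e) (RS e (-3)) := by
  unfold V
  rw [if_neg (by norm_num), zero_add]
  congr 2

/-- all values for `-5 ≤ N ≤ 0` away from `s = -2, -1, 0, 1, 2` -/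
theorem int_cases (s : ℤ) : s ≤ -3 ∨ s = -2 ∨ s = -1 ∨ s = 0 ∨ s = 1 ∨ s = 2 ∨ 3 ≤ s := by omega

theorem V00 (s : ℤ) : V 0 0 s = if s = 0 then 6 else 0 := by
  rcases int_cases s with h | rfl | rfl | rfl | rfl | rfl | h
  · rw [V_low (by norm_num) h, if_neg (by omega)]
  · rw [V_m2, co_neg (by norm_num)]; norm_num
  · rw [V_m1, co_neg (by norm_num)]; norm_num
  · rw [V_zero]
    have h0 : (-2 * 0 - 2 * ((0 : ℕ) : ℤ)) = ((0 : ℕ) : ℤ) := by norm_num
    rw [h0, co_nat, hA01 (by norm_num)]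
    simp [A01, coeff_X_pow]
    norm_num
  · rw [V_high (by norm_num) (by norm_num)]; norm_num
  · rw [V_high (by norm_num) (by norm_num)]; norm_num
  · rw [V_high (by omega) (by push_cast; omega), if_neg (by omega)]

theorem V10_one : V 1 0 1 = -500 := by
  unfold V
  have h0 : (5 * 1 - 2 * 0 - 2 * ((1 : ℕ) : ℤ)) = ((3 : ℕ) : ℤ) := by norm_num
  have h1 : (1 : ℤ) - 1 = ((0 : ℕ) : ℤ) := by norm_num
  rw [h0, h1, co_nat, RS_nat]
  simp [Rser5, coeff_X_pow, coeff_X]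
  norm_num

theorem V10_two : V 1 0 2 = -15625 := by
  unfold V
  have h0 : (5 * 2 - 2 * 0 - 2 * ((1 : ℕ) : ℤ)) = ((8 : ℕ) : ℤ) := by norm_num
  have h1 : (2 : ℤ) - 1 = ((1 : ℕ) : ℤ) := by norm_num
  have h2 : Rser5 ℚ 1 * Qser5 ℚ ^ 1 = C (3125 : ℚ) * X ^ 8 + (C 1 + C 15 * X ^ 1 + C 110 * X ^ 2 +
      C 500 * X ^ 3 + C 1575 * X ^ 4 + C 3500 * X ^ 5 + C 5500 * X ^ 6 + C 5625 * X ^ 7) := by
    unfold Rser5 Qser5
    simp only [one_ne_zero, if_false, map_ofNat, map_one]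
    ring
  rw [h0, h1, co_nat, RS_nat, h2]
  simp [coeff_X_pow, coeff_X, coeff_C]
  norm_num

theorem V01 (s : ℤ) : V 0 (-1) s = 0 := by
  rcases int_cases s with h | rfl | rfl | rfl | rfl | rfl | h
  · rw [V_low (by norm_num) h]
  · rw [V_m2, co_neg (by norm_num)]; norm_num
  · rw [V_m1, co_neg (by norm_num)]; norm_num
  · rw [V_zero]
    have h0 : (-2 * (-1) - 2 * ((0 : ℕ) : ℤ)) = ((2 : ℕ) : ℤ) := by norm_num
    rw [h0, co_nat, hA01 (by norm_num)]
    simp [A01, coeff_X_pow, coeff_X]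
    try norm_num
  · rw [V_high (by norm_num) (by norm_num)]
  · rw [V_high (by norm_num) (by norm_num)]
  · rw [V_high (by omega) (by push_cast; omega)]

theorem V02 (s : ℤ) : V 0 (-2) s = 0 := by
  rcases int_cases s with h | rfl | rfl | rfl | rfl | rfl | h
  · rw [V_low (by norm_num) h]
  · rw [V_m2, co_neg (by norm_num)]; norm_num
  · rw [V_m1, co_neg (by norm_num)]; norm_num
  · rw [V_zero]
    have h0 : (-2 * (-2) - 2 * ((0 : ℕ) : ℤ)) = ((4 : ℕ) : ℤ) := by norm_num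
    rw [h0, co_nat, hA01 (by norm_num)]
    simp [A01, coeff_X_pow, coeff_X]
    try norm_num
  · rw [V_high (by norm_num) (by norm_num)]
  · rw [V_high (by norm_num) (by norm_num)]
  · rw [V_high (by omega) (by push_cast; omega)]

theorem V03 (s : ℤ) : V 0 (-3) s = if s = -1 then (-6/25 : ℚ) else 0 := by
  rcases int_cases s with h | rfl | rfl | rfl | rfl | rfl | h
  · rw [V_low (by norm_num) h, if_neg (by omega)]
  · rw [V_m2, co_neg (by norm_num)]; norm_num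
  · rw [V_m1]
    have h0 : (-5 - 2 * (-3) - 2 * ((0 : ℕ) : ℤ)) = ((1 : ℕ) : ℤ) := by norm_num
    rw [h0, co_nat, hA02 (by norm_num)]
    simp [A02, coeff_X_pow, coeff_X]
    try norm_num
  · rw [V_zero]
    have h0 : (-2 * (-3) - 2 * ((0 : ℕ) : ℤ)) = ((6 : ℕ) : ℤ) := by norm_num
    rw [h0, co_nat, hA01 (by norm_num)]
    simp [A01, coeff_X_pow, coeff_X]
    try norm_num
  · rw [V_high (by norm_num) (by norm_num)]; norm_num
  · rw [V_high (by norm_num) (by norm_num)]; norm_num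
  · rw [V_high (by omega) (by push_cast; omega), if_neg (by omega)]

theorem V04 (s : ℤ) : V 0 (-4) s = 0 := by
  rcases int_cases s with h | rfl | rfl | rfl | rfl | rfl | h
  · rw [V_low (by norm_num) h]
  · rw [V_m2, co_neg (by norm_num)]; norm_num
  · rw [V_m1]
    have h0 : (-5 - 2 * (-4) - 2 * ((0 : ℕ) : ℤ)) = ((3 : ℕ) : ℤ) := by norm_num
    rw [h0, co_nat, hA02 (by norm_num)]
    simp [A02, coeff_X_pow, coeff_X]
    try norm_num
  · rw [V_zero]
    have h0 : (-2 * (-4) - 2 * ((0 : ℕ) : ℤ)) = ((8 : ℕ) : ℤ) := by norm_num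
    rw [h0, co_nat, hA01 (by norm_num)]
    simp [A01, coeff_X_pow, coeff_X]
    try norm_num
  · rw [V_high (by norm_num) (by norm_num)]
  · rw [V_high (by norm_num) (by norm_num)]
  · rw [V_high (by omega) (by push_cast; omega)]

theorem V05 (s : ℤ) : V 0 (-5) s = if s = -2 then (1/625 : ℚ) else if s = -1 then (2/5 : ℚ) else if s = 0 then (5 : ℚ) else 0 := by
  rcases int_cases s with h | rfl | rfl | rfl | rfl | rfl | h
  · rw [V_low (by norm_num) h, if_neg (by omega), if_neg (by omega), if_neg (by omega)]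
  · rw [V_m2]
    have h0 : (-10 - 2 * (-5) - 2 * ((0 : ℕ) : ℤ)) = 0 := by norm_num
    rw [h0, co_zero_index, const_RS]; norm_num
  · rw [V_m1]
    have h0 : (-5 - 2 * (-5) - 2 * ((0 : ℕ) : ℤ)) = ((5 : ℕ) : ℤ) := by norm_num
    rw [h0, co_nat, hA02 (by norm_num)]
    simp [A02, coeff_X_pow, coeff_X]
    try norm_num
  · rw [V_zero]
    have h0 : (-2 * (-5) - 2 * ((0 : ℕ) : ℤ)) = ((10 : ℕ) : ℤ) := by norm_num
    rw [h0, co_nat, hA01 (by norm_num)]
    simp [A01, coeff_X_pow, coeff_X]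
    try norm_num
  · rw [V_high (by norm_num) (by norm_num)]; norm_num
  · rw [V_high (by norm_num) (by norm_num)]; norm_num
  · rw [V_high (by omega) (by push_cast; omega), if_neg (by omega), if_neg (by omega), if_neg (by omega)]

theorem V10 (s : ℤ) : V 1 0 s = if s = 0 then (1 : ℚ) else if s = 1 then (-500 : ℚ) else if s = 2 then (-15625 : ℚ) else 0 := by
  rcases int_cases s with h | rfl | rfl | rfl | rfl | rfl | h
  · rw [V_low (by norm_num) h, if_neg (by omega), if_neg (by omega), if_neg (by omega)]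
  · rw [V_m2, co_neg (by norm_num)]; norm_num
  · rw [V_m1, co_neg (by norm_num)]; norm_num
  · rw [V_zero, co_neg (by norm_num)]; norm_num
  · exact V10_one.trans (by norm_num)
  · exact V10_two.trans (by norm_num)
  · rw [V_high (by omega) (by push_cast; omega), if_neg (by omega), if_neg (by omega), if_neg (by omega)]

theorem V11 (s : ℤ) : V 1 (-1) s = 0 := by
  rcases int_cases s with h | rfl | rfl | rfl | rfl | rfl | h
  · rw [V_low (by norm_num) h]
  · rw [V_m2, co_neg (by norm_num)]; norm_num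
  · rw [V_m1, co_neg (by norm_num)]; norm_num
  · rw [V_zero]
    have h0 : (-2 * (-1) - 2 * ((1 : ℕ) : ℤ)) = ((0 : ℕ) : ℤ) := by norm_num
    rw [h0, co_nat, hA11 (by norm_num)]
    simp [A11, coeff_X_pow, coeff_X]
    try norm_num
  · rw [V_high (by norm_num) (by norm_num)]
  · rw [V_high (by norm_num) (by norm_num)]
  · rw [V_high (by omega) (by push_cast; omega)]

theorem V12 (s : ℤ) : V 1 (-2) s = 0 := by
  rcases int_cases s with h | rfl | rfl | rfl | rfl | rfl | h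
  · rw [V_low (by norm_num) h]
  · rw [V_m2, co_neg (by norm_num)]; norm_num
  · rw [V_m1, co_neg (by norm_num)]; norm_num
  · rw [V_zero]
    have h0 : (-2 * (-2) - 2 * ((1 : ℕ) : ℤ)) = ((2 : ℕ) : ℤ) := by norm_num
    rw [h0, co_nat, hA11 (by norm_num)]
    simp [A11, coeff_X_pow, coeff_X]
    try norm_num
  · rw [V_high (by norm_num) (by norm_num)]
  · rw [V_high (by norm_num) (by norm_num)]
  · rw [V_high (by omega) (by push_cast; omega)]

theorem V13 (s : ℤ) : V 1 (-3) s = 0 := by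
  rcases int_cases s with h | rfl | rfl | rfl | rfl | rfl | h
  · rw [V_low (by norm_num) h]
  · rw [V_m2, co_neg (by norm_num)]; norm_num
  · rw [V_m1, co_neg (by norm_num)]; norm_num
  · rw [V_zero]
    have h0 : (-2 * (-3) - 2 * ((1 : ℕ) : ℤ)) = ((4 : ℕ) : ℤ) := by norm_num
    rw [h0, co_nat, hA11 (by norm_num)]
    simp [A11, coeff_X_pow, coeff_X]
    try norm_num
  · rw [V_high (by norm_num) (by norm_num)]
  · rw [V_high (by norm_num) (by norm_num)]
  · rw [V_high (by omega) (by push_cast; omega)]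

theorem V14 (s : ℤ) : V 1 (-4) s = 0 := by
  rcases int_cases s with h | rfl | rfl | rfl | rfl | rfl | h
  · rw [V_low (by norm_num) h]
  · rw [V_m2, co_neg (by norm_num)]; norm_num
  · rw [V_m1]
    have h0 : (-5 - 2 * (-4) - 2 * ((1 : ℕ) : ℤ)) = ((1 : ℕ) : ℤ) := by norm_num
    rw [h0, co_nat, hA12 (by norm_num)]
    simp [A12, coeff_X_pow, coeff_X]
    try norm_num
  · rw [V_zero]
    have h0 : (-2 * (-4) - 2 * ((1 : ℕ) : ℤ)) = ((6 : ℕ) : ℤ) := by norm_num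
    rw [h0, co_nat, hA11 (by norm_num)]
    simp [A11, coeff_X_pow, coeff_X]
    try norm_num
  · rw [V_high (by norm_num) (by norm_num)]
  · rw [V_high (by norm_num) (by norm_num)]
  · rw [V_high (by omega) (by push_cast; omega)]

theorem V15 (s : ℤ) : V 1 (-5) s = 0 := by
  rcases int_cases s with h | rfl | rfl | rfl | rfl | rfl | h
  · rw [V_low (by norm_num) h]
  · rw [V_m2, co_neg (by norm_num)]; norm_num
  · rw [V_m1]
    have h0 : (-5 - 2 * (-5) - 2 * ((1 : ℕ) : ℤ)) = ((3 : ℕ) : ℤ) := by norm_num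
    rw [h0, co_nat, hA12 (by norm_num)]
    simp [A12, coeff_X_pow, coeff_X]
    try norm_num
  · rw [V_zero]
    have h0 : (-2 * (-5) - 2 * ((1 : ℕ) : ℤ)) = ((8 : ℕ) : ℤ) := by norm_num
    rw [h0, co_nat, hA11 (by norm_num)]
    simp [A11, coeff_X_pow, coeff_X]
    try norm_num
  · rw [V_high (by norm_num) (by norm_num)]
  · rw [V_high (by norm_num) (by norm_num)]
  · rw [V_high (by omega) (by push_cast; omega)]

/-! ### the span -/

/-- `[g^s] ψ_e e(g)^n` -/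
def Wf (e : ℕ) (n s : ℤ) : ℚ := if 0 ≤ n then co s (psG e * eG ^ n.toNat) else 0

theorem Wf_succ (e : ℕ) {n : ℤ} (hn : 0 ≤ n) (s : ℤ) :
    Wf e (n + 1) s = Wf e n s + 250 * Wf e n (s - 1) + 3125 * Wf e n (s - 2) := by
  unfold Wf
  rw [if_pos (by omega), if_pos hn, if_pos hn, if_pos hn]
  have h1 : (n + 1).toNat = n.toNat + 1 := by omega
  have h2 : psG e * eG ^ (n.toNat + 1) = psG e * eG ^ n.toNat +
      C (250 : ℚ) * (X ^ 1 * (psG e * eG ^ n.toNat)) +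
      C (3125 : ℚ) * (X ^ 2 * (psG e * eG ^ n.toNat)) := by
    rw [pow_succ]
    nth_rewrite 2 [eG]
    ring
  rw [h1, h2, co_add, co_add, co_C_mul, co_C_mul, co_X_pow_mul, co_X_pow_mul]
  push_cast
  ring

/-- the span of the shifted functions -/
def Sp (e : ℕ) (N K : ℤ) : Submodule ℚ (ℤ → ℚ) := Submodule.span ℚ
  {f | ∃ k : ℤ, K ≤ k ∧ 3 * k ≤ N ∧ f = fun s => Wf e (N - 3 * k) (s - k)}

theorem Sp_mono (e : ℕ) (N : ℤ) {K K' : ℤ} (h : K' ≤ K) : Sp e N K ≤ Sp e N K' := by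
  refine Submodule.span_mono ?_
  rintro f ⟨k, h1, h2, rfl⟩
  exact ⟨k, h.trans h1, h2, rfl⟩

theorem Sp_gen (e : ℕ) {N K k : ℤ} (h1 : K ≤ k) (h2 : 3 * k ≤ N) :
    (fun s => Wf e (N - 3 * k) (s - k)) ∈ Sp e N K :=
  Submodule.subset_span ⟨k, h1, h2, rfl⟩

theorem Sp_shift (e : ℕ) {N K : ℤ} (m : ℤ) {f : ℤ → ℚ} (hf : f ∈ Sp e N K) :
    (fun s => f (s - m)) ∈ Sp e (N + 3 * m) (K + m) := by
  have h : Sp e N K ≤ (Sp e (N + 3 * m) (K + m)).comap
      (LinearMap.funLeft ℚ ℚ (fun s : ℤ => s - m)) := by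
    refine Submodule.span_le.2 ?_
    rintro f ⟨k, h1, h2, rfl⟩
    rw [SetLike.mem_coe, Submodule.mem_comap]
    have h3 := Sp_gen e (N := N + 3 * m) (K := K + m) (k := k + m) (by omega) (by omega)
    refine (congrArg (fun F => F ∈ Sp e (N + 3 * m) (K + m)) ?_).mp h3
    funext s
    show Wf e (N + 3 * m - 3 * (k + m)) (s - (k + m)) = Wf e (N - 3 * k) (s - m - k)
    congr 1 <;> ring
  exact h hf

/-- multiplication by `e(g)` -/
def eOp : (ℤ → ℚ) →ₗ[ℚ] (ℤ → ℚ) := LinearMap.id +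
  (250 : ℚ) • LinearMap.funLeft ℚ ℚ (fun s : ℤ => s - 1) +
  (3125 : ℚ) • LinearMap.funLeft ℚ ℚ (fun s : ℤ => s - 2)

theorem eOp_apply (f : ℤ → ℚ) (s : ℤ) : eOp f s = f s + 250 * f (s - 1) + 3125 * f (s - 2) := rfl

theorem Sp_eOp (e : ℕ) {N K : ℤ} {f : ℤ → ℚ} (hf : f ∈ Sp e N K) :
    eOp f ∈ Sp e (N + 1) K := by
  have h : Sp e N K ≤ (Sp e (N + 1) K).comap eOp := by
    refine Submodule.span_le.2 ?_
    rintro f ⟨k, h1, h2, rfl⟩
    rw [SetLike.mem_coe, Submodule.mem_comap]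
    have h3 := Sp_gen e (N := N + 1) (K := K) (k := k) h1 (by omega)
    refine (congrArg (fun F => F ∈ Sp e (N + 1) K) ?_).mp h3
    funext s
    rw [eOp_apply]
    have h4 : N + 1 - 3 * k = N - 3 * k + 1 := by ring
    rw [h4, Wf_succ e (by omega)]
    have h5 : s - k - 1 = s - 1 - k := by ring
    have h6 : s - k - 2 = s - 2 - k := by ring
    rw [h5, h6]
  exact h hf

/-- the lower bound of the exponents -/
def kap (e : ℕ) (N : ℤ) : ℤ := if 0 ≤ N then 0 else -((-(2 * N) - 2 * e) / 5)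

theorem V_rec_fun (e : ℕ) (N : ℤ) : V e (N + 6) = eOp (V e (N + 5)) -
    (250 : ℚ) • (fun s => V e (N + 3) (s - 1)) - (3125 : ℚ) • (fun s => V e N (s - 2)) := by
  funext s
  rw [V_rec]
  rfl

theorem mem_of_fun {e : ℕ} {N K : ℤ} {f g : ℤ → ℚ} (h : g ∈ Sp e N K) (hfg : f = g) :
    f ∈ Sp e N K := hfg ▸ h

theorem V_up {e : ℕ} (he : e ≤ 1) {N : ℤ} (hN : 1 ≤ N) (h1 : V e (N - 1) ∈ Sp e (N - 1) (kap e (N - 1)))
    (h3 : V e (N - 3) ∈ Sp e (N - 3) (kap e (N - 3)))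
    (h6 : V e (N - 6) ∈ Sp e (N - 6) (kap e (N - 6))) : V e N ∈ Sp e N (kap e N) := by
  have hrec := V_rec_fun e (N - 6)
  have e1 : N - 6 + 6 = N := by ring
  have e2 : N - 6 + 5 = N - 1 := by ring
  have e3 : N - 6 + 3 = N - 3 := by ring
  rw [e1, e2, e3] at hrec
  rw [hrec]
  have hk : kap e N = 0 := if_pos (by omega)
  rw [hk]
  refine Submodule.sub_mem _ (Submodule.sub_mem _ ?_ (Submodule.smul_mem _ _ ?_))
    (Submodule.smul_mem _ _ ?_)
  · have h := Sp_mono e _ (show (0 : ℤ) ≤ kap e (N - 1) by unfold kap; rw [if_pos (by omega)])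
      (Sp_eOp e h1)
    rwa [sub_add_cancel] at h
  · have h := Sp_mono e _ (show (0 : ℤ) ≤ kap e (N - 3) + 1 by unfold kap; split_ifs <;> omega)
      (Sp_shift e 1 h3)
    have e4 : N - 3 + 3 * 1 = N := by ring
    rwa [e4] at h
  · have h := Sp_mono e _ (show (0 : ℤ) ≤ kap e (N - 6) + 2 by unfold kap; split_ifs <;> omega)
      (Sp_shift e 2 h6)
    have e4 : N - 6 + 3 * 2 = N := by ring
    rwa [e4] at h

theorem V_down {e : ℕ} (he : e ≤ 1) {N : ℤ} (hN : N ≤ -6)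
    (h6 : V e (N + 6) ∈ Sp e (N + 6) (kap e (N + 6)))
    (h5 : V e (N + 5) ∈ Sp e (N + 5) (kap e (N + 5)))
    (h3 : V e (N + 3) ∈ Sp e (N + 3) (kap e (N + 3))) : V e N ∈ Sp e N (kap e N) := by
  have hV : V e N = (1 / 3125 : ℚ) • ((fun s => eOp (V e (N + 5)) (s - (-2))) -
      (250 : ℚ) • (fun s => V e (N + 3) (s - (-1))) - (fun s => V e (N + 6) (s - (-2)))) := by
    funext s
    have h := V_rec e N (s + 2)
    have a1 : s + 2 - 1 = s + 1 := by ring
    have a2 : s + 2 - 2 = s := by ring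
    rw [a1, a2] at h
    simp only [Pi.smul_apply, Pi.sub_apply, smul_eq_mul, sub_neg_eq_add, eOp_apply]
    rw [a1, a2]
    linarith
  rw [hV]
  refine Submodule.smul_mem _ _ (Submodule.sub_mem _ (Submodule.sub_mem _ ?_
    (Submodule.smul_mem _ _ ?_)) ?_)
  · have h := Sp_mono e _ (show kap e N ≤ kap e (N + 5) + (-2) by
      unfold kap; split_ifs <;> omega) (Sp_shift e (-2) (Sp_eOp e h5))
    have e4 : N + 5 + 1 + 3 * (-2) = N := by ring
    rwa [e4] at h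
  · have h := Sp_mono e _ (show kap e N ≤ kap e (N + 3) + (-1) by
      unfold kap; split_ifs <;> omega) (Sp_shift e (-1) h3)
    have e4 : N + 3 + 3 * (-1) = N := by ring
    rwa [e4] at h
  · have h := Sp_mono e _ (show kap e N ≤ kap e (N + 6) + (-2) by
      unfold kap; split_ifs <;> omega) (Sp_shift e (-2) h6)
    have e4 : N + 6 + 3 * (-2) = N := by ring
    rwa [e4] at h

theorem Wf_zero_zero (s : ℤ) : Wf 0 0 s = if s = 0 then 1 else 0 := by
  unfold Wf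
  rw [if_pos le_rfl]
  have h : psG 0 * eG ^ (0 : ℤ).toNat = 1 := by simp [psG]
  rw [h]
  unfold co
  by_cases h0 : 0 ≤ s
  · rw [if_pos h0, coeff_one]
    by_cases h1 : s = 0
    · rw [if_pos h1, if_pos (by omega)]
    · rw [if_neg h1, if_neg (by omega)]
  · rw [if_neg h0, if_neg (by omega)]

theorem zero_mem_V {e : ℕ} {N K : ℤ} (h : ∀ s, V e N s = 0) : V e N ∈ Sp e N K := by
  have : V e N = 0 := funext h
  rw [this]
  exact Submodule.zero_mem _

theorem base0_0 : V 0 0 ∈ Sp 0 0 (kap 0 0) := by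
  have h := Submodule.smul_mem _ (6 : ℚ) (Sp_gen 0 (N := 0) (K := kap 0 0) (k := 0)
    (by unfold kap; norm_num) (by norm_num))
  refine mem_of_fun h ?_
  funext s
  simp only [Pi.smul_apply, smul_eq_mul, mul_zero, sub_zero, Wf_zero_zero, V00]
  split_ifs <;> norm_num

theorem base0_3 : V 0 (-3) ∈ Sp 0 (-3) (kap 0 (-3)) := by
  have h := Submodule.smul_mem _ (-6 / 25 : ℚ) (Sp_gen 0 (N := -3) (K := kap 0 (-3)) (k := -1)
    (by unfold kap; norm_num) (by norm_num))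
  refine mem_of_fun h ?_
  funext s
  have e1 : (-3 : ℤ) - 3 * (-1) = 0 := by norm_num
  simp only [Pi.smul_apply, smul_eq_mul, e1, Wf_zero_zero, V03]
  by_cases hs : s = -1
  · rw [if_pos hs, if_pos (by omega)]; norm_num
  · rw [if_neg hs, if_neg (by omega)]; norm_num

theorem base0_5 : V 0 (-5) ∈ Sp 0 (-5) (kap 0 (-5)) := by
  have h := Submodule.smul_mem _ (1 / 625 : ℚ) (Sp_gen 0 (N := -5) (K := kap 0 (-5)) (k := -2)
    (by unfold kap; norm_num) (by norm_num))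
  refine mem_of_fun h ?_
  funext s
  have e1 : (-5 : ℤ) - 3 * (-2) = 0 + 1 := by norm_num
  simp only [Pi.smul_apply, smul_eq_mul, e1, Wf_succ 0 le_rfl, Wf_zero_zero, V05]
  by_cases h1 : s = -2
  · subst h1; norm_num
  · by_cases h2 : s = -1
    · subst h2; norm_num
    · by_cases h3 : s = 0
      · subst h3; norm_num
      · rw [if_neg h1, if_neg h2, if_neg h3, if_neg (by omega), if_neg (by omega),
          if_neg (by omega)]
        norm_num

theorem base1_0 : V 1 0 ∈ Sp 1 0 (kap 1 0) := by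
  have h := Sp_gen 1 (N := 0) (K := kap 1 0) (k := 0) (by unfold kap; norm_num) (by norm_num)
  refine mem_of_fun h ?_
  funext s
  simp only [mul_zero, sub_zero, V10]
  unfold Wf
  rw [if_pos le_rfl]
  have h : psG 1 * eG ^ (0 : ℤ).toNat = 1 - C (500 : ℚ) * X - C (15625 : ℚ) * X ^ 2 := by
    simp [psG]
  rw [h]
  unfold co
  by_cases h0 : 0 ≤ s
  · obtain ⟨n, rfl⟩ := Int.eq_ofNat_of_zero_le h0
    rw [if_pos h0, Int.toNat_natCast]
    simp only [map_sub, coeff_one, coeff_C_mul, coeff_X, coeff_X_pow]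
    rcases n with _ | _ | _ | n
    · norm_num
    · norm_num
    · norm_num
    · rw [if_neg (by push_cast; omega), if_neg (by push_cast; omega),
        if_neg (by push_cast; omega), if_neg (by omega), if_neg (by omega), if_neg (by omega)]
      norm_num
  · rw [if_neg h0, if_neg (by omega), if_neg (by omega), if_neg (by omega)]

theorem V_base {e : ℕ} (he : e ≤ 1) {N : ℤ} (h1 : -5 ≤ N) (h2 : N ≤ 0) :
    V e N ∈ Sp e N (kap e N) := by
  have hN : N = 0 ∨ N = -1 ∨ N = -2 ∨ N = -3 ∨ N = -4 ∨ N = -5 := by omega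
  have he' : e = 0 ∨ e = 1 := by omega
  rcases he' with rfl | rfl <;> rcases hN with rfl | rfl | rfl | rfl | rfl | rfl
  · exact base0_0
  · exact zero_mem_V V01
  · exact zero_mem_V V02
  · exact base0_3
  · exact zero_mem_V V04
  · exact base0_5
  · exact base1_0
  · exact zero_mem_V V11
  · exact zero_mem_V V12
  · exact zero_mem_V V13
  · exact zero_mem_V V14
  · exact zero_mem_V V15

theorem V_mem_up {e : ℕ} (he : e ≤ 1) (n : ℕ) : ∀ N : ℤ, -5 ≤ N → N ≤ n →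
    V e N ∈ Sp e N (kap e N) := by
  induction n with
  | zero => exact fun N h1 h2 => V_base he h1 (by simpa using h2)
  | succ n ih =>
    intro N h1 h2
    by_cases h3 : N ≤ n
    · exact ih N h1 h3
    · refine V_up he (by push_cast at h2; omega) (ih _ ?_ ?_) (ih _ ?_ ?_) (ih _ ?_ ?_) <;>
        push_cast at h2 <;> omega

theorem V_mem_down {e : ℕ} (he : e ≤ 1) (n : ℕ) : ∀ N : ℤ, -5 - n ≤ N → N ≤ 0 →
    V e N ∈ Sp e N (kap e N) := by
  induction n with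
  | zero => exact fun N h1 h2 => V_base he (by simpa using h1) h2
  | succ n ih =>
    intro N h1 h2
    by_cases h3 : -5 - (n : ℤ) ≤ N
    · exact ih N h3 h2
    · refine V_down he (by push_cast at h1; omega) (ih _ ?_ ?_) (ih _ ?_ ?_) (ih _ ?_ ?_) <;>
        push_cast at h1 <;> omega

theorem V_mem {e : ℕ} (he : e ≤ 1) (N : ℤ) : V e N ∈ Sp e N (kap e N) := by
  rcases le_total N 0 with h | h
  · exact V_mem_down he (-N).toNat N (by omega) h
  · exact V_mem_up he N.toNat N (by omega) (by omega)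

/-- from the span to the coefficients -/
theorem Sp_coeff {e b i' : ℕ} {K : ℤ} (hK : 1 ≤ K + i') {f : ℤ → ℚ}
    (hf : f ∈ Sp e ((b : ℤ) - 3 * i') K) : ∃ c : ℕ → ℚ, ∀ i : ℕ,
      f ((i : ℤ) - i') = ∑ l ∈ Finset.Icc 1 (b / 3), c l * coeff i (xG e b l) := by
  refine Submodule.span_induction (p := fun f _ => ∃ c : ℕ → ℚ, ∀ i : ℕ,
      f ((i : ℤ) - i') = ∑ l ∈ Finset.Icc 1 (b / 3), c l * coeff i (xG e b l)) ?_ ?_ ?_ ?_ hf
  · rintro f ⟨k, h1, h2, rfl⟩
    obtain ⟨l, hl⟩ := Int.eq_ofNat_of_zero_le (show 0 ≤ k + i' by omega)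
    have hl1 : 1 ≤ l := by omega
    have hl2 : 3 * l ≤ b := by omega
    refine ⟨fun j => if j = l then 1 else 0, fun i => ?_⟩
    rw [Finset.sum_eq_single l]
    · simp only [if_true, one_mul]
      show Wf e ((b : ℤ) - 3 * i' - 3 * k) ((i : ℤ) - i' - k) = _
      have e1 : (b : ℤ) - 3 * i' - 3 * k = ((b - 3 * l : ℕ) : ℤ) := by omega
      have e2 : (i : ℤ) - i' - k = (i : ℤ) - l := by omega
      rw [e1, e2]
      unfold Wf xG
      rw [if_pos (by omega), Int.toNat_natCast, mul_comm _ (X ^ l), ← co_X_pow_mul, co_nat]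
    · intro j _ hj
      simp only [if_neg hj, zero_mul]
    · intro hj
      exact absurd (Finset.mem_Icc.2 ⟨hl1, by omega⟩) hj
  · exact ⟨fun _ => 0, fun i => by simp⟩
  · rintro f g - - ⟨c, hc⟩ ⟨d, hd⟩
    refine ⟨fun j => c j + d j, fun i => ?_⟩
    rw [Pi.add_apply, hc, hd, ← Finset.sum_add_distrib]
    exact Finset.sum_congr rfl fun l _ => by ring
  · rintro r f - ⟨c, hc⟩
    refine ⟨fun j => r * c j, fun i => ?_⟩
    rw [Pi.smul_apply, hc, smul_eq_mul, Finset.mul_sum]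
    exact Finset.sum_congr rfl fun l _ => by ring

end Im

/-- **J1**: the image of `T` is in the span of the `x_l`. -/
theorem spIm : SpIm := by
  intro e a he ha i' hi' hi2
  by_cases hea : e ≤ a
  · have hb : ((a : ℤ) - e - 3 * i') = (((a - e : ℕ) : ℤ) - 3 * i') := by omega
    have h := Im.V_mem he (((a - e : ℕ) : ℤ) - 3 * i')
    obtain ⟨c, hc⟩ := Im.Sp_coeff (e := e) (b := a - e) (i' := i') (by
      unfold Im.kap
      split_ifs <;> omega) h
    refine ⟨c, fun i hi => ?_⟩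
    rw [Im.TQ_eq hi hi2, hb, hc]
  · omega

end GH.M5
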