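import Pool.Agent.GH.M5.Stm

/-!
# GH5-MAT, row D1: the leading minors are in `ℤ_5[5y]`
-/

open PowerSeries

noncomputable section

namespace GH.M5

open GH.D5 GH.CombU

/-- The ring `ℤ_5[5y]`. -/
def int5 : Subring Zy where
  carrier := {P | ∀ k, (5 : ℤ_[5]) ^ k ∣ P.coeff k}
  mul_mem' := by
    intro P Q hP hQ k
    rw [Polynomial.coeff_mul]
    apply Finset.dvd_sum
    intro x hx
    have h1 : x.1 + x.2 = k := Finset.HasAntidiagonal.mem_antidiagonal.1 hx
    rw [← h1, pow_add]
    exact mul_dvd_mul (hP x.1) (hQ x.2)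
  one_mem' := by
    intro k
    rw [Polynomial.coeff_one]
    split_ifs with h
    · rw [h, pow_zero]
    · exact dvd_zero _
  add_mem' := by
    intro P Q hP hQ k
    rw [Polynomial.coeff_add]
    exact dvd_add (hP k) (hQ k)
  zero_mem' := by
    intro k
    rw [Polynomial.coeff_zero]
    exact dvd_zero _
  neg_mem' := by
    intro P hP k
    rw [Polynomial.coeff_neg]
    exact (dvd_neg).2 (hP k)

theorem int5_mem {P : Zy} : P ∈ int5 ↔ ∀ k, (5 : ℤ_[5]) ^ k ∣ P.coeff k := Iff.rfl

theorem int5_det {n : ℕ} (M : Matrix (Fin n) (Fin n) Zy) (h : ∀ i j, M i j ∈ int5) :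
    M.det ∈ int5 := by
  rw [Matrix.det_apply]
  apply sum_mem
  intro s _
  rw [Units.smul_def]
  apply zsmul_mem
  apply prod_mem
  intro i _
  exact h _ _

theorem spInt (h : SpWN) : SpInt := by
  intro e n k he
  obtain ⟨W, N, hW0, -, hN, -, hM⟩ := h e he n
  have key : Pot.lead (PM e) n = (Matrix.of fun i j : Fin n ↦ N (i : ℕ) (j : ℕ)).det := by
    have h1 : (Matrix.of fun i j : Fin n ↦ PM e (i : ℕ) (j : ℕ)) =
        (Matrix.of fun i l : Fin n ↦ if (l : ℕ) ≤ i then W ((i : ℕ) - l) else 0) *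
          (Matrix.of fun i j : Fin n ↦ N (i : ℕ) (j : ℕ)) := by
      ext1 i j
      rw [Matrix.mul_apply]
      simp only [Matrix.of_apply]
      rw [hM i i.2 j, Fin.sum_univ_eq_sum_range (fun l ↦ (if l ≤ (i : ℕ) then W ((i : ℕ) - l)
        else 0) * N l (j : ℕ)) n]
      symm
      rw [← Finset.sum_subset (Finset.range_subset_range.2 (Nat.succ_le_of_lt i.2))]
      · apply Finset.sum_congr rfl
        intro l hl
        rw [if_pos (Nat.lt_succ_iff.1 (Finset.mem_range.1 hl))]
      · intro l _ hl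
        rw [if_neg (fun h ↦ hl (Finset.mem_range.2 (Nat.lt_succ_iff.2 h))), zero_mul]
    have h2 : (Matrix.of fun i l : Fin n ↦ if (l : ℕ) ≤ i then W ((i : ℕ) - l) else 0).det =
        1 := by
      rw [Matrix.det_of_lowerTriangular]
      · apply Finset.prod_eq_one
        intro i _
        rw [Matrix.of_apply, if_pos le_rfl, Nat.sub_self, hW0]
      · intro i j hij
        rw [Matrix.of_apply, if_neg]
        have h3 : i < j := hij
        exact not_le.2 h3
    unfold Pot.lead Pot.minor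
    rw [h1, Matrix.det_mul, h2, one_mul]
  rw [key]
  refine int5_mem.1 (int5_det _ (fun i j ↦ int5_mem.2 (fun k ↦ ?_))) k
  exact dvd_trans (pow_dvd_pow _ (le_max_right _ _)) (hN i j k)

end GH.M5
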