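import Pool.Agent.GH.M5.Stm

/-! # GH5-MAT, row J3: the rank decomposition -/

open PowerSeries

noncomputable section

namespace GH.M5

theorem j3_psG0 (e : ℕ) : coeff 0 (psG e) = 1 := by
  unfold psG
  split_ifs <;> simp

theorem j3_eG0 : coeff 0 eG = 1 := by
  unfold eG
  simp

theorem j3_lt {e b k i : ℕ} (h : i < k) : coeff i (xG e b k) = 0 := by
  unfold xG
  rw [coeff_mul_X_pow', if_neg (by omega)]

theorem j3_eq (e b k : ℕ) : coeff k (xG e b k) = 1 := by
  unfold xG
  rw [coeff_mul_X_pow', if_pos le_rfl, Nat.sub_self, coeff_zero_eq_constantCoeff_apply, map_mul,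
    map_pow, ← coeff_zero_eq_constantCoeff_apply, ← coeff_zero_eq_constantCoeff_apply, j3_psG0,
    j3_eG0, one_pow, mul_one]

theorem j3_sum (t : ℕ) (f : ℕ → ℚ) :
    ∑ l ∈ Finset.Icc 1 t, f l = ∑ l : Fin t, f (l + 1) := by
  rw [Fin.sum_univ_eq_sum_range (fun l => f (l + 1)) t, Finset.range_eq_Ico,
    Finset.sum_Ico_add' f 0 t 1, zero_add]
  congr 1

theorem j3_tri {t : ℕ} (x : ℕ → Fin t → ℚ) (z : Fin t → ℚ)
    (h0 : ∀ (i : ℕ) (l : Fin t), i < (l : ℕ) + 1 → x i l = 0)
    (h1 : ∀ l : Fin t, x ((l : ℕ) + 1) l = 1)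
    (h : ∀ i : ℕ, 1 ≤ i → ∑ l, x i l * z l = 0) : ∀ l, z l = 0 := by
  have key : ∀ n : ℕ, ∀ l : Fin t, (l : ℕ) < n → z l = 0 := by
    intro n
    induction n with
    | zero => intro l hl; omega
    | succ n ih =>
      intro l hl
      rcases Nat.lt_or_ge (l : ℕ) n with hn | hn
      · exact ih l hn
      · have hs := h ((l : ℕ) + 1) (by omega)
        rw [Finset.sum_eq_single l, h1, one_mul] at hs
        · exact hs
        · intro k _ hk
          rcases Nat.lt_or_ge (k : ℕ) (l : ℕ) with hkl | hkl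
          · rw [ih k (by omega), mul_zero]
          · have hne : (k : ℕ) ≠ (l : ℕ) := fun he => hk (Fin.ext he)
            rw [h0 _ k (by omega), zero_mul]
        · intro hnot
          exact absurd (Finset.mem_univ l) hnot
  intro l
  exact key t l l.2

theorem spJ (h1 : SpIm) (h2 : SpSix) : SpJ := by
  intro e a he ha
  classical
  have hc : ∀ i' : ℕ, ∃ c : ℕ → ℚ, (1 ≤ i' → i' < 2 * a → ∀ i : ℕ, 1 ≤ i →
      TQ e a i i' = ∑ l ∈ Finset.Icc 1 ((a - e) / 3), c l * coeff i (xG e (a - e) l)) := by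
    intro i'
    by_cases hi : 1 ≤ i' ∧ i' < 2 * a
    · obtain ⟨c, hc⟩ := h1 e a he ha i' hi.1 hi.2
      exact ⟨c, fun _ _ => hc⟩
    · exact ⟨fun _ => 0, fun g1 g2 => absurd ⟨g1, g2⟩ hi⟩
  choose c hc using hc
  have hT : ∀ i i' : ℕ, 1 ≤ i → 1 ≤ i' → i' < 2 * a →
      TQ e a i i' = ∑ l : Fin ((a - e) / 3), coeff i (xG e (a - e) (l + 1)) * c i' (l + 1) := by
    intro i i' hi hi' hi2
    rw [hc i' hi' hi2 i hi, j3_sum _ (fun l => c i' l * coeff i (xG e (a - e) l))]
    refine Finset.sum_congr rfl fun l _ => ?_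
    rw [mul_comm]
  refine ⟨fun i l => coeff i (xG e (a - e) (l + 1)), fun l i' => c i' (l + 1), hT, ?_⟩
  intro l l'
  have hz : ∀ l : Fin ((a - e) / 3),
      (∑ i' ∈ Finset.Icc 1 (2 * a - 1), c i' (l + 1) * coeff i' (xG e (a - e) (l' + 1))) -
        (if l = l' then 6 else 0) = 0 := by
    refine j3_tri (fun i (l : Fin ((a - e) / 3)) => coeff i (xG e (a - e) (l + 1))) _
      (fun i l hl => j3_lt hl) (fun l => j3_eq e (a - e) (l + 1)) ?_
    intro i hi
    have h3 := h2 e a (l' + 1) he ha (by omega) (by have := l'.2; omega) i hi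
    have h4 : ∑ i' ∈ Finset.Icc 1 (2 * a - 1),
        TQ e a i i' * coeff i' (xG e (a - e) (l' + 1)) =
        ∑ l : Fin ((a - e) / 3), coeff i (xG e (a - e) (l + 1)) *
          ∑ i' ∈ Finset.Icc 1 (2 * a - 1),
            c i' (l + 1) * coeff i' (xG e (a - e) (l' + 1)) := by
      have h5 : ∀ i' ∈ Finset.Icc 1 (2 * a - 1),
          TQ e a i i' * coeff i' (xG e (a - e) (l' + 1)) =
          ∑ l : Fin ((a - e) / 3), coeff i (xG e (a - e) (l + 1)) *
            (c i' (l + 1) * coeff i' (xG e (a - e) (l' + 1))) := by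
        intro i' hi'
        rw [Finset.mem_Icc] at hi'
        rw [hT i i' hi hi'.1 (by omega), Finset.sum_mul]
        refine Finset.sum_congr rfl fun l _ => ?_
        ring
      rw [Finset.sum_congr rfl h5, Finset.sum_comm]
      refine Finset.sum_congr rfl fun l _ => ?_
      rw [Finset.mul_sum]
    rw [h4] at h3
    have h6 : ∑ l : Fin ((a - e) / 3), coeff i (xG e (a - e) (l + 1)) *
        (if l = l' then (6 : ℚ) else 0) = 6 * coeff i (xG e (a - e) (l' + 1)) := by
      rw [Finset.sum_eq_single l']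
      · rw [if_pos rfl, mul_comm]
      · intro k _ hk
        rw [if_neg hk, mul_zero]
      · intro hnot
        exact absurd (Finset.mem_univ l') hnot
    simp only [mul_sub, Finset.sum_sub_distrib]
    rw [h3, h6, sub_self]
  exact sub_eq_zero.1 (hz l)

end GH.M5
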