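import Pool.Agent.GH.M5.Stm

/-!
# GH5-MAT, row D9: the leading minors

From the integrality, the zeros and one value of each leading minor.
-/

open Polynomial

noncomputable section

namespace GH.M5

open GH.D5 GH.CombU

/-- A polynomial with `5^k` dividing the `k`-th coefficient is `F(5y)`. -/
theorem ld_scale (L : Zy) (h : ∀ k, (5 : ℤ_[5]) ^ k ∣ L.coeff k) :
    ∃ F : Zy, L = F.comp (C 5 * X) := by
  choose c hc using h
  refine ⟨∑ k ∈ Finset.range (L.natDegree + 1), C (c k) * X ^ k, ?_⟩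
  rw [Polynomial.sum_comp]
  conv_lhs => rw [L.as_sum_range_C_mul_X_pow]
  refine Finset.sum_congr rfl fun k _ => ?_
  rw [mul_comp, C_comp, pow_comp, X_comp, mul_pow, hc k, C_mul, C_pow]
  ring

/-- The zeros of `F(5y)`, with multiplicity. -/
theorem ld_zero (F : Zy) (m T : ℕ)
    (h : (X - C ((m : ℕ) : ℚ_[5])) ^ T ∣
      (F.comp (C 5 * X)).map (PadicInt.Coe.ringHom (p := 5))) :
    (X - C ((5 * m : ℕ) : ℚ_[5])) ^ T ∣ F.map (PadicInt.Coe.ringHom (p := 5)) := by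
  have h5 : (5 : ℚ_[5]) ≠ 0 := by norm_num
  rw [map_comp, Polynomial.map_mul, map_C, map_X] at h
  have e5 : PadicInt.Coe.ringHom (p := 5) (5 : ℤ_[5]) = (5 : ℚ_[5]) := by
    rw [map_ofNat]
  rw [e5] at h
  obtain ⟨G, hG⟩ := h
  have h1 := congrArg (fun f : ℚ_[5][X] => f.comp (C (5 : ℚ_[5])⁻¹ * X)) hG
  simp only [mul_comp, pow_comp, sub_comp, X_comp, C_comp, comp_assoc] at h1
  rw [← mul_assoc, ← C_mul, mul_inv_cancel₀ h5, C_1, one_mul, comp_X] at h1
  rw [h1]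
  refine Dvd.dvd.mul_right ?_ _
  have h2 : (C (5 : ℚ_[5])⁻¹ * X - C ((m : ℕ) : ℚ_[5])) =
      C (5 : ℚ_[5])⁻¹ * (X - C ((5 * m : ℕ) : ℚ_[5])) := by
    rw [mul_sub, ← C_mul]
    congr 2
    push_cast
    field_simp
  rw [h2, mul_pow]
  exact Dvd.intro_left _ rfl

/-- `∏ (X - 5m)^T`. -/
def ldP (e n : ℕ) : Zy :=
  ∏ m ∈ Finset.range (Z5 n), (X - C ((5 * m : ℕ) : ℤ_[5])) ^ T5 e n m

theorem ldP_monic (e n : ℕ) : (ldP e n).Monic :=
  monic_prod_of_monic _ _ fun _ _ => (monic_X_sub_C _).pow _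

theorem ldP_dvd (h2 : SpVan) {e n : ℕ} (he : e ≤ 1) {F : Zy}
    (hF : Pot.lead (PM e) n = F.comp (C 5 * X)) : ldP e n ∣ F := by
  have hinj : Function.Injective (PadicInt.Coe.ringHom (p := 5)) := Subtype.coe_injective
  rw [← map_dvd_map _ hinj (ldP_monic e n)]
  have h1 : (ldP e n).map (PadicInt.Coe.ringHom (p := 5)) =
      ∏ m ∈ Finset.range (Z5 n), (X - C ((5 * m : ℕ) : ℚ_[5])) ^ T5 e n m := by
    rw [ldP, Polynomial.map_prod]
    refine Finset.prod_congr rfl fun m _ => ?_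
    rw [Polynomial.map_pow, Polynomial.map_sub, map_X, map_C, map_natCast]
  rw [h1]
  refine Finset.prod_dvd_of_coprime ?_ ?_
  · intro m _ m' _ hmm
    refine IsCoprime.pow ?_
    refine isCoprime_X_sub_C_of_isUnit_sub ?_
    rw [isUnit_iff_ne_zero, sub_ne_zero]
    intro h
    have h' : 5 * m = 5 * m' := by exact_mod_cast h
    omega
  · intro m _
    refine ld_zero F m _ ?_
    rw [← hF]
    exact h2 e n m he

theorem ldP_comp (h3 : SpSum) {e n : ℕ} (he : e ≤ 1) :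
    (ldP e n).comp (C 5 * X) = C ((5 : ℤ_[5]) ^ B5 e n) *
      ∏ m ∈ Finset.range (Z5 n), (X - C (m : ℤ_[5])) ^ T5 e n m := by
  rw [ldP, prod_comp, ← h3 e n he, ← Finset.prod_pow_eq_pow_sum, map_prod,
    ← Finset.prod_mul_distrib]
  refine Finset.prod_congr rfl fun m _ => ?_
  rw [pow_comp, sub_comp, X_comp, C_comp, C_pow, ← mul_pow, mul_sub, ← C_mul, Nat.cast_mul,
    Nat.cast_ofNat]

/-- The norm of a difference of two natural numbers. -/
theorem ld_norm {m0 m : ℕ} (h : m0 ≠ m) : ‖(m0 : ℤ_[5]) - (m : ℤ_[5])‖ =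
    (5 : ℝ) ^ (-(padicValInt 5 ((m0 : ℤ) - m) : ℤ)) := by
  have h1 : (m0 : ℤ_[5]) - (m : ℤ_[5]) = (((m0 : ℤ) - m : ℤ) : ℤ_[5]) := by push_cast; ring
  have h0 : (m0 : ℤ) - m ≠ 0 := by omega
  rw [h1, PadicInt.norm_def, PadicInt.coe_intCast]
  have h2 : ((((m0 : ℤ) - m : ℤ)) : ℚ_[5]) = (((((m0 : ℤ) - m : ℤ)) : ℚ) : ℚ_[5]) := by
    push_cast; ring
  rw [h2, Padic.eq_padicNorm, padicNorm.eq_zpow_of_nonzero (by exact_mod_cast h0),
    padicValRat.of_int]
  push_cast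
  rfl

/-- The value of the product at a point which is not a zero. -/
theorem ld_val {e n m0 : ℕ} (hT : T5 e n m0 = 0) (u : Zy) :
    ‖(C ((5 : ℤ_[5]) ^ B5 e n) * u *
      ∏ m ∈ Finset.range (Z5 n), (X - C (m : ℤ_[5])) ^ T5 e n m : Zy).eval (m0 : ℤ_[5])‖ =
      (5 : ℝ) ^ (-(FF e n m0 : ℤ)) * ‖u.eval (m0 : ℤ_[5])‖ := by
  have h1 : ∀ m ∈ Finset.range (Z5 n), ‖((m0 : ℤ_[5]) - (m : ℤ_[5])) ^ T5 e n m‖ =
      (5 : ℝ) ^ (-((T5 e n m * padicValInt 5 ((m0 : ℤ) - m) : ℕ) : ℤ)) := by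
    intro m _
    by_cases h : m0 = m
    · subst h
      rw [hT, pow_zero, zero_mul, norm_one]
      simp
    · rw [norm_pow, ld_norm h, ← zpow_natCast, ← zpow_mul]
      congr 1
      push_cast
      ring
  rw [eval_mul, eval_mul, eval_C, eval_prod, norm_mul, norm_mul, norm_prod]
  simp only [eval_pow, eval_sub, eval_X, eval_C]
  have h5 : ‖(5 : ℤ_[5])‖ = (5 : ℝ) ^ (-1 : ℤ) := by
    have := PadicInt.norm_p (p := 5)
    rw [Nat.cast_ofNat] at this
    rw [this, zpow_neg_one]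
    norm_num
  have h0 : (5 : ℝ) ≠ 0 := by norm_num
  have hp : ∀ (s : Finset ℕ) (f : ℕ → ℕ), ∏ m ∈ s, (5 : ℝ) ^ (-((f m : ℕ) : ℤ)) =
      (5 : ℝ) ^ (-((∑ m ∈ s, f m : ℕ) : ℤ)) := by
    intro s f
    simp only [zpow_neg, zpow_natCast]
    rw [Finset.prod_inv_distrib, Finset.prod_pow_eq_pow_sum]
  rw [Finset.prod_congr rfl h1, norm_pow, h5, hp, FF, ← zpow_natCast, ← zpow_mul, mul_right_comm,
    ← zpow_add₀ h0]
  congr 2
  push_cast
  ring

/-- `C 5 ∣ u - C (u₀)`: all values of `u` are congruent to `u₀`. -/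
theorem ld_unit_val {u : Zy} {z : ℤ_[5]} (h : C ((5 : ℕ) : ℤ_[5]) ∣ u - C z) (x : ℤ_[5]) :
    IsUnit z ↔ ‖u.eval x‖ = 1 := by
  obtain ⟨r, hr⟩ := h
  have h1 : u.eval x = z + 5 * r.eval x := by
    have h2 := congrArg (fun f : Zy => f.eval x) hr
    simp only [eval_sub, eval_mul, eval_C, Nat.cast_ofNat] at h2
    rw [← h2]
    ring
  rw [← PadicInt.isUnit_iff, h1]
  have h3 : (5 : ℤ_[5]) * r.eval x ∈ IsLocalRing.maximalIdeal ℤ_[5] := by
    refine Ideal.mul_mem_right _ _ ?_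
    have h4 := PadicInt.p_nonunit (p := 5)
    rw [Nat.cast_ofNat] at h4
    exact (IsLocalRing.mem_maximalIdeal _).2 h4
  constructor
  · intro hz
    by_contra h5
    have h6 : z + 5 * r.eval x ∈ IsLocalRing.maximalIdeal ℤ_[5] := h5
    have h7 := (Ideal.add_mem_iff_left _ h3).1 h6
    exact h7 hz
  · intro hz
    by_contra h5
    have h6 : z ∈ IsLocalRing.maximalIdeal ℤ_[5] := h5
    exact (Ideal.add_mem_iff_left _ h3).2 h6 hz

/-- The leading minor from one value. -/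
theorem ld_of (h1 : SpInt) (h2 : SpVan) (h3 : SpSum) {e : ℕ} (he : e ≤ 1) {n m0 : ℕ}
    (hT : T5 e n m0 = 0)
    (hv : ‖(Pot.lead (PM e) n).eval (m0 : ℤ_[5])‖ = (5 : ℝ) ^ (-(FF e n m0 : ℤ))) :
    ∃ (u : Zy) (z : (ℤ_[5])ˣ),
      Polynomial.C ((5 : ℕ) : ℤ_[5]) ∣ u - Polynomial.C (z : ℤ_[5]) ∧
        Pot.lead (PM e) n = Polynomial.C (((5 : ℕ) : ℤ_[5]) ^ B5 e n) * u *
          ∏ m ∈ Finset.range (Z5 n), (Polynomial.X - Polynomial.C (m : ℤ_[5])) ^ T5 e n m := by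
  obtain ⟨F, hF⟩ := ld_scale (Pot.lead (PM e) n) fun k => h1 e n k he
  obtain ⟨E, hE⟩ := ldP_dvd h2 he hF
  have hL : Pot.lead (PM e) n = C ((5 : ℤ_[5]) ^ B5 e n) * E.comp (C 5 * X) *
      ∏ m ∈ Finset.range (Z5 n), (X - C (m : ℤ_[5])) ^ T5 e n m := by
    rw [hF, hE, mul_comp, ldP_comp h3 he]
    ring
  have hd : C ((5 : ℕ) : ℤ_[5]) ∣ E.comp (C 5 * X) - C (E.coeff 0) := by
    refine ⟨X * E.divX.comp (C 5 * X), ?_⟩
    conv_lhs => rw [← divX_mul_X_add E]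
    rw [add_comp, mul_comp, X_comp, C_comp, coeff_add, mul_coeff_zero, coeff_X_zero, mul_zero,
      zero_add, coeff_C_zero, Nat.cast_ofNat]
    ring
  have hn : ‖(E.comp (C 5 * X)).eval (m0 : ℤ_[5])‖ = 1 := by
    rw [hL, ld_val hT] at hv
    have h0 : (5 : ℝ) ^ (-(FF e n m0 : ℤ)) ≠ 0 := by positivity
    exact mul_left_cancel₀ h0 (by rw [hv, mul_one])
  have hu := (ld_unit_val hd _).2 hn
  refine ⟨E.comp (C 5 * X), hu.unit, ?_, ?_⟩
  · rw [IsUnit.unit_spec]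
    exact hd
  · rw [Nat.cast_ofNat]
    exact hL

/-- The valuations of the small numbers. -/
theorem ld_v {m : ℕ} (hm : m < 25) : padicValInt 5 (((0 : ℕ) : ℤ) - m) =
    if m ≠ 0 ∧ 5 ∣ m then 1 else 0 := by
  rw [padicValInt]
  have h : ((((0 : ℕ) : ℤ) - m)).natAbs = m := by omega
  rw [h]
  by_cases h0 : m = 0
  · subst h0
    simp
  · by_cases h5 : 5 ∣ m
    · rw [if_pos ⟨h0, h5⟩]
      have h6 : padicValNat 5 m < 2 := by
        by_contra hc
        have h7 : 5 ^ 2 ∣ m := (padicValNat_dvd_iff_le h0).2 (by omega)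
        have := Nat.le_of_dvd (by omega) h7
        omega
      have h8 := (padicValNat_dvd_iff_le (p := 5) (n := 1) h0).1 (by simpa using h5)
      omega
    · rw [if_neg (by tauto)]
      exact padicValNat.eq_zero_of_not_dvd h5

/-- The ghost number at `0` for small `n`. -/
theorem ld_FF {e n : ℕ} (hn : n ≤ 4) : FF e n 0 =
    B5 e n + ∑ m ∈ Finset.range (Z5 n), T5 e n m * if m ≠ 0 ∧ 5 ∣ m then 1 else 0 := by
  rw [FF]
  congr 1
  refine Finset.sum_congr rfl fun m hm => ?_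
  rw [Finset.mem_range, Z5] at hm
  by_cases h : m < 25
  · rw [ld_v h]
  · have h1 : m = 25 := by omega
    have h2 : T5 e n m = 0 := by
      rw [T5, if_neg (by omega)]
    rw [h2, zero_mul, zero_mul]

/-- D9: the leading minors. -/
theorem spLead (h1 : SpInt) (h2 : SpVan) (h3 : SpSum) (h4 : SpDetOdd) (h5 : SpDetEven)
    (h6 : SpSmall) (h7 : SpFOdd) (h8 : SpFEven) : SpLead := by
  intro e he
  -- odd `n`
  have hodd : ∀ n, Odd n → ∃ (u : Zy) (z : (ℤ_[5])ˣ),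
      Polynomial.C ((5 : ℕ) : ℤ_[5]) ∣ u - Polynomial.C (z : ℤ_[5]) ∧
        Pot.lead (PM e) n = Polynomial.C (((5 : ℕ) : ℤ_[5]) ^ B5 e n) * u *
          ∏ m ∈ Finset.range (Z5 n),
            (Polynomial.X - Polynomial.C (m : ℤ_[5])) ^ T5 e n m := by
    intro n hn
    refine ld_of h1 h2 h3 he (m0 := n + 1) ?_ ?_
    · unfold T5
      split_ifs <;> omega
    · rw [h4 e n he hn, h7 e n he hn]
  intro n
  rcases Nat.even_or_odd n with hn | hn
  swap
  · exact hodd n hn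
  by_cases ht : 1 ≤ t5 e (n + 2)
  · refine ld_of h1 h2 h3 he (m0 := n + 2) ?_ ?_
    · unfold T5
      split_ifs <;> omega
    · obtain ⟨u, z, hu, hl⟩ := hodd 1 odd_one
      have hl1 : Pot.lead (PM e) 1 = PM e 0 0 := by
        rw [Pot.lead, Pot.minor, Matrix.det_fin_one]
        rfl
      have hT : T5 e 1 (n + 2) = 0 := by
        unfold T5
        split_ifs <;> omega
      have hv := ld_val hT u
      rw [Nat.cast_ofNat] at hl
      rw [← hl, hl1, (ld_unit_val hu _).1 z.isUnit, mul_one] at hv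
      rw [h5 e n he hn ht, h8 e n he hn ht, hv, ← zpow_add₀ (by norm_num)]
      congr 1
      push_cast
      ring
  · have hT0 : T5 e n 0 = 0 := by
      unfold T5
      split_ifs <;> omega
    refine ld_of h1 h2 h3 he (m0 := 0) hT0 ?_
    rw [Nat.cast_zero]
    obtain ⟨a, rfl⟩ := hn
    have hcase : a = 0 ∨ (e = 0 ∧ a = 1) ∨ (e = 1 ∧ a = 1) ∨ (e = 1 ∧ a = 2) := by
      unfold t5 at ht
      omega
    rcases hcase with rfl | ⟨rfl, rfl⟩ | ⟨rfl, rfl⟩ | ⟨rfl, rfl⟩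
    · have hF : FF e 0 0 = 0 := by
        rw [FF]
        have : ∀ m ∈ Finset.range (Z5 0), T5 e 0 m * padicValInt 5 (((0 : ℕ) : ℤ) - m) = 0 := by
          intro m _
          have : T5 e 0 m = 0 := by
            unfold T5
            split_ifs <;> omega
          rw [this, zero_mul]
        rw [Finset.sum_eq_zero this, B5, Finset.sum_range_zero, add_zero]
      rw [show (0 + 0 : ℕ) = 0 from rfl, hF, Pot.lead, Pot.minor, Matrix.det_fin_zero, eval_one,
        norm_one]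
      simp
    · have hF : FF 0 2 0 = 5 := by
        rw [ld_FF (by norm_num)]
        decide
      rw [show (1 + 1 : ℕ) = 2 from rfl, hF]
      exact h6.1
    · have hF : FF 1 2 0 = 7 := by
        rw [ld_FF (by norm_num)]
        decide
      rw [show (1 + 1 : ℕ) = 2 from rfl, hF]
      exact h6.2.1
    · have hF : FF 1 4 0 = 22 := by
        rw [ld_FF (by norm_num)]
        decide
      rw [show (2 + 2 : ℕ) = 4 from rfl, hF]
      exact h6.2.2

end GH.M5
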