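import Pool.Agent.GH.M5.Stm
import Pool.Agent.GH.Cen3.NPr
import Pool.Agent.GH.Pot.WFinal
import Pool.Agent.GH.CombU.P5

/-!
# GH5-MAT, row F3: the Newton polygon
-/

open Filter Topology

noncomputable section

namespace GH.M5

open GH.D5 GH.CombU

private theorem f3_norm_iota (a : ℤ_[5]) : ‖iota5 a‖ = ‖a‖ := by
  change ‖algebraMap ℚ_[5] C5 (a : ℚ_[5])‖ = ‖a‖
  rw [norm_algebraMap']
  rfl

private theorem f3_norm_five : ‖iota5 (5 : ℤ_[5])‖ = 1 / 5 := by
  have h : ‖((5 : ℕ) : ℤ_[5])‖ = 1 / 5 := by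
    rw [PadicInt.norm_p]
    norm_num
  rw [f3_norm_iota]
  exact_mod_cast h

private theorem f3_minor {S K : Type*} [CommRing S] [CommRing K] (φ : S →+* K) (y : K)
    (M : ℕ → ℕ → Polynomial S) {n : ℕ} (a b : Fin n → ℕ) :
    (Pot.minor M a b).eval₂ φ y =
      (Matrix.of fun i j ↦ (M (a i) (b j)).eval₂ φ y).det := by
  unfold Pot.minor
  rw [← Polynomial.coe_eval₂RingHom, RingHom.map_det]
  rfl

private theorem f3_eval_le (Q : Zy) {y : C5} (hy : ‖y‖ ≤ 1) : ‖Q.eval₂ iota5 y‖ ≤ 1 := by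
  rw [Polynomial.eval₂_eq_sum_range]
  refine ud_sum_le _ _ zero_le_one fun i _ ↦ ?_
  rw [norm_mul, norm_pow, f3_norm_iota]
  exact mul_le_one₀ (PadicInt.norm_le_one _) (by positivity) (pow_le_one₀ (norm_nonneg _) hy)

/-- diagonal change of basis with arbitrary weights -/
private theorem f3_scale {K : Type*} [Field K] (C C' : ℕ → ℕ → K) (r : ℕ → K)
    (hr : ∀ i, r i ≠ 0)
    (h : ∀ i j, C (i + 1) (j + 1) = r i * C' (i + 1) (j + 1) * (r j)⁻¹) (N m : ℕ) :
    fredBlock C N m = fredBlock C' N m := by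
  unfold fredBlock Matrix.charpolyRev
  set P : Matrix (Fin N) (Fin N) (Polynomial K) :=
    Matrix.diagonal fun i ↦ Polynomial.C (r i) with hP
  set Q : Matrix (Fin N) (Fin N) (Polynomial K) :=
    Matrix.diagonal fun i ↦ Polynomial.C ((r i)⁻¹) with hQ
  have hPQ : P * Q = 1 := by
    rw [hP, hQ, Matrix.diagonal_mul_diagonal, ← Matrix.diagonal_one]
    congr 1
    funext i
    rw [← Polynomial.C_mul, mul_inv_cancel₀ (hr i), Polynomial.C_1]
  have hdet : P.det * Q.det = 1 := by rw [← Matrix.det_mul, hPQ, Matrix.det_one]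
  have hM : (1 - (Polynomial.X : Polynomial K) •
      (Matrix.of fun i j : Fin N ↦ C (i + 1) (j + 1)).map Polynomial.C) =
      P * (1 - (Polynomial.X : Polynomial K) •
      (Matrix.of fun i j : Fin N ↦ C' (i + 1) (j + 1)).map Polynomial.C) * Q := by
    rw [mul_sub, sub_mul, mul_one, hPQ]
    congr 1
    ext1 i j
    simp only [hP, hQ, Matrix.mul_smul, Matrix.smul_apply,
      Matrix.mul_diagonal, Matrix.diagonal_mul, Matrix.map_apply, Matrix.of_apply, smul_eq_mul,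
      ← Polynomial.C_mul, h, mul_assoc]
  rw [hM, Matrix.det_mul, Matrix.det_mul, mul_right_comm, hdet, one_mul]

theorem spNP (hM : SpMatW) (hE : SpEval) (hp : SpPS) (hpr : SpPrin) (hs : SpStrict) : SpNP := by
  intro e y he hy
  have hφ : ∀ z : ℤ_[5], ‖iota5 z‖ = ‖z‖ := f3_norm_iota
  have h5 : iota5 (5 : ℤ_[5]) ≠ 0 := by
    intro h
    have h1 := f3_norm_five
    rw [h, norm_zero] at h1
    norm_num at h1
  -- the scaled matrix
  set C : ℕ → ℕ → C5 := fun i j ↦ (PS e (i - 1) (j - 1)).eval₂ iota5 y with hC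
  have hC1 : ∀ i j, C (i + 1) (j + 1) = (PS e i j).eval₂ iota5 y := by
    intro i j
    rw [hC]
    simp only [Nat.add_sub_cancel]
  have hfred : fred (Mat5 e y) = fred C := by
    funext m
    unfold fred
    congr 1
    funext N
    refine f3_scale (Mat5 e y) C (fun i ↦ iota5 5 ^ gg i) (fun i ↦ pow_ne_zero _ h5) ?_ N m
    intro i j
    have h1 : (Polynomial.C ((5 : ℤ_[5]) ^ gg i) * PS e i j).eval₂ iota5 y =
        (Polynomial.C ((5 : ℤ_[5]) ^ gg j) * PM e i j).eval₂ iota5 y := by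
      rw [(hp e i j he).1]
    rw [Polynomial.eval₂_mul, Polynomial.eval₂_mul, Polynomial.eval₂_C, Polynomial.eval₂_C,
      map_pow, map_pow] at h1
    rw [hC1, h1, hE e y i j he, mul_comm (iota5 5 ^ gg j), mul_assoc,
      mul_inv_cancel₀ (pow_ne_zero _ h5), mul_one]
  -- the columns
  have hcpt : Cpt (fun _ ↦ 1) (fun j ↦ (1 / 5 : ℝ) ^ j) (sh C) := by
    refine ⟨fun _ ↦ one_pos, ?_, fun i j ↦ ?_⟩
    · rw [Nat.cofinite_eq_atTop]
      exact tendsto_pow_atTop_nhds_zero_of_lt_one (by norm_num) (by norm_num)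
    · rw [one_mul, one_mul]
      show ‖C (i + 1) (j + 1)‖ ≤ _
      rw [hC1]
      obtain ⟨Q, hQ⟩ := (hp e i j he).2
      rw [hQ, Polynomial.eval₂_mul, Polynomial.eval₂_C, norm_mul, map_pow, norm_pow,
        f3_norm_five]
      have h1 : (1 / 5 : ℝ) ^ (gg j - (2 * (j + 1) + 4) / 5) ≤ (1 / 5 : ℝ) ^ j := by
        refine pow_le_pow_of_le_one (by norm_num) (by norm_num) ?_
        unfold gg
        omega
      calc (1 / 5 : ℝ) ^ (gg j - (2 * (j + 1) + 4) / 5) * ‖Q.eval₂ iota5 y‖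
          ≤ (1 / 5 : ℝ) ^ (gg j - (2 * (j + 1) + 4) / 5) * 1 :=
            mul_le_mul_of_nonneg_left (f3_eval_le Q hy) (by positivity)
        _ ≤ (1 / 5 : ℝ) ^ j := by rw [mul_one]; exact h1
  have hlead : ∀ n, Pot.lead (PS e) n = Pot.lead (PM e) n := fun n ↦ hpr e n _ he
  have hmin : ∀ {n : ℕ} (a : Fin n → ℕ),
      (Matrix.of fun i j : Fin n ↦ C (a i + 1) (a j + 1)).det =
        (Pot.minor (PS e) a a).eval₂ iota5 y := by
    intro n a
    rw [f3_minor]
    exact congrArg Matrix.det (Matrix.ext fun i j ↦ hC1 _ _)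
  have hcomb := comb5 (e := e) (by omega : e < 2)
  have hMe := hM e he
  rw [hfred]
  refine Cen3.newtonPolygon_fred_pr (by norm_num) hcpt _ (fun n ↦ ?_) ?_ ?_
  · rw [← hlead]
    exact (hmin fun i : Fin n ↦ (i : ℕ)).symm
  · intro A r hA hr hb n a _
    rw [hmin]
    exact Pot.final_weakW hcomb hMe iota5 hφ hy hA hr (fun k ↦ by rw [hlead]; exact hb k) a a
  · intro A r hA hr n hn hb a ha han
    rw [hmin]
    refine Pot.final_strictW hcomb hMe iota5 hφ hy hA hr (by rw [hlead]; exact hn)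
      (fun k hk ↦ by rw [hlead]; exact hb k hk) a a ?_
    rw [Pot.le_gv_iff, hpr e n a he]
    exact Pot.gv_dvd_comp (hs e n a he ha han) _

end GH.M5
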