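import Pool.Agent.GH.M5.Stm

/-!
# GH5-MAT, block W: the scaled matrix and its principal minors (W1, W2)
-/

noncomputable section

namespace GH.M5

open Polynomial Finset

theorem ps_exp_zero {e l j : ℕ} (he : e ≤ 1) (hj : j + 1 ≤ 5 * (l + 1)) :
    gg l + (gg j - (2 * (j + 1) + 4) / 5) ≤ rr e l j + gg j := by
  unfold gg rr
  have h1 : (2 * (j + 1) + 4 * (1 - e)) / 5 ≤ (2 * (j + 1) + 4) / 5 := by
    apply Nat.div_le_div_right
    omega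
  omega

theorem ps_exp_succ {e l j d : ℕ} (he : e ≤ 1) (hj : j + 1 ≤ 5 * (l + 1)) :
    gg (l + (d + 1)) + (gg j - (2 * (j + 1) + 4) / 5) ≤
      (7 * (d + 1) + 4) / 4 + rr e l j + gg j := by
  unfold gg rr
  have h1 : (2 * (j + 1) + 4 * (1 - e)) / 5 ≤ (2 * (j + 1) + 4) / 5 := by
    apply Nat.div_le_div_right
    omega
  omega

theorem ps_C_dvd {a b : ℕ} {P : Zy} (hab : a ≤ b) (h : C ((5 : ℤ_[5]) ^ b) ∣ P) :
    C ((5 : ℤ_[5]) ^ a) ∣ P := by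
  refine dvd_trans ?_ h
  rw [C_dvd_iff_dvd_coeff]
  intro i
  rw [coeff_C]
  split_ifs
  · exact pow_dvd_pow _ hab
  · exact dvd_zero _

theorem ps_term {e i j : ℕ} (he : e ≤ 1) (W : ℕ → Zy) (N : ℕ → ℕ → Zy) (hW0 : W 0 = 1)
    (hW : ∀ l, C ((5 : ℤ_[5]) ^ ((7 * (l + 1) + 4) / 4)) ∣ W (l + 1))
    (hN : ∀ i j k, (5 : ℤ_[5]) ^ max (rr e i j) k ∣ (N i j).coeff k)
    (hN0 : ∀ i j, 5 * (i + 1) < j + 1 → N i j = 0) (l : ℕ) (hl : l < i + 1) :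
    C ((5 : ℤ_[5]) ^ (gg i + (gg j - (2 * (j + 1) + 4) / 5))) ∣
      C ((5 : ℤ_[5]) ^ gg j) * (W (i - l) * N l j) := by
  by_cases hj : 5 * (l + 1) < j + 1
  · rw [hN0 l j hj, mul_zero, mul_zero]
    exact dvd_zero _
  have hj' : j + 1 ≤ 5 * (l + 1) := by omega
  have hNl : C ((5 : ℤ_[5]) ^ rr e l j) ∣ N l j := by
    rw [C_dvd_iff_dvd_coeff]
    intro k
    exact dvd_trans (pow_dvd_pow _ (le_max_left _ _)) (hN l j k)
  obtain ⟨d, hd⟩ : ∃ d, i = l + d := ⟨i - l, by omega⟩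
  subst hd
  have hsub : l + d - l = d := by omega
  rw [hsub]
  rcases d with _ | d
  · rw [hW0, one_mul]
    have h2 : C ((5 : ℤ_[5]) ^ (gg j + rr e l j)) ∣ C ((5 : ℤ_[5]) ^ gg j) * N l j := by
      rw [pow_add, C_mul]
      exact mul_dvd_mul_left _ hNl
    refine ps_C_dvd ?_ h2
    have := ps_exp_zero he hj'
    simp only [Nat.add_zero]
    omega
  · have h2 : C ((5 : ℤ_[5]) ^ (gg j + ((7 * (d + 1) + 4) / 4 + rr e l j))) ∣
        C ((5 : ℤ_[5]) ^ gg j) * (W (d + 1) * N l j) := by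
      rw [pow_add, pow_add, C_mul, C_mul]
      exact mul_dvd_mul_left _ (mul_dvd_mul (hW d) hNl)
    refine ps_C_dvd ?_ h2
    have := ps_exp_succ (d := d) he hj'
    omega

theorem ps_dvd (h : SpWN) {e : ℕ} (he : e ≤ 1) (i j : ℕ) :
    C ((5 : ℤ_[5]) ^ (gg i + (gg j - (2 * (j + 1) + 4) / 5))) ∣
      C ((5 : ℤ_[5]) ^ gg j) * PM e i j := by
  obtain ⟨W, N, hW0, hW, hN, hN0, hPM⟩ := h e he (i + 1)
  rw [hPM i (Nat.lt_succ_self i) j, Finset.mul_sum]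
  refine Finset.dvd_sum ?_
  intro l hl
  exact ps_term he W N hW0 hW hN hN0 l (Finset.mem_range.mp hl)

theorem ps_ne (n : ℕ) : (C ((5 : ℤ_[5]) ^ n) : Zy) ≠ 0 := by
  rw [Ne, C_eq_zero]
  refine pow_ne_zero _ ?_
  simp

theorem spPS (h : SpWN) : SpPS := by
  intro e i j he
  have hd := ps_dvd h he i j
  obtain ⟨P, hP⟩ := hd
  have hex : ∃ P : Zy, C ((5 : ℤ_[5]) ^ gg i) * P = C ((5 : ℤ_[5]) ^ gg j) * PM e i j := by
    refine ⟨C ((5 : ℤ_[5]) ^ (gg j - (2 * (j + 1) + 4) / 5)) * P, ?_⟩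
    rw [hP, pow_add, C_mul, mul_assoc]
  have h1 : C ((5 : ℤ_[5]) ^ gg i) * PS e i j = C ((5 : ℤ_[5]) ^ gg j) * PM e i j := by
    unfold PS
    rw [dif_pos hex]
    exact hex.choose_spec
  refine ⟨h1, ⟨P, ?_⟩⟩
  apply mul_left_cancel₀ (ps_ne (gg i))
  rw [h1, hP, pow_add, C_mul, mul_assoc]

theorem spPrin (h : SpPS) : SpPrin := by
  intro e n a he
  unfold Pot.minor
  have h1 : Matrix.det (Matrix.of fun i j ↦
      C ((5 : ℤ_[5]) ^ gg (a i)) * PS e (a i) (a j)) =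
      Matrix.det (Matrix.of fun i j ↦ C ((5 : ℤ_[5]) ^ gg (a j)) * PM e (a i) (a j)) := by
    congr 1
    ext1 i j
    exact (h e (a i) (a j) he).1
  have h2 := Matrix.det_mul_column (fun i ↦ C ((5 : ℤ_[5]) ^ gg (a i)))
    (Matrix.of fun i j ↦ PS e (a i) (a j))
  have h3 := Matrix.det_mul_row (fun i ↦ C ((5 : ℤ_[5]) ^ gg (a i)))
    (Matrix.of fun i j ↦ PM e (a i) (a j))
  simp only [Matrix.of_apply] at h2 h3
  rw [h2, h3] at h1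
  have h4 : (∏ i, (C ((5 : ℤ_[5]) ^ gg (a i)) : Zy)) ≠ 0 :=
    Finset.prod_ne_zero_iff.mpr fun i _ ↦ ps_ne _
  exact mul_left_cancel₀ h4 h1

end GH.M5
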