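import Pool.Agent.GH.M5.Stm

/-!
# GH5-MAT, row J2: `T = 6` on the `x_l`
-/

open PowerSeries

noncomputable section

namespace GH.M5

open GH.D5 GH.CombU

/-! ### the series `Q` and its inverse -/

theorem six_Q : Qser5 ℚ = 1 + 5 * X + 15 * X ^ 2 + 25 * X ^ 3 + 25 * X ^ 4 := by
  unfold Qser5
  simp only [map_ofNat]

theorem six_cQ : constantCoeff (Qser5 ℚ) = 1 := by
  unfold Qser5
  simp

theorem six_QQi : Qser5 ℚ * Qi ℚ = 1 := by
  unfold Qi
  exact mul_invOfUnit _ _ (by rw [six_cQ, Units.val_one])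

theorem six_cQi : constantCoeff (Qi ℚ) = 1 := by
  have h := congrArg constantCoeff six_QQi
  rwa [map_mul, six_cQ, one_mul, map_one] at h

/-! ### homogenisation -/

/-- `s = Qi/125` -/
def six_S : PowerSeries ℚ := C (1 / 125 : ℚ) * Qi ℚ

/-- `T/s` -/
def six_Y : PowerSeries ℚ := C (125 : ℚ) * X * Qser5 ℚ

theorem six_SY : six_S * six_Y = X := by
  unfold six_S six_Y
  have h1 : (C (1 / 125 : ℚ) : PowerSeries ℚ) * C (125 : ℚ) = 1 := by
    rw [← map_mul, show (1 / 125 : ℚ) * 125 = 1 by norm_num, map_one]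
  calc C (1 / 125 : ℚ) * Qi ℚ * (C (125 : ℚ) * X * Qser5 ℚ)
      = (C (1 / 125 : ℚ) * C (125 : ℚ)) * (Qser5 ℚ * Qi ℚ) * X := by ring
    _ = X := by rw [h1, six_QQi]; ring

/-- the homogenisation of `p` with respect to the degree `d` -/
def six_h (d : ℕ) (p : Polynomial ℚ) : PowerSeries ℚ :=
  ∑ k ∈ Finset.range (d + 1), C (p.coeff k) * six_S ^ k * X ^ (d - k)

theorem six_h_eq (d : ℕ) (p : Polynomial ℚ) (hp : p.natDegree ≤ d) :
    six_h d p = six_S ^ d * Polynomial.aeval six_Y (Polynomial.reflect d p) := by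
  have hr : (Polynomial.reflect d p).natDegree < d + 1 := by
    rw [Nat.lt_succ_iff]
    exact (Polynomial.natDegree_reflect_le).trans (max_le le_rfl hp)
  rw [Polynomial.aeval_eq_sum_range' hr, ← Finset.sum_range_reflect, Finset.mul_sum]
  unfold six_h
  refine Finset.sum_congr rfl fun k hk => ?_
  have hk' : k ≤ d := Nat.lt_succ_iff.1 (Finset.mem_range.1 hk)
  have e1 : d + 1 - 1 - k = d - k := by omega
  rw [e1, Polynomial.coeff_reflect, Polynomial.revAt_le (by omega : d - k ≤ d),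
    Nat.sub_sub_self hk', PowerSeries.smul_eq_C_mul]
  have e2 : six_S ^ d = six_S ^ k * six_S ^ (d - k) := by
    rw [← pow_add, Nat.add_sub_cancel' hk']
  have e3 : (X : PowerSeries ℚ) ^ (d - k) = six_S ^ (d - k) * six_Y ^ (d - k) := by
    rw [← mul_pow, six_SY]
  rw [e2, e3]
  ring

theorem six_h_mul (d d' : ℕ) (p q : Polynomial ℚ) (hp : p.natDegree ≤ d)
    (hq : q.natDegree ≤ d') : six_h (d + d') (p * q) = six_h d p * six_h d' q := by
  rw [six_h_eq d p hp, six_h_eq d' q hq,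
    six_h_eq (d + d') (p * q) (Polynomial.natDegree_mul_le.trans (add_le_add hp hq)),
    Polynomial.reflect_mul p q hp hq, map_mul, pow_add]
  ring

theorem six_h_one : six_h 0 1 = 1 := by
  unfold six_h
  simp

theorem six_h_pow (d : ℕ) (p : Polynomial ℚ) (hp : p.natDegree ≤ d) (n : ℕ) :
    six_h (d * n) (p ^ n) = six_h d p ^ n := by
  induction n with
  | zero => rw [mul_zero, pow_zero, pow_zero, six_h_one]
  | succ n ih =>
    rw [Nat.mul_succ, pow_succ, pow_succ, six_h_mul _ _ _ _ _ hp, ih]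
    refine Polynomial.natDegree_pow_le.trans ?_
    rw [mul_comm]
    exact Nat.mul_le_mul_right n hp

/-! ### the polynomials -/

/-- `e(g)` -/
def six_e : Polynomial ℚ := 1 + Polynomial.C 250 * Polynomial.X + Polynomial.C 3125 * Polynomial.X ^ 2

/-- `ψ_e` -/
def six_ps (e : ℕ) : Polynomial ℚ :=
  if e = 0 then 1 else 1 - Polynomial.C 500 * Polynomial.X - Polynomial.C 15625 * Polynomial.X ^ 2

theorem six_e_deg : six_e.natDegree ≤ 2 := by
  unfold six_e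
  compute_degree

theorem six_ps_deg (e : ℕ) (he : e ≤ 1) : (six_ps e).natDegree ≤ 2 * e := by
  unfold six_ps
  split_ifs with h
  · simp
  · have h1 : e = 1 := by omega
    rw [h1]
    compute_degree

theorem six_e_coe : (six_e : PowerSeries ℚ) = eG := by
  unfold six_e eG
  simp

theorem six_ps_coe (e : ℕ) : (six_ps e : PowerSeries ℚ) = psG e := by
  unfold six_ps psG
  split_ifs <;> simp

/-- the polynomial `x_l` -/
def six_G (e b l : ℕ) : Polynomial ℚ := six_ps e * six_e ^ (b - 3 * l) * Polynomial.X ^ l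

theorem six_G_coe (e b l : ℕ) : (six_G e b l : PowerSeries ℚ) = xG e b l := by
  unfold six_G xG
  rw [Polynomial.coe_mul, Polynomial.coe_mul, Polynomial.coe_pow, Polynomial.coe_pow,
    Polynomial.coe_X, six_e_coe, six_ps_coe]

theorem six_G_coeff (e b l i : ℕ) : coeff i (xG e b l) = (six_G e b l).coeff i := by
  rw [← six_G_coe, Polynomial.coeff_coe]

theorem six_G_deg (e b l : ℕ) (he : e ≤ 1) (hl : 1 ≤ l) (hb : 3 * l ≤ b) :
    (six_G e b l).natDegree ≤ 2 * (b + e) - 5 := by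
  unfold six_G
  have h1 := six_ps_deg e he
  have h2 : (six_e ^ (b - 3 * l)).natDegree ≤ (b - 3 * l) * 2 :=
    Polynomial.natDegree_pow_le.trans (Nat.mul_le_mul_left _ six_e_deg)
  have h3 : (Polynomial.X ^ l : Polynomial ℚ).natDegree ≤ l := by
    rw [Polynomial.natDegree_X_pow]
  refine Polynomial.natDegree_mul_le.trans ((add_le_add Polynomial.natDegree_mul_le h3).trans ?_)
  omega

theorem six_G_zero (e b l : ℕ) (hl : 1 ≤ l) : (six_G e b l).coeff 0 = 0 := by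
  unfold six_G
  rw [Polynomial.mul_coeff_zero, Polynomial.coeff_X_pow, if_neg (by omega), mul_zero]

theorem six_h_e : six_h 2 six_e = X ^ 2 + 250 * six_S * X + 3125 * six_S ^ 2 := by
  have h1 : (C (250 : ℚ) : PowerSeries ℚ) = 250 := map_ofNat _ 250
  have h2 : (C (3125 : ℚ) : PowerSeries ℚ) = 3125 := map_ofNat _ 3125
  unfold six_h six_e
  simp [Finset.sum_range_succ, Polynomial.coeff_one, Polynomial.coeff_X]
  rw [h1, h2]

theorem six_h_ps1 : six_h 2 (six_ps 1) = X ^ 2 - 500 * six_S * X - 15625 * six_S ^ 2 := by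
  have h1 : (C (500 : ℚ) : PowerSeries ℚ) = 500 := map_ofNat _ 500
  have h2 : (C (15625 : ℚ) : PowerSeries ℚ) = 15625 := map_ofNat _ 15625
  unfold six_h six_ps
  simp [Finset.sum_range_succ, Polynomial.coeff_one, Polynomial.coeff_X]
  rw [h1, h2]
  ring

theorem six_h_X : six_h 6 (Polynomial.X : Polynomial ℚ) = six_S * X ^ 5 := by
  unfold six_h
  simp [Polynomial.coeff_X]

/-! ### the identities -/

theorem six_R0 : Rser5 ℚ 0 = 1 + 4 * X + 9 * X ^ 2 + 10 * X ^ 3 + 5 * X ^ 4 := by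
  unfold Rser5
  simp only [if_true, map_ofNat]

theorem six_R1 : Rser5 ℚ 1 = 1 + 10 * X + 45 * X ^ 2 + 100 * X ^ 3 + 125 * X ^ 4 := by
  unfold Rser5
  simp only [one_ne_zero, if_false, map_ofNat]

theorem six_id1 : 5 * X ^ 2 * Qser5 ℚ ^ 2 + 10 * X * Qser5 ℚ + 1 =
    Qser5 ℚ ^ 2 + 250 * X ^ 5 * Qser5 ℚ + 3125 * X ^ 10 := by
  rw [six_Q]
  ring

theorem six_id2 : Rser5 ℚ 1 * (X ^ 2 * Qser5 ℚ ^ 2 - 4 * X * Qser5 ℚ - 1) =
    - Rser5 ℚ 0 * (Qser5 ℚ ^ 2 - 500 * X ^ 5 * Qser5 ℚ - 15625 * X ^ 10) := by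
  rw [six_Q, six_R0, six_R1]
  ring

theorem six_h25 : (25 : PowerSeries ℚ) * C (1 / 125 : ℚ) = C (1 / 5 : ℚ) := by
  rw [← map_ofNat (C : ℚ →+* PowerSeries ℚ) 25, ← map_mul]
  norm_num

theorem six_h125 : (125 : PowerSeries ℚ) * C (1 / 125 : ℚ) = 1 := by
  rw [← map_ofNat (C : ℚ →+* PowerSeries ℚ) 125, ← map_mul, ← map_one (C : ℚ →+* PowerSeries ℚ)]
  norm_num

theorem six_h5 : (5 : PowerSeries ℚ) * C (1 / 5 : ℚ) = 1 := by
  rw [← map_ofNat (C : ℚ →+* PowerSeries ℚ) 5, ← map_mul, ← map_one (C : ℚ →+* PowerSeries ℚ)]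
  norm_num

theorem six_he : six_h 2 six_e = C (1 / 5 : ℚ) * Polynomial.aeval (gT ℚ) six_e := by
  have hae : Polynomial.aeval (gT ℚ) six_e = 1 + 250 * gT ℚ + 3125 * gT ℚ ^ 2 := by
    have h1 : (C (250 : ℚ) : PowerSeries ℚ) = 250 := map_ofNat _ 250
    have h2 : (C (3125 : ℚ) : PowerSeries ℚ) = 3125 := map_ofNat _ 3125
    unfold six_e
    simp [Polynomial.aeval_C]
    rw [h1, h2]
  rw [hae, six_h_e]
  unfold six_S gT
  have h := six_QQi
  have h1 := six_id1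
  generalize Qser5 ℚ = Q at h h1
  generalize Qi ℚ = q at h ⊢
  have h25 := six_h25
  have h125 := six_h125
  have h5 := six_h5
  generalize (C (1 / 125 : ℚ) : PowerSeries ℚ) = c at h25 h125 ⊢
  generalize (C (1 / 5 : ℚ) : PowerSeries ℚ) = d at h25 h5 ⊢
  have A : 5 * X ^ 2 + 10 * X * q + q ^ 2 = 1 + 250 * X ^ 5 * q + 3125 * X ^ 10 * q ^ 2 := by
    linear_combination q ^ 2 * h1 -
      (5 * X ^ 2 * (1 + Q * q) + 10 * X * q - (1 + Q * q) - 250 * X ^ 5 * q) * h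
  linear_combination d * A - X ^ 2 * h5 + 10 * X * q * h25 + q ^ 2 * (25 * c * h125 + h25)

theorem six_hps (e : ℕ) (he : e ≤ 1) : Rser5 ℚ e * six_h (2 * e) (six_ps e) =
    (-1) ^ e * Rser5 ℚ 0 * Polynomial.aeval (gT ℚ) (six_ps e) := by
  rcases Nat.le_one_iff_eq_zero_or_eq_one.1 he with rfl | rfl
  · have h1 : six_ps 0 = 1 := by
      unfold six_ps
      rw [if_pos rfl]
    rw [h1, mul_zero, six_h_one, map_one, pow_zero]
    ring
  · have hae : Polynomial.aeval (gT ℚ) (six_ps 1) = 1 - 500 * gT ℚ - 15625 * gT ℚ ^ 2 := by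
      have h1 : (C (500 : ℚ) : PowerSeries ℚ) = 500 := map_ofNat _ 500
      have h2 : (C (15625 : ℚ) : PowerSeries ℚ) = 15625 := map_ofNat _ 15625
      unfold six_ps
      simp [Polynomial.aeval_C]
      rw [h1, h2]
    rw [hae, mul_one, six_h_ps1]
    unfold six_S gT
    have h := six_QQi
    have h1 := six_id2
    generalize Qser5 ℚ = Q at h h1
    generalize Qi ℚ = q at h ⊢
    generalize Rser5 ℚ 1 = R1 at h1 ⊢
    generalize Rser5 ℚ 0 = R0 at h1 ⊢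
    have h125 := six_h125
    generalize (C (1 / 125 : ℚ) : PowerSeries ℚ) = c at h125 ⊢
    linear_combination q ^ 2 * h1 - (R1 * X ^ 2 * (1 + Q * q) - 4 * R1 * X * q +
      R0 * (1 + Q * q) - 500 * R0 * X ^ 5 * q) * h -
      R1 * (4 * q * X + q ^ 2 * (125 * c + 1)) * h125

/-- `R_e P = (-1)^e 5^(-b) R_0 G(gT)` -/
theorem six_P (e b l : ℕ) (he : e ≤ 1) (hb : 3 * l ≤ b) :
    Rser5 ℚ e * six_h (2 * (b + e)) (six_G e b l) =
      (-1) ^ e * Rser5 ℚ 0 * C ((1 / 5 : ℚ) ^ b) * Polynomial.aeval (gT ℚ) (six_G e b l) := by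
  have e1 : 2 * (b + e) = 2 * e + 2 * (b - 3 * l) + 6 * l := by omega
  have d1 := six_ps_deg e he
  have d2 : (six_e ^ (b - 3 * l)).natDegree ≤ 2 * (b - 3 * l) := by
    refine Polynomial.natDegree_pow_le.trans ?_
    rw [mul_comm]
    exact Nat.mul_le_mul_right _ six_e_deg
  have d3 : (Polynomial.X : Polynomial ℚ).natDegree ≤ 6 := by
    rw [Polynomial.natDegree_X]
    norm_num
  have d4 : ((Polynomial.X : Polynomial ℚ) ^ l).natDegree ≤ 6 * l := by
    rw [Polynomial.natDegree_X_pow]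
    omega
  rw [e1]
  unfold six_G
  rw [six_h_mul _ _ _ _ (Polynomial.natDegree_mul_le.trans (add_le_add d1 d2)) d4,
    six_h_mul _ _ _ _ d1 d2, six_h_pow 2 _ six_e_deg, six_h_pow 6 _ d3, six_he, six_h_X]
  have e0 : Polynomial.aeval (gT ℚ) (six_ps e * six_e ^ (b - 3 * l) * Polynomial.X ^ l) =
      Polynomial.aeval (gT ℚ) (six_ps e) * Polynomial.aeval (gT ℚ) six_e ^ (b - 3 * l) *
        gT ℚ ^ l := by
    rw [map_mul, map_mul, map_pow, map_pow, Polynomial.aeval_X]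
  rw [e0]
  have h1 := six_hps e he
  have e2 : six_S * X ^ 5 = C (1 / 125 : ℚ) * gT ℚ := by
    unfold six_S gT
    ring
  rw [e2]
  have e3 : (C (1 / 5 : ℚ) : PowerSeries ℚ) ^ (b - 3 * l) * C (1 / 125 : ℚ) ^ l =
      C ((1 / 5 : ℚ) ^ b) := by
    rw [← map_pow, ← map_pow, ← map_mul]
    congr 1
    have e4 : (1 / 125 : ℚ) = (1 / 5) ^ 3 := by norm_num
    rw [e4, ← pow_mul, ← pow_add, Nat.sub_add_cancel hb]
  rw [← e3, mul_pow, mul_pow]
  linear_combination (C (1 / 5 : ℚ) ^ (b - 3 * l) *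
    Polynomial.aeval (gT ℚ) six_e ^ (b - 3 * l) * (C (1 / 125 : ℚ) ^ l * gT ℚ ^ l)) * h1

/-! ### coefficients -/

/-- `Q` as a polynomial -/
def six_Qp : Polynomial ℚ := 1 + Polynomial.C 5 * Polynomial.X + Polynomial.C 15 * Polynomial.X ^ 2 +
  Polynomial.C 25 * Polynomial.X ^ 3 + Polynomial.C 25 * Polynomial.X ^ 4

/-- `R_0` as a polynomial -/
def six_Rp : Polynomial ℚ := 1 + Polynomial.C 4 * Polynomial.X + Polynomial.C 9 * Polynomial.X ^ 2 +
  Polynomial.C 10 * Polynomial.X ^ 3 + Polynomial.C 5 * Polynomial.X ^ 4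

theorem six_Qp_coe : (six_Qp : PowerSeries ℚ) = Qser5 ℚ := by
  unfold six_Qp Qser5
  simp

theorem six_Rp_coe : (six_Rp : PowerSeries ℚ) = Rser5 ℚ 0 := by
  unfold six_Rp Rser5
  simp

theorem six_Qp_deg : six_Qp.natDegree ≤ 4 := by
  unfold six_Qp
  compute_degree

theorem six_Rp_deg : six_Rp.natDegree ≤ 4 := by
  unfold six_Rp
  compute_degree

theorem six_coef (i k : ℕ) (hi : 1 ≤ i) :
    coeff (5 * i) (Qser5 ℚ ^ (i - 1) * Rser5 ℚ 0 * gT ℚ ^ k) = if k = i then 1 else 0 := by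
  have e1 : Qser5 ℚ ^ (i - 1) * Rser5 ℚ 0 * gT ℚ ^ k =
      X ^ (5 * k) * (Qser5 ℚ ^ (i - 1) * Qi ℚ ^ k * Rser5 ℚ 0) := by
    unfold gT
    rw [mul_pow, ← pow_mul]
    ring
  rw [e1, coeff_X_pow_mul']
  rcases lt_trichotomy k i with h | h | h
  · rw [if_pos (by omega), if_neg (by omega)]
    have e2 : Qser5 ℚ ^ (i - 1) * Qi ℚ ^ k * Rser5 ℚ 0 =
        ((six_Qp ^ (i - 1 - k) * six_Rp : Polynomial ℚ) : PowerSeries ℚ) := by
      rw [Polynomial.coe_mul, Polynomial.coe_pow, six_Qp_coe, six_Rp_coe]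
      have e3 : Qser5 ℚ ^ (i - 1) = Qser5 ℚ ^ (i - 1 - k) * Qser5 ℚ ^ k := by
        rw [← pow_add, Nat.sub_add_cancel (by omega)]
      have e4 : Qser5 ℚ ^ k * Qi ℚ ^ k = 1 := by
        rw [← mul_pow, six_QQi, one_pow]
      rw [e3]
      linear_combination (Qser5 ℚ ^ (i - 1 - k) * Rser5 ℚ 0) * e4
    rw [e2, Polynomial.coeff_coe]
    apply Polynomial.coeff_eq_zero_of_natDegree_lt
    have d1 : (six_Qp ^ (i - 1 - k) * six_Rp).natDegree ≤ (i - 1 - k) * 4 + 4 :=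
      Polynomial.natDegree_mul_le.trans (add_le_add (Polynomial.natDegree_pow_le.trans
        (Nat.mul_le_mul_left _ six_Qp_deg)) six_Rp_deg)
    omega
  · rw [if_pos (by omega), if_pos h, h, Nat.sub_self, coeff_zero_eq_constantCoeff_apply, map_mul,
      map_mul, map_pow, map_pow, six_cQ, six_cQi]
    have h1 : constantCoeff (Rser5 ℚ 0) = 1 := by
      unfold Rser5
      simp
    rw [h1]
    simp
  · rw [if_neg (by omega), if_neg (by omega)]

theorem six_coefG (G : Polynomial ℚ) (i : ℕ) (hi : 1 ≤ i) :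
    coeff (5 * i) (Qser5 ℚ ^ (i - 1) * Rser5 ℚ 0 * Polynomial.aeval (gT ℚ) G) = G.coeff i := by
  have hN : G.natDegree < G.natDegree + i + 1 := by omega
  rw [Polynomial.aeval_eq_sum_range' hN, Finset.mul_sum, map_sum]
  rw [Finset.sum_congr rfl (g := fun k => if k = i then G.coeff k else 0)]
  · rw [Finset.sum_ite_eq', if_pos (Finset.mem_range.2 (by omega))]
  · intro k _
    rw [mul_smul_comm, map_smul, six_coef i k hi, smul_eq_mul]
    split_ifs <;> simp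

theorem six_MQ (e a i i' : ℕ) (hi : 1 ≤ i) (h2 : i' ≤ 2 * a) :
    MQ e (2 * a) i (2 * a - i') =
      coeff (5 * i) (X ^ (2 * a - i') * (Rser5 ℚ e * Qser5 ℚ ^ (i - 1) * Qi ℚ ^ i')) := by
  have e1 : Rser5 ℚ e * Qser5 ℚ ^ (i + (2 * a - i') - 1) * Qi ℚ ^ (2 * a) =
      Rser5 ℚ e * Qser5 ℚ ^ (i - 1) * Qi ℚ ^ i' := by
    have e2 : i + (2 * a - i') - 1 = (i - 1) + (2 * a - i') := by omega
    have e3 : Qi ℚ ^ (2 * a) = Qi ℚ ^ (2 * a - i') * Qi ℚ ^ i' := by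
      rw [← pow_add, Nat.sub_add_cancel h2]
    have e4 : Qser5 ℚ ^ (2 * a - i') * Qi ℚ ^ (2 * a - i') = 1 := by
      rw [← mul_pow, six_QQi, one_pow]
    rw [e2, e3, pow_add]
    linear_combination (Rser5 ℚ e * Qser5 ℚ ^ (i - 1) * Qi ℚ ^ i') * e4
  unfold MQ
  rw [e1, coeff_X_pow_mul']

/-- one term of the second sum -/
theorem six_term (e a i i' : ℕ) (hi : 1 ≤ i) (h2 : i' ≤ 2 * a) (g : ℚ) :
    (-1) ^ e * (5 : ℚ) ^ ((a : ℤ) + 1 - 3 * i' - e) * MQ e (2 * a) i (2 * a - i') * g =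
      coeff (5 * i) (C ((-1) ^ e * (5 : ℚ) ^ ((a : ℤ) + 1 - e)) *
        (Rser5 ℚ e * Qser5 ℚ ^ (i - 1)) * (C g * six_S ^ i' * X ^ (2 * a - i'))) := by
  have e1 : (5 : ℚ) ^ ((a : ℤ) + 1 - 3 * i' - e) =
      (5 : ℚ) ^ ((a : ℤ) + 1 - e) * (1 / 125) ^ i' := by
    have e2 : (a : ℤ) + 1 - 3 * i' - e = ((a : ℤ) + 1 - e) + (-3) * i' := by ring
    rw [e2, zpow_add₀ (by norm_num), zpow_mul, zpow_natCast]
    norm_num
  have e3 : C ((-1) ^ e * (5 : ℚ) ^ ((a : ℤ) + 1 - e)) *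
        (Rser5 ℚ e * Qser5 ℚ ^ (i - 1)) * (C g * six_S ^ i' * X ^ (2 * a - i')) =
      C ((-1) ^ e * (5 : ℚ) ^ ((a : ℤ) + 1 - e) * (1 / 125) ^ i' * g) *
        (X ^ (2 * a - i') * (Rser5 ℚ e * Qser5 ℚ ^ (i - 1) * Qi ℚ ^ i')) := by
    have e5 : (C ((-1) ^ e * (5 : ℚ) ^ ((a : ℤ) + 1 - e) * (1 / 125) ^ i' * g) : PowerSeries ℚ) =
        C ((-1) ^ e * (5 : ℚ) ^ ((a : ℤ) + 1 - e)) * C (1 / 125 : ℚ) ^ i' * C g := by
      rw [← map_pow, ← map_mul, ← map_mul]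
    rw [e5]
    unfold six_S
    generalize (C ((-1) ^ e * (5 : ℚ) ^ ((a : ℤ) + 1 - e)) : PowerSeries ℚ) = K
    rw [mul_pow]
    ring
  rw [e3, coeff_C_mul, six_MQ e a i i' hi h2, e1]
  ring

/-- J2: `T = 6` on the `x_l` -/
theorem spSix : SpSix := by
  intro e a l he ha hl hla i hi
  have hea : e ≤ a := by omega
  have hb : 2 * (a - e + e) = 2 * a := by omega
  have hdeg := six_G_deg e (a - e) l he hl hla
  rw [hb] at hdeg
  have hz : ∀ k, 2 * a ≤ k → (six_G e (a - e) l).coeff k = 0 := fun k hk =>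
    Polynomial.coeff_eq_zero_of_natDegree_lt (by omega)
  have h0 := six_G_zero e (a - e) l hl
  simp only [six_G_coeff]
  set G := six_G e (a - e) l with hG
  have h1 : ∀ i' ∈ Finset.Icc 1 (2 * a - 1), TQ e a i i' * G.coeff i' =
      (if i = i' then G.coeff i' else 0) +
        coeff (5 * i) (C ((-1) ^ e * (5 : ℚ) ^ ((a : ℤ) + 1 - e)) *
        (Rser5 ℚ e * Qser5 ℚ ^ (i - 1)) * (C (G.coeff i') * six_S ^ i' * X ^ (2 * a - i'))) := by
    intro i' hi'
    rw [Finset.mem_Icc] at hi'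
    rw [← six_term e a i i' hi (by omega)]
    unfold TQ
    split_ifs <;> ring
  rw [Finset.sum_congr rfl h1, Finset.sum_add_distrib]
  have h2 : ∑ i' ∈ Finset.Icc 1 (2 * a - 1), (if i = i' then G.coeff i' else 0) = G.coeff i := by
    rw [Finset.sum_ite_eq]
    split_ifs with h
    · rfl
    · rw [Finset.mem_Icc, not_and_or] at h
      exact (hz i (by omega)).symm
  have h3 : ∑ i' ∈ Finset.Icc 1 (2 * a - 1),
      coeff (5 * i) (C ((-1) ^ e * (5 : ℚ) ^ ((a : ℤ) + 1 - e)) *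
        (Rser5 ℚ e * Qser5 ℚ ^ (i - 1)) * (C (G.coeff i') * six_S ^ i' * X ^ (2 * a - i'))) =
      coeff (5 * i) (C ((-1) ^ e * (5 : ℚ) ^ ((a : ℤ) + 1 - e)) *
        (Rser5 ℚ e * Qser5 ℚ ^ (i - 1)) * six_h (2 * a) G) := by
    unfold six_h
    rw [Finset.mul_sum, map_sum]
    refine Finset.sum_subset (fun k hk => ?_) (fun k hk hk' => ?_)
    · rw [Finset.mem_Icc] at hk
      rw [Finset.mem_range]
      omega
    · rw [Finset.mem_range] at hk
      rw [Finset.mem_Icc] at hk'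
      have h4 : G.coeff k = 0 := by
        rcases Nat.eq_zero_or_pos k with h5 | h5
        · rw [h5]
          exact h0
        · exact hz k (by omega)
      rw [h4, map_zero, zero_mul, zero_mul, mul_zero, map_zero]
  rw [h2, h3]
  have h4 := six_P e (a - e) l he hla
  rw [hb, ← hG] at h4
  have h5 : C ((-1) ^ e * (5 : ℚ) ^ ((a : ℤ) + 1 - e)) *
        (Rser5 ℚ e * Qser5 ℚ ^ (i - 1)) * six_h (2 * a) G =
      C (5 : ℚ) * (Qser5 ℚ ^ (i - 1) * Rser5 ℚ 0 * Polynomial.aeval (gT ℚ) G) := by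
    have h6 : C ((-1) ^ e * (5 : ℚ) ^ ((a : ℤ) + 1 - e)) * ((-1) ^ e * C ((1 / 5 : ℚ) ^ (a - e))) =
        (C (5 : ℚ) : PowerSeries ℚ) := by
      have h7 : ((-1 : PowerSeries ℚ)) ^ e = C ((-1 : ℚ) ^ e) := by
        rw [map_pow, map_neg, map_one]
      rw [h7, ← map_mul, ← map_mul]
      congr 1
      have h8 : ((a : ℤ) + 1 - e) = ((a - e : ℕ) : ℤ) + 1 := by
        rw [Nat.cast_sub hea]
        ring
      have h9 : ((-1 : ℚ)) ^ e * (-1) ^ e = 1 := by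
        rw [← mul_pow]
        norm_num
      have h10 : (5 : ℚ) ^ (a - e) * (1 / 5) ^ (a - e) = 1 := by
        rw [← mul_pow]
        norm_num
      rw [h8, zpow_add₀ (by norm_num), zpow_natCast, zpow_one]
      linear_combination (5 * ((5 : ℚ) ^ (a - e) * (1 / 5) ^ (a - e))) * h9 + 5 * h10
    calc C ((-1) ^ e * (5 : ℚ) ^ ((a : ℤ) + 1 - e)) *
        (Rser5 ℚ e * Qser5 ℚ ^ (i - 1)) * six_h (2 * a) G
        = C ((-1) ^ e * (5 : ℚ) ^ ((a : ℤ) + 1 - e)) * Qser5 ℚ ^ (i - 1) *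
          (Rser5 ℚ e * six_h (2 * a) G) := by ring
      _ = (C ((-1) ^ e * (5 : ℚ) ^ ((a : ℤ) + 1 - e)) *
          ((-1) ^ e * C ((1 / 5 : ℚ) ^ (a - e)))) *
          (Qser5 ℚ ^ (i - 1) * Rser5 ℚ 0 * Polynomial.aeval (gT ℚ) G) := by
        rw [h4]
        ring
      _ = _ := by rw [h6]
  rw [h5, coeff_C_mul, six_coefG G i hi]
  ring

end GH.M5
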