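import Pool.Agent.GH.M5.Stm

/-!
# GH5-MAT, row D6: three small determinants
-/

open PowerSeries

noncomputable section

namespace GH.M5

open GH.D5 GH.CombU

/-- The series with coefficients from a list. -/
def smS (R : Type*) [CommRing R] (l : List ℤ) : PowerSeries R :=
  PowerSeries.mk fun n ↦ ((l.getD n 0 : ℤ) : R)

/-- Sum of lists. -/
def smAdd : List ℤ → List ℤ → List ℤ
  | [], m => m
  | a :: l, [] => a :: l
  | a :: l, b :: m => (a + b) :: smAdd l m

/-- Multiplication by a number. -/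
def smMul (c : ℤ) : List ℤ → List ℤ
  | [] => []
  | a :: l => (c * a) :: smMul c l

/-- Multiplication by `Q`. -/
def smQ (l : List ℤ) : List ℤ :=
  smAdd l (smAdd (0 :: smMul 5 l) (smAdd (0 :: 0 :: smMul 15 l)
    (smAdd (0 :: 0 :: 0 :: smMul 25 l) (0 :: 0 :: 0 :: 0 :: smMul 25 l))))

/-- The coefficients of `R_e Q^k`. -/
def smL (e : ℕ) : ℕ → List ℤ
  | 0 => if e = 0 then [1, 4, 9, 10, 5] else [1, 10, 45, 100, 125]
  | k + 1 => smQ (smL e k)

/-- The entry as an integer. -/
def smE (e i j : ℕ) : ℤ :=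
  if j + 1 ≤ 5 * (i + 1) then (smL e (i + j + 1)).getD (5 * (i + 1) - (j + 1)) 0 else 0

section

variable (R : Type*) [CommRing R]

theorem sm_getD_add (l m : List ℤ) (n : ℕ) :
    (smAdd l m).getD n 0 = l.getD n 0 + m.getD n 0 := by
  induction l generalizing m n with
  | nil => simp [smAdd]
  | cons a l ih =>
    cases m with
    | nil => simp [smAdd]
    | cons b m =>
      cases n with
      | zero => simp [smAdd]
      | succ n =>
        simp only [smAdd, List.getD_cons_succ]
        exact ih m n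

theorem sm_getD_mul (c : ℤ) (l : List ℤ) (n : ℕ) : (smMul c l).getD n 0 = c * l.getD n 0 := by
  induction l generalizing n with
  | nil => simp [smMul]
  | cons a l ih =>
    cases n with
    | zero => simp [smMul]
    | succ n =>
      simp only [smMul, List.getD_cons_succ]
      exact ih n

theorem smS_add (l m : List ℤ) : smS R (smAdd l m) = smS R l + smS R m := by
  ext n
  simp only [smS, coeff_mk, map_add, sm_getD_add, Int.cast_add]

theorem smS_mul (c : ℤ) (l : List ℤ) : smS R (smMul c l) = C (c : R) * smS R l := by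
  ext n
  simp only [smS, coeff_mk, coeff_C_mul, sm_getD_mul, Int.cast_mul]

theorem smS_zero (l : List ℤ) : smS R (0 :: l) = X * smS R l := by
  ext n
  cases n with
  | zero => simp [smS]
  | succ n =>
    rw [coeff_succ_X_mul]
    simp [smS]

theorem smS_cons (a : ℤ) (l : List ℤ) : smS R (a :: l) = C (a : R) + X * smS R l := by
  ext n
  cases n with
  | zero => simp [smS]
  | succ n =>
    rw [map_add, coeff_succ_X_mul, coeff_C, if_neg (Nat.succ_ne_zero n)]
    simp [smS]

theorem smS_nil : smS R [] = 0 := by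
  ext n
  simp [smS]

theorem smQ_eq (l : List ℤ) : smS R (smQ l) = Qser5 R * smS R l := by
  rw [smQ, smS_add, smS_add, smS_add, smS_add]
  simp only [smS_zero, smS_mul, Qser5]
  push_cast
  ring

theorem smL_eq (e k : ℕ) : smS R (smL e k) = Rser5 R e * Qser5 R ^ k := by
  induction k with
  | zero =>
    rw [smL, pow_zero, mul_one, Rser5]
    split_ifs
    · simp only [smS_cons, smS_nil, Int.cast_one, Int.cast_ofNat, map_one]
      ring
    · simp only [smS_cons, smS_nil, Int.cast_one, Int.cast_ofNat, map_one]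
      ring
  | succ k ih =>
    rw [smL, smQ_eq, ih]
    ring

end

section

variable {R S : Type*} [CommRing R] [CommRing S] (φ : R →+* S)

theorem sm_map_Q : PowerSeries.map φ (Qser5 R) = Qser5 S := by
  simp only [Qser5, map_add, map_one, map_mul, map_pow, PowerSeries.map_X, map_ofNat]

theorem sm_map_R (e : ℕ) : PowerSeries.map φ (Rser5 R e) = Rser5 S e := by
  unfold Rser5
  split_ifs <;>
  simp only [map_add, map_one, map_mul, map_pow, PowerSeries.map_X, map_ofNat]

end

theorem sm_map_LY : PowerSeries.map (Polynomial.evalRingHom (0 : ℤ_[5])) LY = 1 := by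
  have h := MatU.Lpow_eval (p := 5) (θ := -(thQ ℤ_[5] * Qi ℤ_[5])) (by simp [thQ]) 0
  rw [pow_zero] at h
  rw [← h, LY]
  simp

theorem sm_eval (e i j : ℕ) : (PM e i j).eval (0 : ℤ_[5]) = ((smE e i j : ℤ) : ℤ_[5]) := by
  unfold PM smE
  split_ifs with h
  · have h1 : PowerSeries.map (Polynomial.evalRingHom (0 : ℤ_[5]))
        (Rser5 Zy e * Qser5 Zy ^ (i + j + 1) * LY) = smS ℤ_[5] (smL e (i + j + 1)) := by
      rw [map_mul, map_mul, map_pow, sm_map_R, sm_map_Q, sm_map_LY, mul_one, smL_eq]
    rw [← Polynomial.coe_evalRingHom, ← coeff_map, h1]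
    simp [smS]
  · simp

theorem sm_lead (e n : ℕ) : (Pot.lead (PM e) n).eval (0 : ℤ_[5]) =
    (((Matrix.of fun i j : Fin n ↦ smE e i j).det : ℤ) : ℤ_[5]) := by
  unfold Pot.lead Pot.minor
  have h : (((Matrix.of fun i j : Fin n ↦ smE e i j).det : ℤ) : ℤ_[5]) =
      ((Int.castRingHom ℤ_[5]).mapMatrix (Matrix.of fun i j : Fin n ↦ smE e i j)).det := by
    rw [← RingHom.map_det]
    rfl
  rw [← Polynomial.coe_evalRingHom, RingHom.map_det, h]
  congr 1
  ext i j
  simp only [RingHom.mapMatrix_apply, Matrix.map_apply, Matrix.of_apply,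
    Polynomial.coe_evalRingHom, sm_eval, Int.coe_castRingHom]

theorem sm_norm (k : ℕ) (u : ℤ) (hu : ¬ (5 : ℤ) ∣ u) :
    ‖(((5 ^ k * u : ℤ)) : ℤ_[5])‖ = (5 : ℝ) ^ (-(k : ℤ)) := by
  have h1 : ‖((u : ℤ) : ℤ_[5])‖ = 1 := by
    refine le_antisymm (PadicInt.norm_le_one _) (not_lt.1 fun h ↦ hu ?_)
    exact_mod_cast (PadicInt.norm_int_lt_one_iff_dvd u).1 h
  have h2 : (((5 ^ k * u : ℤ)) : ℤ_[5]) = ((5 : ℕ) : ℤ_[5]) ^ k * (u : ℤ_[5]) := by
    push_cast
    ring
  rw [h2, norm_mul, h1, mul_one, PadicInt.norm_p_pow]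
  norm_num

theorem sm_det2 (e : ℕ) (a b c d : ℤ) (ha : smE e 0 0 = a) (hb : smE e 0 1 = b)
    (hc : smE e 1 0 = c) (hd : smE e 1 1 = d) :
    (Matrix.of fun i j : Fin 2 ↦ smE e i j).det = a * d - b * c := by
  rw [Matrix.det_fin_two]
  simp only [Matrix.of_apply, Fin.val_zero, Fin.val_one, ha, hb, hc, hd]

theorem sm_det4 : (Matrix.of fun i j : Fin 4 ↦ smE 1 i j).det = 5 ^ 22 * 25846871275036944 := by
  have h : (Matrix.of fun i j : Fin 4 ↦ smE 1 i j) =
      !![1575, 1300, 315, 30; 325000, 2559375, 4102500, 2682500;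
        14765625, 769218750, 4726828125, 9999281250;
        234375000, 83828125000, 1666546875000, 9220224609375] := by
    ext i j
    fin_cases i <;> fin_cases j <;> decide +kernel
  rw [h]
  simp [Matrix.det_succ_row_zero, Fin.sum_univ_succ, Fin.succAbove]

theorem spSmall : SpSmall := by
  refine ⟨?_, ?_, ?_⟩
  · rw [sm_lead, sm_det2 0 315 520 32500 511875 (by decide +kernel) (by decide +kernel)
      (by decide +kernel) (by decide +kernel),
      show (315 * 511875 - 520 * 32500 : ℤ) = 5 ^ 5 * 46189 by norm_num, sm_norm 5 _ (by norm_num)]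
    norm_num
  · rw [sm_lead, sm_det2 1 1575 1300 325000 2559375 (by decide +kernel) (by decide +kernel)
      (by decide +kernel) (by decide +kernel),
      show (1575 * 2559375 - 1300 * 325000 : ℤ) = 5 ^ 7 * 46189 by norm_num,
      sm_norm 7 _ (by norm_num)]
    norm_num
  · rw [sm_lead, sm_det4, sm_norm 22 _ (by norm_num)]
    norm_num

end GH.M5
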