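import Pool.Agent.GH.M5.Stm

/-!
# GH5-MAT, row A3: `Q^{-y} = exp(-y log Q)`
-/

open PowerSeries

noncomputable section

namespace GH.M5

open GH.D5 GH.CombU

/-- `U = Q - 1`. -/
def stU : PowerSeries ℤ_[5] :=
  C (5 : ℤ_[5]) * X + C (15 : ℤ_[5]) * X ^ 2 + C (25 : ℤ_[5]) * X ^ 3 + C (25 : ℤ_[5]) * X ^ 4

theorem st_Q : Qser5 ℤ_[5] = 1 + stU := by
  unfold Qser5 stU
  ring

theorem st_coeffU (b : ℕ) : coeff b stU = (if b = 1 then 5 else 0) + (if b = 2 then 15 else 0) +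
    (if b = 3 then 25 else 0) + (if b = 4 then 25 else 0) := by
  unfold stU
  rw [map_add, map_add, map_add, ← pow_one (X : PowerSeries ℤ_[5]), ← pow_mul, ← pow_mul,
    ← pow_mul]
  simp only [coeff_C_mul, coeff_X_pow, mul_ite, mul_one, mul_zero, one_mul]

theorem st_dvdU (b : ℕ) : (5 : ℤ_[5]) ^ ((2 * b + 5) / 5) ∣ coeff b stU := by
  rw [st_coeffU]
  by_cases h1 : b = 1
  · subst h1
    norm_num
  by_cases h2 : b = 2
  · subst h2
    refine ⟨3, ?_⟩
    norm_num
  by_cases h3 : b = 3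
  · subst h3
    norm_num
  by_cases h4 : b = 4
  · subst h4
    norm_num
  rw [if_neg h1, if_neg h2, if_neg h3, if_neg h4]
  norm_num

theorem st_dvdPow (k : ℕ) : ∀ n, (5 : ℤ_[5]) ^ ((2 * n + k + 4) / 5) ∣ coeff n (stU ^ k) := by
  induction k with
  | zero =>
    intro n
    rw [pow_zero, coeff_one]
    split_ifs with h
    · subst h
      norm_num
    · exact dvd_zero _
  | succ k ih =>
    intro n
    rw [pow_succ, coeff_mul]
    refine Finset.dvd_sum fun ab hab => ?_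
    rw [Finset.HasAntidiagonal.mem_antidiagonal] at hab
    have h1 := mul_dvd_mul (ih ab.1) (st_dvdU ab.2)
    rw [← pow_add] at h1
    exact (pow_dvd_pow _ (by omega)).trans h1

theorem st_ell (k n : ℕ) : ∃ l : ℤ_[5], ((k + 1 : ℕ) : ℤ_[5]) * l = coeff n (stU ^ (k + 1)) ∧
    (5 : ℤ_[5]) ^ ((2 * n + 4) / 5) ∣ l := by
  obtain ⟨v, t, ht, hv⟩ := Nat.exists_eq_pow_mul_and_not_dvd (n := k + 1) (by omega) 5 (by norm_num)
  have htu : IsUnit ((t : ℕ) : ℤ_[5]) := by
    rw [PadicInt.isUnit_iff, PadicInt.norm_natCast_eq_one_iff]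
    exact (Nat.Prime.coprime_iff_not_dvd (by norm_num)).2 ht
  obtain ⟨t', ht'⟩ := htu.exists_right_inv
  have hvk : 5 * v ≤ k + 1 := by
    have ht0 : 1 ≤ t := by
      rcases Nat.eq_zero_or_pos t with rfl | h
      · exact absurd (dvd_zero 5) ht
      · exact h
    have h1 : ∀ v : ℕ, 5 * v ≤ 5 ^ v := by
      intro v
      induction v with
      | zero => norm_num
      | succ v ih =>
        rw [pow_succ]
        have : 1 ≤ 5 ^ v := Nat.one_le_pow _ _ (by norm_num)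
        omega
    calc 5 * v ≤ 5 ^ v := h1 v
      _ = 5 ^ v * 1 := (mul_one _).symm
      _ ≤ 5 ^ v * t := Nat.mul_le_mul_left _ ht0
      _ = k + 1 := hv.symm
  obtain ⟨c, hc⟩ := (pow_dvd_pow (5 : ℤ_[5])
    (show v + (2 * n + 4) / 5 ≤ (2 * n + (k + 1) + 4) / 5 by omega)).trans (st_dvdPow (k + 1) n)
  refine ⟨5 ^ ((2 * n + 4) / 5) * (t' * c), ?_, dvd_mul_right _ _⟩
  rw [hc, hv, pow_add]
  push_cast
  linear_combination (5 ^ v * 5 ^ ((2 * n + 4) / 5) * c) * ht'

/-- `[T^n] U^(k+1)/(k+1)`. -/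
def stl (k n : ℕ) : ℤ_[5] := (st_ell k n).choose

theorem stl_mul (k n : ℕ) : ((k + 1 : ℕ) : ℤ_[5]) * stl k n = coeff n (stU ^ (k + 1)) :=
  (st_ell k n).choose_spec.1

theorem stl_dvd (k n : ℕ) : (5 : ℤ_[5]) ^ ((2 * n + 4) / 5) ∣ stl k n :=
  (st_ell k n).choose_spec.2

/-- `log Q`. -/
def stL : PowerSeries ℤ_[5] :=
  PowerSeries.mk fun n => ∑ k ∈ Finset.range n, (-1) ^ k * stl k n

theorem stL_dvd (n : ℕ) : (5 : ℤ_[5]) ^ ((2 * n + 4) / 5) ∣ coeff n stL := by
  rw [stL, coeff_mk]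
  exact Finset.dvd_sum fun k _ => Dvd.dvd.mul_left (stl_dvd k n) _

theorem stL_const : constantCoeff stL = 0 := by
  rw [← coeff_zero_eq_constantCoeff_apply, stL, coeff_mk]
  rfl

theorem st_QQi : Qser5 ℤ_[5] * Qi ℤ_[5] = 1 := by
  apply mul_invOfUnit
  unfold Qser5
  simp

theorem stl_der (k m : ℕ) : stl k (m + 1) * ((m : ℤ_[5]) + 1) =
    coeff m (stU ^ k * derivative ℤ_[5] stU) := by
  have h1 : derivative ℤ_[5] (stU ^ (k + 1)) =
      ((k + 1 : ℕ) : PowerSeries ℤ_[5]) * (stU ^ k * derivative ℤ_[5] stU) := by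
    rw [derivative_pow]
    simp only [Nat.add_sub_cancel]
    ring
  have h2 := congrArg (coeff m) h1
  rw [coeff_derivative, ← stl_mul] at h2
  have h3 : ((k + 1 : ℕ) : PowerSeries ℤ_[5]) = C ((k + 1 : ℕ) : ℤ_[5]) := by
    rw [map_natCast]
  rw [h3, coeff_C_mul, mul_assoc] at h2
  have h4 : ((k + 1 : ℕ) : ℤ_[5]) ≠ 0 := by
    rw [Nat.cast_ne_zero]
    omega
  exact mul_left_cancel₀ h4 h2

theorem stL_der : derivative ℤ_[5] stL = derivative ℤ_[5] stU * Qi ℤ_[5] := by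
  ext m
  have h1 : coeff m (derivative ℤ_[5] stL) =
      coeff m (derivative ℤ_[5] stU * ∑ k ∈ Finset.range (m + 1), (-stU) ^ k) := by
    rw [coeff_derivative, stL, coeff_mk, Finset.sum_mul, Finset.mul_sum, map_sum]
    refine Finset.sum_congr rfl fun k _ => ?_
    rw [mul_assoc, stl_der]
    have e : derivative ℤ_[5] stU * (-stU) ^ k =
        C ((-1 : ℤ_[5]) ^ k) * (stU ^ k * derivative ℤ_[5] stU) := by
      rw [map_pow, map_neg, map_one, neg_pow stU k]
      ring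
    rw [e, coeff_C_mul]
  have h2 : (∑ k ∈ Finset.range (m + 1), (-stU) ^ k) * (1 - (-stU)) = 1 - (-stU) ^ (m + 1) :=
    geom_sum_mul_neg _ _
  have h3 : (∑ k ∈ Finset.range (m + 1), (-stU) ^ k) =
      Qi ℤ_[5] - (-stU) ^ (m + 1) * Qi ℤ_[5] := by
    have h4 := st_QQi
    rw [st_Q] at h4
    linear_combination (-(∑ k ∈ Finset.range (m + 1), (-stU) ^ k)) * h4 + Qi ℤ_[5] * h2
  have h5 : (X : PowerSeries ℤ_[5]) ∣ -stU := by
    rw [dvd_neg]
    refine ⟨C 5 + C 15 * X + C 25 * X ^ 2 + C 25 * X ^ 3, ?_⟩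
    unfold stU
    ring
  have h6 : coeff m (derivative ℤ_[5] stU * ((-stU) ^ (m + 1) * Qi ℤ_[5])) = 0 := by
    have h7 : (X : PowerSeries ℤ_[5]) ^ (m + 1) ∣
        derivative ℤ_[5] stU * ((-stU) ^ (m + 1) * Qi ℤ_[5]) :=
      Dvd.dvd.mul_left (Dvd.dvd.mul_right (pow_dvd_pow_of_dvd h5 _) _) _
    exact (X_pow_dvd_iff.1 h7) m (by omega)
  rw [h1, h3, mul_sub, map_sub, h6, sub_zero]

/-- derivative of `1/Q` -/
theorem stQi_der : derivative ℤ_[5] (Qi ℤ_[5]) =
    -(derivative ℤ_[5] stU * Qi ℤ_[5]) * Qi ℤ_[5] := by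
  have h1 := congrArg (derivative ℤ_[5]) st_QQi
  rw [st_Q, Derivation.leibniz, Derivation.map_one_eq_zero, map_add,
    Derivation.map_one_eq_zero, zero_add, smul_eq_mul, smul_eq_mul] at h1
  have h2 := st_QQi
  rw [st_Q] at h2
  linear_combination Qi ℤ_[5] * h1 - derivative ℤ_[5] (Qi ℤ_[5]) * h2

theorem stQi_pow_der (n : ℕ) : derivative ℤ_[5] (Qi ℤ_[5] ^ n) =
    -(C (n : ℤ_[5]) * (derivative ℤ_[5] stU * Qi ℤ_[5])) * Qi ℤ_[5] ^ n := by
  induction n with
  | zero =>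
    rw [pow_zero, Derivation.map_one_eq_zero, Nat.cast_zero, map_zero]
    ring
  | succ n ih =>
    rw [pow_succ, Derivation.leibniz, ih, stQi_der, smul_eq_mul, smul_eq_mul]
    push_cast
    rw [map_add, map_one]
    ring

theorem st_map_der {R S : Type*} [CommRing R] [CommRing S] (f : R →+* S) (F : PowerSeries R) :
    PowerSeries.map f (derivative R F) = derivative S (PowerSeries.map f F) := by
  ext m
  rw [coeff_map, coeff_derivative, coeff_derivative, coeff_map, map_mul, map_add, map_natCast,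
    map_one]

theorem st_th0 : constantCoeff (-(thQ ℤ_[5] * Qi ℤ_[5])) = 0 := by
  rw [map_neg, map_mul]
  unfold thQ
  simp

theorem st_one_th : 1 + C (((5 : ℕ) : ℤ_[5])) * (-(thQ ℤ_[5] * Qi ℤ_[5])) = Qi ℤ_[5] := by
  have h1 := st_QQi
  have h2 : Qser5 ℤ_[5] = 1 + C (5 : ℤ_[5]) * thQ ℤ_[5] := by
    unfold Qser5 thQ
    have e1 : (C (15 : ℤ_[5]) : PowerSeries ℤ_[5]) = C 5 * C 3 := by
      rw [← map_mul]
      norm_num
    have e2 : (C (25 : ℤ_[5]) : PowerSeries ℤ_[5]) = C 5 * C 5 := by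
      rw [← map_mul]
      norm_num
    rw [e1, e2]
    ring
  rw [h2] at h1
  push_cast
  linear_combination (-1) * h1

/-- `-y log Q`. -/
def stE : PowerSeries Zy :=
  -(C (Polynomial.X : Zy) * PowerSeries.map Polynomial.C stL)

theorem st_isE : IsE stE LY where
  e0 := by
    unfold stE
    rw [map_neg, map_mul, ← coeff_zero_eq_constantCoeff_apply (PowerSeries.map _ _), coeff_map,
      coeff_zero_eq_constantCoeff_apply, stL_const, map_zero, mul_zero, neg_zero]
  f0 := MatU.Lpow_const 5 st_th0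
  der := by
    apply MatU.ext_nat
    intro n
    have h1 : PowerSeries.map (Polynomial.evalRingHom (n : ℤ_[5])) LY = Qi ℤ_[5] ^ n := by
      unfold LY
      rw [MatU.Lpow_eval 5 st_th0, st_one_th]
    have h2 : PowerSeries.map (Polynomial.evalRingHom (n : ℤ_[5])) stE =
        -(C (n : ℤ_[5]) * stL) := by
      unfold stE
      rw [map_neg, map_mul, map_C, Polynomial.coe_evalRingHom, Polynomial.eval_X]
      congr 2
      ext m
      rw [coeff_map, coeff_map, Polynomial.coe_evalRingHom, Polynomial.eval_C]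
    rw [map_mul, st_map_der, st_map_der, h1, h2, stQi_pow_der, map_neg, Derivation.leibniz,
      derivative_C, smul_zero, add_zero, smul_eq_mul, stL_der]

theorem st_bd : Bd phE stE := by
  intro n j
  have h1 : (coeff n stE).coeff j = if j = 1 then -(coeff n stL) else 0 := by
    unfold stE
    rw [map_neg, coeff_C_mul, coeff_map, Polynomial.coeff_neg, Polynomial.X_mul_C,
      Polynomial.coeff_C_mul_X]
    by_cases h : j = 1
    · subst h
      simp
    · have h' : ¬ (1 = j) := fun e => h e.symm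
      simp [h, h']
  rw [h1]
  split_ifs with h
  · subst h
    rw [dvd_neg]
    rcases Nat.eq_zero_or_pos n with rfl | hn
    · rw [coeff_zero_eq_constantCoeff_apply, stL_const]
      exact dvd_zero _
    · have : phE n 1 = (2 * n + 4) / 5 := by
        unfold phE
        apply max_eq_left
        omega
      rw [this]
      exact stL_dvd n
  · exact dvd_zero _

theorem spStart : SpStart := ⟨stE, st_isE, st_bd⟩

end GH.M5
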