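import Pool.Agent.GH.M5.Step_a

/-! Helper file for row GH5-A4: the case `5 ∣ N`. -/

open PowerSeries

noncomputable section

namespace GH.M5

open GH.D5 GH.CombU

theorem s4_rec {n : ℕ} (hn : 1 ≤ n) {c : Zy} {G : PowerSeries Zy} (hG : IsE (C c * X ^ n) G)
    (m : ℕ) : ((m : Zy) + 1) * coeff (m + 1) G =
      if n ≤ m + 1 then c * n * coeff (m + 1 - n) G else 0 := by
  have h1 := congrArg (coeff m) hG.der
  have h2 : derivative Zy (C c * X ^ n : PowerSeries Zy) = C (c * n) * X ^ (n - 1) := by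
    ext1 k
    rw [coeff_derivative, coeff_C_mul, coeff_X_pow, coeff_C_mul, coeff_X_pow]
    by_cases hk : k + 1 = n
    · rw [if_pos hk, if_pos (by omega), ← hk]
      push_cast
      ring
    · rw [if_neg hk, if_neg (by omega)]
      ring
  rw [h2, coeff_derivative, mul_assoc, coeff_C_mul, coeff_X_pow_mul'] at h1
  by_cases h : n ≤ m + 1
  · rw [if_pos (by omega)] at h1
    rw [if_pos h, mul_comm, h1]
    congr 3
    omega
  · rw [if_neg (by omega), mul_zero] at h1
    rw [if_neg h, mul_comm, h1]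

theorem s4_G_coeff {n : ℕ} (hn : 1 ≤ n) {c : Zy} {G : PowerSeries Zy}
    (hG : IsE (C c * X ^ n) G) :
    (∀ l, ¬ n ∣ l → coeff l G = 0) ∧ ∀ k, (k.factorial : Zy) * coeff (n * k) G = c ^ k := by
  have hne : ∀ m : ℕ, ((m : Zy) + 1) ≠ 0 := fun m => by exact_mod_cast m.succ_ne_zero
  constructor
  · intro l
    induction l using Nat.strong_induction_on with
    | _ l ih =>
      intro hl
      rcases l with _ | l
      · exact absurd (dvd_zero n) hl
      · have h1 := s4_rec hn hG l
        have h2 : ((l : Zy) + 1) * coeff (l + 1) G = 0 := by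
          rw [h1]
          split_ifs with h
          · have h3 : ¬ n ∣ l + 1 - n := by
              intro h4
              apply hl
              have h5 := Nat.dvd_add h4 (dvd_refl n)
              rwa [Nat.sub_add_cancel h] at h5
            rw [ih _ (by omega) h3, mul_zero]
          · rfl
        exact (mul_eq_zero.1 h2).resolve_left (hne l)
  · intro k
    induction k with
    | zero =>
      rw [mul_zero, coeff_zero_eq_constantCoeff_apply, hG.f0]
      simp
    | succ k ih =>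
      have h1 : n * (k + 1) = (n * (k + 1) - 1) + 1 := by
        have : 1 ≤ n * (k + 1) := Nat.one_le_iff_ne_zero.2 (by positivity)
        omega
      have h2 := s4_rec hn hG (n * (k + 1) - 1)
      rw [← h1, if_pos (Nat.le_mul_of_pos_right n (by omega)),
        show n * (k + 1) - n = n * k by rw [Nat.mul_succ, Nat.add_sub_cancel]] at h2
      have h3 : (((n * (k + 1) - 1 : ℕ) : Zy) + 1) = (n : Zy) * (k + 1) := by
        have : (((n * (k + 1) - 1 : ℕ) : Zy) + 1) = (((n * (k + 1) - 1 + 1 : ℕ)) : Zy) := by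
          push_cast
          ring
        rw [this, ← h1]
        push_cast
        ring
      rw [h3] at h2
      have hn0 : (n : Zy) ≠ 0 := by
        have : n ≠ 0 := by omega
        exact_mod_cast this
      have h4 : ((k : Zy) + 1) * coeff (n * (k + 1)) G = c * coeff (n * k) G := by
        refine mul_left_cancel₀ hn0 ?_
        linear_combination h2
      rw [Nat.factorial_succ, pow_succ, ← ih]
      push_cast
      linear_combination (k.factorial : Zy) * h4

theorem s4_G_bd {n : ℕ} (hn : 1 ≤ n) {c : Zy} {G : PowerSeries Zy}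
    (hG : IsE (C c * X ^ n) G) (hc : Polynomial.C ((5 : ℤ_[5]) ^ (2 * n)) ∣ c) (l : ℕ) :
    Polynomial.C ((5 : ℤ_[5]) ^ ((7 * (l + 1) + 4) / 4)) ∣ coeff (l + 1) G := by
  obtain ⟨h1, h2⟩ := s4_G_coeff hn hG
  by_cases hl : n ∣ l + 1
  swap
  · rw [h1 _ hl]
    exact dvd_zero _
  obtain ⟨k, hk⟩ := hl
  have hk1 : 1 ≤ k := by
    rcases k with _ | k
    · rw [mul_zero] at hk
      omega
    · omega
  obtain ⟨v, t, ht, hv, hf⟩ := s4_fact k hk1
  have h3 := h2 k
  rw [← hk] at h3
  have h4 : Polynomial.C ((5 : ℤ_[5]) ^ (2 * n * k)) ∣ c ^ k := by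
    rw [pow_mul, map_pow]
    exact pow_dvd_pow_of_dvd hc k
  have h5 : (k.factorial : Zy) = Polynomial.C ((5 : ℤ_[5]) ^ v) * Polynomial.C t := by
    rw [← map_mul, ← hf]
    simp
  have hnk : k ≤ n * k := Nat.le_mul_of_pos_left k (by omega)
  have h6 : 2 * n * k = (2 * n * k - v) + v := by
    have : 2 * n * k = 2 * (n * k) := by ring
    omega
  obtain ⟨w, hw⟩ := h4
  rw [← h3, h5, h6, pow_add, map_mul] at hw
  have h7 : Polynomial.C ((5 : ℤ_[5]) ^ v) ≠ 0 := by
    rw [Ne, Polynomial.C_eq_zero]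
    exact pow_ne_zero _ (by norm_num)
  have h8 : Polynomial.C t * coeff (l + 1) G =
      Polynomial.C ((5 : ℤ_[5]) ^ (2 * n * k - v)) * w := by
    refine mul_left_cancel₀ h7 ?_
    linear_combination hw
  obtain ⟨t', ht'⟩ := ht.exists_left_inv
  have h9 : (Polynomial.C t' : Zy) * Polynomial.C t = 1 := by
    rw [← map_mul, ht', map_one]
  have h10 : Polynomial.C ((5 : ℤ_[5]) ^ (2 * n * k - v)) ∣ coeff (l + 1) G := by
    refine ⟨Polynomial.C t' * w, ?_⟩
    linear_combination (-coeff (l + 1) G) * h9 + Polynomial.C t' * h8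
  refine dvd_trans ?_ h10
  refine map_dvd Polynomial.C (pow_dvd_pow _ ?_)
  have h11 : 2 * n * k = 2 * (n * k) := by ring
  rw [h11, hk]
  omega

theorem s4_case2 (h1 : SpExp) (n : ℕ) (hn : 1 ≤ n) (E R : PowerSeries Zy) (hER : IsE E R)
    (hE : Bd phE E) (hX : X ^ (5 * n) ∣ E) :
    ∃ G E' R' : PowerSeries Zy, constantCoeff G = 1 ∧
      (∀ l, Polynomial.C ((5 : ℤ_[5]) ^ ((7 * (l + 1) + 4) / 4)) ∣ coeff (l + 1) G) ∧
      IsE E' R' ∧ Bd phE E' ∧ X ^ (5 * n + 1) ∣ E' ∧ R = G.subst (gT Zy) * R' := by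
  have h55 : Fact (Nat.Prime 5) := ⟨by norm_num⟩
  obtain ⟨c, hc⟩ : ∃ c : Zy, c = coeff (5 * n) E := ⟨_, rfl⟩
  obtain ⟨v, hv⟩ : ∃ v, v = padicValNat 5 n := ⟨_, rfl⟩
  have hv5 : padicValNat 5 (5 * n) = 1 + v := by
    rw [padicValNat.mul (by norm_num) (by omega), padicValNat_self, hv]
  have hcd : ∀ j, (5 : ℤ_[5]) ^ (max (2 * n) (j - (1 + v))) ∣ c.coeff j := by
    intro j
    have h3 := hE (5 * n) j
    rw [← hc, phE, hv5] at h3
    have h4 : (2 * (5 * n) + 4) / 5 = 2 * n := by omega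
    rwa [h4] at h3
  have hcC : Polynomial.C ((5 : ℤ_[5]) ^ (2 * n)) ∣ c := by
    rw [Polynomial.C_dvd_iff_dvd_coeff]
    intro j
    exact (pow_dvd_pow _ (le_max_left _ _)).trans (hcd j)
  -- the exponential
  have hE00 : constantCoeff (C c * X ^ n : PowerSeries Zy) = 0 := by
    rw [map_mul, map_pow, constantCoeff_X, zero_pow (by omega), mul_zero]
  have hE05 : C (Polynomial.C (5 : ℤ_[5])) ∣ (C c * X ^ n : PowerSeries Zy) := by
    refine Dvd.dvd.mul_right (map_dvd _ ?_) _
    refine dvd_trans (map_dvd _ ?_) hcC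
    exact dvd_pow_self _ (by omega)
  obtain ⟨G, hG⟩ := h1.1 _ hE00 hE05
  have hs : HasSubst (gT Zy) := HasSubst.of_constantCoeff_zero' s4_gT_const
  have hGs := s4_isE_subst s4_gT_const hG
  have hE0s : ((C c * X ^ n : PowerSeries Zy).subst (gT Zy) : PowerSeries Zy) =
      C c * gT Zy ^ n := by
    rw [subst_mul hs, s4_subst_C hs, subst_pow hs, subst_X hs]
  rw [hE0s] at hGs
  -- the coefficients of `c g^n`
  have hco : ∀ m, coeff m (C c * gT Zy ^ n : PowerSeries Zy) =
      if 5 * n ≤ m then c * Polynomial.C (coeff (m - 5 * n) (Qi ℤ_[5] ^ n)) else 0 := by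
    intro m
    have h3 : gT Zy ^ n = X ^ (5 * n) * PowerSeries.map Polynomial.C (Qi ℤ_[5] ^ n) := by
      unfold gT
      rw [mul_pow, ← pow_mul, map_pow, s4_map_Qi]
    rw [h3, coeff_C_mul, coeff_X_pow_mul']
    split_ifs with h
    · rw [coeff_map]
    · rw [mul_zero]
  have hE' : Bd phE (E - C c * gT Zy ^ n) := by
    intro m j
    rw [map_sub, hco, Polynomial.coeff_sub]
    split_ifs with h
    · obtain ⟨k, rfl⟩ := Nat.exists_eq_add_of_le h
      rw [Nat.add_sub_cancel_left, Polynomial.coeff_mul_C]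
      rcases Nat.eq_zero_or_pos k with rfl | hk
      · rw [add_zero, ← hc, coeff_zero_eq_constantCoeff_apply, map_pow, s4_Qi_const, one_pow,
          mul_one, sub_self]
        exact dvd_zero _
      · refine dvd_sub (hE _ j) ?_
        have d1 := s4_M_pow s4_M_Qi n k
        have d2 := s4_Qi_pow n v (by rw [hv]; exact pow_padicValNat_dvd) k hk
        have d3 : (5 : ℤ_[5]) ^ (max ((2 * k + 4) / 5) (1 + v)) ∣ coeff k (Qi ℤ_[5] ^ n) := by
          rcases le_total ((2 * k + 4) / 5) (1 + v) with h4 | h4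
          · rwa [max_eq_right h4]
          · rwa [max_eq_left h4]
        have d4 := mul_dvd_mul (hcd j) d3
        rw [← pow_add] at d4
        refine (pow_dvd_pow _ ?_).trans d4
        simp only [phE]
        omega
    · rw [Polynomial.coeff_zero, sub_zero]
      exact hE m j
  have hE'0 : constantCoeff (E - C c * gT Zy ^ n) = 0 := by
    rw [map_sub, hER.e0, hGs.e0, sub_zero]
  obtain ⟨R', hR'⟩ := h1.1 _ hE'0 (s4_dvd5 hE' hE'0)
  refine ⟨G, _, R', hG.f0, s4_G_bd hn hG hcC, hR', hE', ?_, ?_⟩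
  · rw [X_pow_dvd_iff] at hX ⊢
    intro m hm
    rw [map_sub, hco]
    split_ifs with h
    · have : m = 5 * n := by omega
      rw [this, ← hc, Nat.sub_self, coeff_zero_eq_constantCoeff_apply, map_pow, s4_Qi_const,
        one_pow, map_one, mul_one, sub_self]
    · rw [hX m (by omega), sub_zero]
  · have h3 := h1.2.2.2 _ _ _ _ hGs hR'
    rw [add_sub_cancel] at h3
    exact h1.2.2.1 _ _ _ hER h3

end GH.M5
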