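import Pool.Agent.GH.M5.Step_b
import Pool.Agent.GH.M5.Step_c

/-! Row GH5-A4: one step of the Artin-Hasse elimination. -/

open PowerSeries

noncomputable section

namespace GH.M5

open GH.D5 GH.CombU

theorem spStep (h1 : SpExp) (h2 : SpAH) : SpStep := by
  intro N E R hN hER hE hX
  by_cases h5 : 5 ∣ N
  · obtain ⟨n, rfl⟩ := h5
    obtain ⟨G, E', R', hG0, hG, hR', hE', hX', hR⟩ :=
      s4_case2 h1 n (by omega) E R hER hE hX
    refine ⟨1, G, E', R', s4_Bd_one s4_phA_zero, hG0, hG, hR', hE', hX', ?_⟩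
    rw [one_mul]
    exact hR
  · obtain ⟨A, E', R', hA, hR', hE', hX', hR⟩ := s4_case1 h1 h2 N E R hN h5 hER hE hX
    have hs : HasSubst (gT Zy) := HasSubst.of_constantCoeff_zero' s4_gT_const
    refine ⟨A, 1, E', R', hA, map_one _, fun l => ?_, hR', hE', hX', ?_⟩
    · rw [coeff_one, if_neg (by omega)]
      exact dvd_zero _
    · rw [s4_subst_one hs, mul_one]
      exact hR

end GH.M5
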