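import Pool.Agent.GH.Pot.Defs

/-!
# GH5-W0: expansion of the minors of a product `W N`, and two sum inequalities
-/

open Finset

namespace GH.M5

/-- Expansion of a minor along a lower triangular Toeplitz factor. -/
theorem minor_mem {S : Type*} [CommRing S] (I : Ideal S) {n : ℕ} (M N : ℕ → ℕ → S) (W : ℕ → S)
    (a b : Fin n → ℕ)
    (hM : ∀ i j, M (a i) (b j) = ∑ l ∈ Finset.range (a i + 1), W (a i - l) * N l (b j))
    (h : ∀ k : Fin n → ℕ, (∀ i, k i ≤ a i) → Function.Injective k → ∀ s : Equiv.Perm (Fin n),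
      (∏ i, W (a i - k i)) * (∏ j, N (k (s j)) (b j)) ∈ I) : Pot.minor M a b ∈ I := by
  have e1 : Pot.minor M a b = Matrix.detRowAlternating
      (fun i : Fin n ↦ ∑ l ∈ range (a i + 1), (W (a i - l) • fun j : Fin n ↦ N l (b j))) := by
    have e0 : (Matrix.of fun i j ↦ M (a i) (b j)) =
        (fun i : Fin n ↦ ∑ l ∈ range (a i + 1), (W (a i - l) • fun j : Fin n ↦ N l (b j))) := by
      funext i j
      rw [Matrix.of_apply, hM, Finset.sum_apply]
      exact Finset.sum_congr rfl fun l _ ↦ rfl
    exact congrArg (fun A : Matrix (Fin n) (Fin n) S ↦ Matrix.detRowAlternating A) e0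
  have e2 : Pot.minor M a b = ∑ k ∈ Fintype.piFinset (fun i : Fin n ↦ range (a i + 1)),
      (∏ i, W (a i - k i)) * Matrix.det (Matrix.of fun i j : Fin n ↦ N (k i) (b j)) := by
    rw [e1]
    have := MultilinearMap.map_sum_finset
      (Matrix.detRowAlternating (R := S) (n := Fin n)).toMultilinearMap
      (fun (i : Fin n) (l : ℕ) ↦ (W (a i - l) • fun j : Fin n ↦ N l (b j)))
      (fun i : Fin n ↦ range (a i + 1))
    refine this.trans (Finset.sum_congr rfl fun k _ ↦ ?_)
    exact MultilinearMap.map_smul_univ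
      (Matrix.detRowAlternating (R := S) (n := Fin n)).toMultilinearMap
      (fun i ↦ W (a i - k i)) (fun (i : Fin n) (j : Fin n) ↦ N (k i) (b j))
  rw [e2]
  refine I.sum_mem fun k hk ↦ ?_
  rw [Fintype.mem_piFinset] at hk
  by_cases hi : Function.Injective k
  · rw [Matrix.det_apply, Finset.mul_sum]
    refine I.sum_mem fun s _ ↦ ?_
    have h1 := h k (fun i ↦ by have := mem_range.1 (hk i); omega) hi s
    have e3 : (∏ i, W (a i - k i)) *
        (Equiv.Perm.sign s • ∏ i, (Matrix.of fun i j : Fin n ↦ N (k i) (b j)) (s i) i) =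
        ((Equiv.Perm.sign s : ℤ) : S) * ((∏ i, W (a i - k i)) * (∏ j, N (k (s j)) (b j))) := by
      rw [Units.smul_def, zsmul_eq_mul]
      simp only [Matrix.of_apply]
      ring
    rw [e3]
    exact I.mul_mem_left _ h1
  · have h0 : Matrix.det (Matrix.of fun i j : Fin n ↦ N (k i) (b j)) = 0 := by
      unfold Function.Injective at hi
      push Not at hi
      obtain ⟨i, j, h2, h3⟩ := hi
      refine Matrix.det_zero_of_row_eq h3 ?_
      funext l
      simp only [Matrix.of_apply, h2]
    rw [h0, mul_zero]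
    exact I.zero_mem

lemma sum_card_le (r : ℕ → ℕ) (hr : Monotone r) (s : Finset ℕ) :
    ∑ i ∈ range s.card, r i ≤ ∑ x ∈ s, r x := by
  induction s using Finset.induction_on_max with
  | empty => simp
  | insert x s hx ih =>
    have hxs : x ∉ s := fun h ↦ lt_irrefl _ (hx x h)
    have hc : s.card ≤ x := by
      have : s ⊆ range x := fun y hy ↦ mem_range.2 (hx y hy)
      simpa using card_le_card this
    rw [card_insert_of_notMem hxs, sum_range_succ, sum_insert hxs, add_comm]
    exact Nat.add_le_add (hr hc) ih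

lemma sum_card_lt (r : ℕ → ℕ) (hr : StrictMono r) (s : Finset ℕ) (x0 : ℕ) (h0 : x0 ∈ s)
    (h1 : s.card ≤ x0) : ∑ i ∈ range s.card, r i + 1 ≤ ∑ x ∈ s, r x := by
  induction s using Finset.induction_on_max with
  | empty => simp at h0
  | insert x s hx ih =>
    have hxs : x ∉ s := fun h ↦ lt_irrefl _ (hx x h)
    rw [card_insert_of_notMem hxs] at h1 ⊢
    have hx0 : x0 ≤ x := by
      rcases mem_insert.1 h0 with h | h
      · exact h.le
      · exact (hx x0 h).le
    have h2 := sum_card_le r hr.monotone s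
    have h3 : r s.card < r x := hr (by omega)
    rw [sum_range_succ, sum_insert hxs]
    omega

theorem sum_mono_le {n : ℕ} (r : ℕ → ℕ) (hr : Monotone r) (k : Fin n → ℕ)
    (hk : Function.Injective k) : ∑ i ∈ Finset.range n, r i ≤ ∑ i, r (k i) := by
  have h := sum_card_le r hr (univ.image k)
  rw [card_image_of_injective _ hk, card_univ, Fintype.card_fin,
    sum_image fun x _ y _ e ↦ hk e] at h
  exact h

theorem sum_strictMono_lt {n : ℕ} (r : ℕ → ℕ) (hr : StrictMono r) (k : Fin n → ℕ)
    (hk : Function.Injective k) (i0 : Fin n) (hi : n ≤ k i0) :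
    (∑ i ∈ Finset.range n, r i) + 1 ≤ ∑ i, r (k i) := by
  have h := sum_card_lt r hr (univ.image k) (k i0) (mem_image_of_mem k (mem_univ i0))
    (by rw [card_image_of_injective _ hk, card_univ, Fintype.card_fin]; exact hi)
  rw [card_image_of_injective _ hk, card_univ, Fintype.card_fin,
    sum_image fun x _ y _ e ↦ hk e] at h
  exact h

end GH.M5
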