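import Pool.Agent.GH.M5.Stm
import Pool.Agent.GH.M5.MinExp

/-!
# GH5-MAT, row W4: principal minors at the root
-/

noncomputable section

namespace GH.M5

open GH.D5 GH.CombU

namespace St

/-- The exponent of `W d`. -/
def ww (d : ℕ) : ℕ := if d = 0 then 0 else (7 * d + 4) / 4

/-- The exponents of a column. -/
def F (e a : ℕ) : ℕ := 3 * (a + 1) - 2 * ((2 * (a + 1) + 4 * (1 - e)) / 5)

theorem strictMono_F (e : ℕ) (he : e ≤ 1) : StrictMono (F e) := by
  refine strictMono_nat_of_lt_succ fun a ↦ ?_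
  unfold F
  interval_cases e <;> omega

theorem two_ww (d : ℕ) : 3 * d ≤ 2 * ww d := by
  unfold ww
  split_ifs with h <;> omega

theorem B5_eq (e n : ℕ) (he : e ≤ 1) :
    ∑ i ∈ Finset.range n, (i + 1) + ∑ i ∈ Finset.range n, F e i = 2 * B5 e n := by
  unfold B5
  rw [← Finset.sum_add_distrib, Finset.mul_sum]
  refine Finset.sum_congr rfl fun i _ ↦ ?_
  unfold F
  interval_cases e <;> omega

theorem rr_ge (e i j : ℕ) : 2 * (i + 1) ≤ rr e i j + (2 * (j + 1) + 4 * (1 - e)) / 5 := by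
  unfold rr
  omega

theorem F_eq (e a : ℕ) : F e a + 2 * ((2 * (a + 1) + 4 * (1 - e)) / 5) = 3 * (a + 1) := by
  unfold F
  omega

theorem prod_C {n : ℕ} (f : Fin n → ℕ) :
    ∏ i, Polynomial.C ((5 : ℤ_[5]) ^ f i) = Polynomial.C ((5 : ℤ_[5]) ^ ∑ i, f i) := by
  rw [← map_prod, Finset.prod_pow_eq_pow_sum]

/-- The numerical inequality. -/
theorem num {e n : ℕ} (he : e ≤ 1) (a k : Fin n → ℕ) (ha : Function.Injective a)
    (hk : Function.Injective k) (hka : ∀ i, k i ≤ a i) (s : Equiv.Perm (Fin n)) (i0 : Fin n)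
    (hi : n ≤ a i0) :
    B5 e n + 1 ≤ ∑ i, ww (a i - k i) + ∑ j, rr e (k (s j)) (a j) := by
  have h1 : ∑ j, 2 * (k (s j) + 1) ≤
      ∑ j, (rr e (k (s j)) (a j) + (2 * (a j + 1) + 4 * (1 - e)) / 5) :=
    Finset.sum_le_sum fun j _ ↦ rr_ge e _ _
  have h2 : ∑ j, 2 * (k (s j) + 1) = ∑ j, 2 * (k j + 1) :=
    Equiv.sum_comp s fun j ↦ 2 * (k j + 1)
  have h3 : ∑ j, (F e (a j) + 2 * ((2 * (a j + 1) + 4 * (1 - e)) / 5)) = ∑ j, 3 * (a j + 1) :=
    Finset.sum_congr rfl fun j _ ↦ F_eq e _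
  have h4 : ∑ j, 3 * (a j + 1) ≤ ∑ j, (2 * ww (a j - k j) + 3 * (k j + 1)) := by
    refine Finset.sum_le_sum fun j _ ↦ ?_
    have h5 := two_ww (a j - k j)
    have h6 := hka j
    omega
  have h7 := sum_mono_le (n := n) (fun i ↦ i + 1) (fun x y h ↦ by simpa using h) k hk
  have h8 := sum_strictMono_lt (F e) (strictMono_F e he) a ha i0 hi
  have h9 := B5_eq e n he
  simp only [Finset.sum_add_distrib, ← Finset.mul_sum] at h1 h2 h3 h4 h7 h9 ⊢
  omega

end St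

theorem spStrict (h : SpWN) : SpStrict := by
  intro e n a he ha ⟨i0, hi0⟩
  obtain ⟨W, N, hW0, hW, hN, -, hM⟩ := h e he (Finset.univ.sup a + 1)
  have hWd : ∀ d, Polynomial.C ((5 : ℤ_[5]) ^ St.ww d) ∣ W d := by
    intro d
    rcases d with - | d
    · rw [hW0]
      simp [St.ww]
    · have h1 := hW d
      have h2 : St.ww (d + 1) = (7 * (d + 1) + 4) / 4 := by
        unfold St.ww
        rw [if_neg (Nat.succ_ne_zero d)]
      rw [h2]
      exact h1
  have hNd : ∀ i j, Polynomial.C ((5 : ℤ_[5]) ^ rr e i j) ∣ N i j := by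
    intro i j
    rw [Polynomial.C_dvd_iff_dvd_coeff]
    intro k
    exact (pow_dvd_pow _ (le_max_left _ _)).trans (hN i j k)
  rw [← Ideal.mem_span_singleton]
  refine minor_mem _ (PM e) N W a a (fun i j ↦ ?_) ?_
  · exact hM (a i) (Nat.lt_succ_of_le (Finset.le_sup (Finset.mem_univ i))) (a j)
  intro k hka hk s
  rw [Ideal.mem_span_singleton]
  have h1 : Polynomial.C ((5 : ℤ_[5]) ^ (∑ i, St.ww (a i - k i) + ∑ j, rr e (k (s j)) (a j))) ∣
      (∏ i, W (a i - k i)) * (∏ j, N (k (s j)) (a j)) := by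
    rw [pow_add, map_mul, ← St.prod_C, ← St.prod_C]
    exact mul_dvd_mul (Finset.prod_dvd_prod_of_dvd _ _ fun i _ ↦ hWd _)
      (Finset.prod_dvd_prod_of_dvd _ _ fun j _ ↦ hNd _ _)
  refine dvd_trans ?_ h1
  exact map_dvd Polynomial.C (pow_dvd_pow _ (St.num he a k ha.injective hk hka s i0 hi0))

end GH.M5
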