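import Pool.Agent.GH.M5.Stm
import Pool.Agent.GH.CombU.P5

/-!
# Block D of `GH.M5`: the ghost numbers (D3, D7, D8)
-/

noncomputable section

namespace GH.M5

open GH.D5 GH.CombU

theorem sm_tau {c ν m : ℕ} (hcm : m ≠ c) (h1 : c ≤ ν) (h2 : m ≤ ν) :
    Pot.tau 5 c ν m = padicValInt 5 ((c : ℤ) - m) := by
  have hne : (c : ℤ) - m ≠ 0 := by omega
  refine eq_of_forall_le_iff fun k => ?_
  have h3 := padicValInt_dvd_iff (p := 5) k ((c : ℤ) - m)
  rw [or_iff_right hne] at h3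
  rw [Pot.le_tau_iff, ← h3, Nat.modEq_iff_dvd]
  push_cast
  constructor
  · exact fun h => h.2
  · intro h
    refine ⟨?_, h⟩
    have h4 := Int.natAbs_dvd_natAbs.2 h
    rw [Int.natAbs_pow] at h4
    have h5 := Nat.le_of_dvd (Int.natAbs_pos.2 hne) h4
    have h6 : k < (5 : ℤ).natAbs ^ k := Nat.lt_pow_self (by norm_num)
    omega

theorem sm_ff {e n c ν : ℕ} (hT : T5 e n c = 0) (h1 : c ≤ ν) (h2 : Z5 n ≤ ν) :
    FF e n c = Pot.fv 5 (B5 e) Z5 (T5 e) n c ν := by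
  unfold FF Pot.fv
  congr 1
  refine Finset.sum_congr rfl fun m hm => ?_
  have h3 := Finset.mem_range.1 hm
  by_cases hmc : m = c
  · rw [hmc, hT, zero_mul, zero_mul]
  · rw [sm_tau hmc h1 (by omega)]

theorem sm_F {e : ℕ} (he : e < 2) {n z ν : ℕ} (hT : T5 e n (2 * z) = 0) (h1 : 2 * z ≤ ν)
    (h2 : Z5 n ≤ ν) : (FF e n (2 * z) : ℤ) = (sys5 e he).F ν z n := by
  rw [sm_ff hT h1 h2]
  haveI : Fact (xe5 e he).p.Prime := ⟨Nat.prime_five⟩
  exact (xe5 e he).fv_eq (c := 2 * z) (ν := ν) (z := (z : ℤ)) (by simp [xe5]) n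

/-- The floor in the duality. -/
def sm_g (e : ℕ) (he : e < 2) (ν z k : ℕ) : ℤ :=
  (sys5 e he).X z ((k : ℤ) + 1) / (sys5 e he).p ^ (ν + 1)

theorem sm_g_eq {e : ℕ} (he : e < 2) {ν z k : ℕ} (h : 3 * k + z + 10 ≤ ν) :
    sm_g e he ν z k = if k < (z - e) / 3 then -1 else 0 := by
  have h1 : ν + 1 < 5 ^ (ν + 1) := Nat.lt_pow_self (by norm_num)
  have h2 : (sys5 e he).p ^ (ν + 1) = ((5 ^ (ν + 1) : ℕ) : ℤ) := by
    push_cast
    rfl
  have h3 : (sys5 e he).X z ((k : ℤ) + 1) = 3 * ((k : ℤ) + 1) + e - z - 1 := rfl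
  unfold sm_g
  rw [h2, h3]
  generalize 5 ^ (ν + 1) = P at h1
  apply ediv_eq_of
  · split_ifs <;> omega
  · split_ifs <;> omega

theorem sm_sum {t n : ℕ} (h : t ≤ n) :
    ∑ k ∈ Finset.range n, (if k < t then (-1 : ℤ) else 0) = -t := by
  rw [← Finset.sum_filter]
  have h1 : (Finset.range n).filter (fun k => k < t) = Finset.range t := by
    ext k
    simp only [Finset.mem_filter, Finset.mem_range]
    omega
  rw [h1]
  simp

theorem sm_add {e : ℕ} (he : e < 2) {ν z n k : ℕ} (hn : n + 1 = 2 * z) (hk : k < n) :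
    (sys5 e he).inc ν z ((k : ℤ) + 1) + (sys5 e he).inc ν z (((n - 1 - k : ℕ) : ℤ) + 1) =
      (2 * n + 2 * e) - sm_g e he ν z k - sm_g e he ν z (n - 1 - k) := by
  have hM : (sys5 e he).M z = 2 * z + 0 := rfl
  have h1 := (sys5 e he).inc_add ν z ((k : ℤ) + 1)
  have h2 : (sys5 e he).M z - ((k : ℤ) + 1) = ((n - 1 - k : ℕ) : ℤ) + 1 := by
    rw [hM]
    omega
  have h3 : (sys5 e he).Y z ((k : ℤ) + 1) =
      (sys5 e he).X z (((n - 1 - k : ℕ) : ℤ) + 1) := by
    rw [← h2]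
    exact ((sys5 e he).X_refl z _).symm
  rw [h2, h3] at h1
  rw [h1, hM]
  have h4 : (sys5 e he).lin = 1 := rfl
  have h5 : (sys5 e he).C0 = e - 1 := rfl
  rw [h4, h5]
  unfold sm_g
  have h6 : (n : ℤ) + 1 = 2 * z := by exact_mod_cast hn
  linear_combination -(2 : ℤ) * h6

theorem sm_dual {e : ℕ} (he : e < 2) {ν z n : ℕ} (hn : n + 1 = 2 * z)
    (hν : 3 * n + z + 10 ≤ ν) :
    (sys5 e he).F ν z n = n * (n + e) + ((z - e) / 3 : ℕ) := by
  have h1 : (sys5 e he).F ν z n =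
      ∑ k ∈ Finset.range n, (sys5 e he).inc ν z (((n - 1 - k : ℕ) : ℤ) + 1) := by
    unfold Sys.F
    exact (Finset.sum_range_reflect (fun k => (sys5 e he).inc ν z ((k : ℤ) + 1)) n).symm
  have h2 : (sys5 e he).F ν z n + (sys5 e he).F ν z n = ∑ k ∈ Finset.range n,
      ((2 * n + 2 * e) - sm_g e he ν z k - sm_g e he ν z (n - 1 - k)) := by
    nth_rewrite 2 [h1]
    unfold Sys.F
    rw [← Finset.sum_add_distrib]
    exact Finset.sum_congr rfl fun k hk => sm_add he hn (Finset.mem_range.1 hk)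
  rw [Finset.sum_sub_distrib, Finset.sum_sub_distrib,
    Finset.sum_range_reflect (fun k => sm_g e he ν z k) n, Finset.sum_const,
    Finset.card_range] at h2
  have h3 : ∑ k ∈ Finset.range n, sm_g e he ν z k = -(((z - e) / 3 : ℕ) : ℤ) := by
    rw [← sm_sum (t := (z - e) / 3) (n := n) (by omega)]
    refine Finset.sum_congr rfl fun k hk => sm_g_eq he ?_
    have := Finset.mem_range.1 hk
    omega
  rw [h3, nsmul_eq_mul] at h2
  linarith

theorem spFOdd : SpFOdd := by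
  intro e n he hn
  obtain ⟨a, rfl⟩ := hn
  have he' : e < 2 := by omega
  have hT : T5 e (2 * a + 1) (2 * (a + 1)) = 0 := by
    unfold T5 t5
    split_ifs <;> omega
  have h1 := sm_F he' (n := 2 * a + 1) (z := a + 1) (ν := 100 * a + 100) hT (by omega)
    (by unfold Z5; omega)
  rw [sm_dual he' (by ring) (by omega)] at h1
  have h2 : 2 * a + 1 + 1 = 2 * (a + 1) := by ring
  have h3 : t5 e (2 * (a + 1)) = (a + 1 - e) / 3 := by
    unfold t5
    omega
  rw [h2, h3]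
  exact_mod_cast h1

theorem spFEven : SpFEven := by
  intro e n he hn ht
  obtain ⟨a, rfl⟩ := hn
  have he' : e < 2 := by omega
  have h2 : a + a + 2 = 2 * (a + 1) := by ring
  have h3 : t5 e (2 * (a + 1)) = (a + 1 - e) / 3 := by
    unfold t5
    omega
  rw [h2, h3] at ht
  rw [h2, h3]
  have hT : T5 e (a + a) (2 * (a + 1)) = 0 := by
    unfold T5
    rw [h3]
    split_ifs <;> omega
  have hT1 : T5 e 1 (2 * (a + 1)) = 0 := by
    unfold T5
    rw [h3]
    split_ifs <;> omega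
  have e1 := sm_F he' (n := a + a) (z := a + 1) (ν := 100 * a + 100) hT (by omega)
    (by unfold Z5; omega)
  have e2 := sm_F he' (n := 1) (z := a + 1) (ν := 100 * a + 100) hT1 (by omega)
    (by unfold Z5; omega)
  have e3 := sm_dual he' (ν := 100 * a + 100) (z := a + 1) (n := a + a + 1) (by ring) (by omega)
  have e4 := (sys5 e he').F_step (100 * a + 100) ((a + 1 : ℕ) : ℤ) (a + a)
  have e5 := (sys5 e he').F_step (100 * a + 100) ((a + 1 : ℕ) : ℤ) 0
  have e6 := sm_add he' (ν := 100 * a + 100) (z := a + 1) (n := a + a + 1) (k := a + a)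
    (by ring) (by omega)
  have e7 : a + a + 1 - 1 - (a + a) = 0 := by omega
  rw [e7, sm_g_eq he' (by omega), sm_g_eq he' (by omega), if_neg (by omega),
    if_pos (by omega)] at e6
  have e8 : (sys5 e he').F (100 * a + 100) ((a + 1 : ℕ) : ℤ) 0 = 0 := by
    unfold Sys.F
    simp
  rw [zero_add] at e5
  rw [← e1] at e4
  rw [← e2, e8, zero_add] at e5
  rw [← e5] at e6
  rw [e3] at e4
  obtain ⟨t, hteq⟩ : ∃ t, (a + 1 - e) / 3 = t + 1 := ⟨(a + 1 - e) / 3 - 1, by omega⟩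
  rw [hteq] at e4 ⊢
  obtain ⟨b, rfl⟩ : ∃ b, a = b + 1 := ⟨a - 1, by omega⟩
  have e9 : (FF e (b + 1 + (b + 1)) (2 * (b + 1 + 1)) : ℤ) =
      ((b + 1 + (b + 1) - 1 : ℕ) : ℤ) * ((b + 1 + (b + 1) + 1 + e : ℕ) : ℤ) +
      ((t + 1 - 1 : ℕ) : ℤ) + (FF e 1 (2 * (b + 1 + 1)) : ℤ) := by
    have f1 : (b + 1 + (b + 1) - 1 : ℕ) = 2 * b + 1 := by omega
    rw [f1, Nat.add_sub_cancel]
    push_cast at e4 e6 ⊢
    linear_combination -e4 - e6
  exact_mod_cast e9

theorem spSum : SpSum := by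
  intro e n he
  have he' : e < 2 := by omega
  have h1 : ((∑ m ∈ Finset.range (Z5 n), T5 e n m : ℕ) : ℤ) =
      ∑ w ∈ Finset.range ((xe5 e he').L n), ((T5 e n (2 * w + 0) : ℕ) : ℤ) := by
    push_cast
    refine XD.sum_reindex (g := fun m => ((T5 e n m : ℕ) : ℤ)) (a := 2) (b := 0)
      (L := (xe5 e he').L n) (by norm_num) ?_ ?_ ?_
    · intro m hm
      exact (xe5 e he').T_ne n m (by exact_mod_cast hm)
    · intro m hm
      exact_mod_cast (xe5 e he').T_supp n m hm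
    · intro m hm
      exact_mod_cast (xe5 e he').T_suppL n m hm
  have h2 := (sys5 e he').NN_eq (τ := fun n w ↦ ((T5 e n (2 * w + 0) : ℕ) : ℤ))
    (fun w => by
      have := (xe5 e he').T_zero (2 * w + 0)
      exact_mod_cast this) (fun n w => (xe5 e he').T_step n w) (j := 0) (c := 0)
    (L := (xe5 e he').L n) n (fun k hk => (xe5 e he').bd k n hk)
  simp only [pow_zero, one_dvd, if_true] at h2
  rw [← h2] at h1
  have h3 : ∀ n : ℕ, (sys5 e he').NN 0 0 n = (B5 e n : ℤ) := by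
    intro n
    induction n with
    | zero => simp [Sys.NN, B5]
    | succ n ih =>
      rw [(sys5 e he').NN_step, ih]
      have h4 := (xe5 e he').B_step n
      have h5 : (sys5 e he').N 0 0 ((n : ℤ) + 1) = (B5 e (n + 1) : ℤ) - B5 e n := by
        have h6 : ((xe5 e he').B (n + 1) : ℤ) - (xe5 e he').B n =
          (B5 e (n + 1) : ℤ) - B5 e n := rfl
        rw [← h6, h4]
        show (3 * ((n : ℤ) + 1) + e - 0 - 1) / 5 ^ 0 -
          (3 * (2 * 0 + 0 - ((n : ℤ) + 1)) + e - 0 - 1) / 5 ^ (0 + 1) - 1 -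
          (2 * ((n : ℤ) + 1) - (2 * 0 + 0)) / (2 * 5 ^ 0) -
          (2 * ((n : ℤ) + 1) - (2 * 0 + 0) - 1) / (2 * 5 ^ 0) =
          1 * ((n : ℤ) + 1) + (e - 1) - (3 * 0 - 3 * ((n : ℤ) + 1) + e - 1) / 5
        norm_num
        omega
      rw [h5]
      ring
  rw [h3] at h1
  exact_mod_cast h1

end GH.M5
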