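import Pool.Agent.GH.M5.Stm

/-!
# GH5-MAT, row J4: the values of `PM` at the natural numbers
-/

open PowerSeries

noncomputable section

namespace GH.M5

open GH.D5 GH.CombU

theorem val_cc_Q (R : Type*) [CommRing R] : constantCoeff (Qser5 R) = 1 := by
  simp [Qser5]

/-- `Q · (1/Q) = 1`. -/
theorem Q_mul_Qi (R : Type*) [CommRing R] : Qser5 R * Qi R = 1 :=
  mul_invOfUnit _ _ (by rw [val_cc_Q, Units.val_one])

theorem val_map_Q {R S : Type*} [CommRing R] [CommRing S] (f : R →+* S) :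
    PowerSeries.map f (Qser5 R) = Qser5 S := by
  simp only [Qser5, map_add, map_mul, map_pow, map_one, PowerSeries.map_C, PowerSeries.map_X,
    map_ofNat f]

theorem val_map_R {R S : Type*} [CommRing R] [CommRing S] (f : R →+* S) (e : ℕ) :
    PowerSeries.map f (Rser5 R e) = Rser5 S e := by
  unfold Rser5
  split_ifs <;> simp only [map_add, map_mul, map_pow, map_one, PowerSeries.map_C,
    PowerSeries.map_X, map_ofNat f]

/-- `1/Q` is compatible with ring homomorphisms. -/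
theorem map_Qi {R S : Type*} [CommRing R] [CommRing S] (f : R →+* S) :
    PowerSeries.map f (Qi R) = Qi S := by
  have h1 : PowerSeries.map f (Qi R) * Qser5 S = 1 := by
    rw [← val_map_Q f, ← map_mul, mul_comm, Q_mul_Qi, map_one]
  calc PowerSeries.map f (Qi R) = PowerSeries.map f (Qi R) * (Qser5 S * Qi S) := by
        rw [Q_mul_Qi, mul_one]
    _ = (PowerSeries.map f (Qi R) * Qser5 S) * Qi S := by rw [mul_assoc]
    _ = Qi S := by rw [h1, one_mul]

theorem val_Q_eq (R : Type*) [CommRing R] : Qser5 R = 1 + C (5 : R) * thQ R := by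
  have h1 : (C (15 : R) : PowerSeries R) = C (5 : R) * C (3 : R) := by
    rw [← map_mul]; norm_num
  have h2 : (C (25 : R) : PowerSeries R) = C (5 : R) * C (5 : R) := by
    rw [← map_mul]; norm_num
  rw [Qser5, thQ, h1, h2]
  ring

theorem val_one_sub (R : Type*) [CommRing R] :
    1 + C (5 : R) * -(thQ R * Qi R) = Qi R := by
  have h1 := Q_mul_Qi R
  rw [val_Q_eq] at h1
  linear_combination -h1

/-- `Q^{-y}` at `y = m`. -/
theorem map_LY (m : ℕ) :
    PowerSeries.map (Polynomial.evalRingHom (m : ℤ_[5])) LY = Qi ℤ_[5] ^ m := by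
  have h0 : constantCoeff (-(thQ ℤ_[5] * Qi ℤ_[5])) = 0 := by
    simp [thQ]
  have h1 := MatU.Lpow_eval 5 h0 m
  have h2 : (C (((5 : ℕ) : ℤ_[5])) : PowerSeries ℤ_[5]) = C (5 : ℤ_[5]) := by norm_num
  rw [LY, h1, h2, val_one_sub]

theorem val_map_prod {R S : Type*} [CommRing R] [CommRing S] (f : R →+* S) (e n m : ℕ) :
    PowerSeries.map f (Rser5 R e * Qser5 R ^ n * Qi R ^ m) =
      Rser5 S e * Qser5 S ^ n * Qi S ^ m := by
  rw [map_mul, map_mul, map_pow, map_pow, val_map_R, val_map_Q, map_Qi]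

/-- the common form of the entries -/
theorem val_PM (e m i j : ℕ) (h : j + 1 ≤ 5 * (i + 1)) :
    (PM e i j).eval (m : ℤ_[5]) =
      coeff (5 * (i + 1) - (j + 1)) (Rser5 ℤ_[5] e * Qser5 ℤ_[5] ^ (i + j + 1) *
        Qi ℤ_[5] ^ m) := by
  have h1 : PowerSeries.map (Polynomial.evalRingHom (m : ℤ_[5]))
      (Rser5 Zy e * Qser5 Zy ^ (i + j + 1) * LY) =
      Rser5 ℤ_[5] e * Qser5 ℤ_[5] ^ (i + j + 1) * Qi ℤ_[5] ^ m := by
    rw [map_mul, map_mul, map_pow, val_map_R, val_map_Q, map_LY]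
  rw [PM, if_pos h, ← h1, PowerSeries.coeff_map, Polynomial.coe_evalRingHom]

theorem spVal : SpVal := by
  intro e m i j he
  by_cases h : j + 1 ≤ 5 * (i + 1)
  · rw [val_PM e m i j h, MQ, if_pos h]
    have h1 : ((coeff (5 * (i + 1) - (j + 1)) (Rser5 ℤ_[5] e * Qser5 ℤ_[5] ^ (i + j + 1) *
        Qi ℤ_[5] ^ m) : ℤ_[5]) : ℚ_[5]) =
        coeff (5 * (i + 1) - (j + 1)) (Rser5 ℚ_[5] e * Qser5 ℚ_[5] ^ (i + j + 1) *
        Qi ℚ_[5] ^ m) := by
      rw [← val_map_prod (PadicInt.Coe.ringHom (p := 5)), PowerSeries.coeff_map]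
      rfl
    have h2 : ((coeff (5 * (i + 1) - (j + 1)) (Rser5 ℚ e * Qser5 ℚ ^ (i + 1 + (j + 1) - 1) *
        Qi ℚ ^ m) : ℚ) : ℚ_[5]) =
        coeff (5 * (i + 1) - (j + 1)) (Rser5 ℚ_[5] e * Qser5 ℚ_[5] ^ (i + j + 1) *
        Qi ℚ_[5] ^ m) := by
      have h3 : i + 1 + (j + 1) - 1 = i + j + 1 := by omega
      rw [h3, ← val_map_prod (Rat.castHom ℚ_[5]), PowerSeries.coeff_map]
      rfl
    rw [h1, h2]
  · rw [PM, if_neg h, MQ, if_neg h]
    simp

end GH.M5
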