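import Pool.Agent.GH.M5.Cor
import Pool.Agent.GH.MatU.Cor

/-!
# GH5-MAT, row GH5-D2: the zeros of the leading minors
-/

noncomputable section

namespace GH.M5

open GH.D5 GH.CombU

/-- scaling of the columns -/
theorem gh5v_scale {K : Type*} [Field K] (c : ℕ → K) (hc : ∀ j, c j ≠ 0)
    (M : ℕ → ℕ → Polynomial K) (n : ℕ) (P : Polynomial K)
    (h : P ∣ Pot.lead (fun i j => Polynomial.C (c j) * M i j) n) : P ∣ Pot.lead M n := by
  have h1 : Pot.lead (fun i j => Polynomial.C (c j) * M i j) n =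
      (∏ j : Fin n, Polynomial.C (c j)) * Pot.lead M n := by
    unfold Pot.lead Pot.minor
    exact Matrix.det_mul_row (fun j : Fin n => Polynomial.C (c j))
      (Matrix.of fun i j : Fin n => M i j)
  rw [h1] at h
  have h2 : IsUnit (∏ j : Fin n, Polynomial.C (c j)) := by
    rw [← map_prod]
    exact Polynomial.isUnit_C.2 (IsUnit.mk0 _ (Finset.prod_ne_zero_iff.2 fun j _ => hc j))
  exact (IsUnit.dvd_mul_left h2).1 h

/-- the minor of the image -/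
theorem gh5v_map (e n : ℕ) : (Pot.lead (PM e) n).map PadicInt.Coe.ringHom =
    Pot.lead (fun i j => (PM e i j).map PadicInt.Coe.ringHom) n := by
  unfold Pot.lead Pot.minor
  rw [← Polynomial.coe_mapRingHom, RingHom.map_det]
  rfl

/-- D2: the zeros -/
theorem spVan (h : SpJ) (hv : SpVal) : SpVan := by
  intro e n m he
  by_cases hT : T5 e n m = 0
  · rw [hT, pow_zero]
    exact one_dvd _
  obtain ⟨a, rfl⟩ : ∃ a, m = 2 * a := by
    unfold T5 at hT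
    split_ifs at hT with h
    · exact ⟨m / 2, by omega⟩
    · exact absurd rfl hT
  have hT2 : T5 e n (2 * a) = min (n - t5 e (2 * a)) (2 * a - 1 - t5 e (2 * a) - n) := by
    unfold T5
    rw [if_pos (by omega)]
  have ha : 1 ≤ a := by
    rw [hT2] at hT
    omega
  have ht : t5 e (2 * a) = (a - e) / 3 := by
    unfold t5
    rw [Nat.mul_div_cancel_left a (by norm_num)]
  rw [hT2, ht, gh5v_map]
  obtain ⟨x, y, h1, _⟩ := h e a he ha
  have h5 : (5 : ℚ_[5]) ≠ 0 := by norm_num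
  refine gh5v_scale (fun j => (-1) ^ e *
    (5 : ℚ_[5]) ^ (-(3 * ((2 * a - (j + 1) : ℕ) : ℤ) - a - 1 + e))) (fun j => ?_) _ n _ ?_
  · exact mul_ne_zero (pow_ne_zero _ (by norm_num)) (zpow_ne_zero _ h5)
  refine MatU.cor_tent ((2 * a : ℕ) : ℚ_[5]) (-1) _ (2 * a - 1) ((a - e) / 3) n
    (fun i l => ((x (i + 1) l : ℚ) : ℚ_[5]))
    (fun l j => ((y l (2 * a - (j + 1)) : ℚ) : ℚ_[5])) (fun i j hi hj => ?_)
  have h2 : ((PM e i j).map PadicInt.Coe.ringHom).eval ((2 * a : ℕ) : ℚ_[5]) =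
      ((MQ e (2 * a) (i + 1) (j + 1) : ℚ) : ℚ_[5]) := by
    rw [← hv e (2 * a) i j he, Polynomial.eval_natCast_map]
    rfl
  rw [Polynomial.eval_mul, Polynomial.eval_C, h2, gh5c_mq x y h1 i j (by omega)]
  have h3 : (((-1) ^ e * (5 : ℚ) ^ (3 * ((2 * a - (j + 1) : ℕ) : ℤ) - a - 1 + e) *
      (∑ l, x (i + 1) l * y l (2 * a - (j + 1)) -
        if i + 1 = 2 * a - (j + 1) then 1 else 0) : ℚ) : ℚ_[5]) =
      (-1) ^ e * (5 : ℚ_[5]) ^ (3 * ((2 * a - (j + 1) : ℕ) : ℤ) - a - 1 + e) *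
      (∑ l, ((x (i + 1) l : ℚ) : ℚ_[5]) * ((y l (2 * a - (j + 1)) : ℚ) : ℚ_[5]) -
        if i + 1 = 2 * a - (j + 1) then 1 else 0) := by
    have h9 : (((if i + 1 = 2 * a - (j + 1) then 1 else 0 : ℚ)) : ℚ_[5]) =
        if i + 1 = 2 * a - (j + 1) then 1 else 0 := by
      split_ifs <;> norm_num
    have h10 : ((∑ l, x (i + 1) l * y l (2 * a - (j + 1)) : ℚ) : ℚ_[5]) =
        ∑ l, ((x (i + 1) l : ℚ) : ℚ_[5]) * ((y l (2 * a - (j + 1)) : ℚ) : ℚ_[5]) := by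
      rw [Rat.cast_sum]
      exact Finset.sum_congr rfl fun l _ => Rat.cast_mul _ _
    have h11 : (((-1) ^ e * (5 : ℚ) ^ (3 * ((2 * a - (j + 1) : ℕ) : ℤ) - a - 1 + e) : ℚ) :
        ℚ_[5]) = (-1) ^ e * (5 : ℚ_[5]) ^ (3 * ((2 * a - (j + 1) : ℕ) : ℤ) - a - 1 + e) := by
      rw [Rat.cast_mul, Rat.cast_pow, Rat.cast_zpow]
      norm_num
    rw [Rat.cast_mul, h11, Rat.cast_sub, h10, h9]
  rw [h3, zpow_neg]
  have h6 : ((-1 : ℚ_[5]) ^ e) * (-1) ^ e = 1 := by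
    rw [← mul_pow]
    norm_num
  have h7 : ((5 : ℚ_[5]) ^ (3 * ((2 * a - (j + 1) : ℕ) : ℤ) - a - 1 + e))⁻¹ *
      (5 : ℚ_[5]) ^ (3 * ((2 * a - (j + 1) : ℕ) : ℤ) - a - 1 + e) = 1 :=
    inv_mul_cancel₀ (zpow_ne_zero _ h5)
  have h8 : (if i + 1 = 2 * a - (j + 1) then (1 : ℚ_[5]) else 0) =
      if i + j + 1 = 2 * a - 1 then 1 else 0 := by
    by_cases hij : i + 1 = 2 * a - (j + 1)
    · rw [if_pos hij, if_pos (by omega)]
    · rw [if_neg hij, if_neg (by omega)]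
  rw [h8]
  linear_combination ((∑ l, ((x (i + 1) l : ℚ) : ℚ_[5]) *
    ((y l (2 * a - (j + 1)) : ℚ) : ℚ_[5])) - if i + j + 1 = 2 * a - 1 then 1 else 0) *
    (((5 : ℚ_[5]) ^ (3 * ((2 * a - (j + 1) : ℕ) : ℤ) - a - 1 + e))⁻¹ *
      (5 : ℚ_[5]) ^ (3 * ((2 * a - (j + 1) : ℕ) : ℤ) - a - 1 + e) * h6 + h7)

end GH.M5
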