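import Pool.Agent.GH.M5.Stm

/-!
# GH5-MAT, row A6: the matrix `M = W N`
-/

open PowerSeries

noncomputable section

namespace GH.M5

open GH.D5 GH.CombU

namespace WN

/-- products of series with bounds -/
theorem bd_mul {φ₁ φ₂ φ : ℕ → ℕ → ℕ} {F₁ F₂ : PowerSeries Zy}
    (hφ : ∀ a b c d, φ (a + b) (c + d) ≤ φ₁ a c + φ₂ b d)
    (h₁ : Bd φ₁ F₁) (h₂ : Bd φ₂ F₂) : Bd φ (F₁ * F₂) := by
  intro n j
  rw [PowerSeries.coeff_mul, Polynomial.finsetSum_coeff]
  refine Finset.dvd_sum fun x hx => ?_
  rw [Polynomial.coeff_mul]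
  refine Finset.dvd_sum fun y hy => ?_
  rw [Finset.HasAntidiagonal.mem_antidiagonal] at hx hy
  rw [← hx, ← hy]
  refine (pow_dvd_pow _ (hφ _ _ _ _)).trans ?_
  rw [pow_add]
  exact mul_dvd_mul (h₁ _ _) (h₂ _ _)

/-- `max ⌊(2n + 4e)/5⌋ j` -/
def ph (e n j : ℕ) : ℕ := max ((2 * n + 4 * e) / 5) j

theorem bd_nat (c : ℕ → ℕ) (φ : ℕ → ℕ → ℕ) (F : PowerSeries Zy)
    (hF : ∀ n, coeff n F = ((c n : ℕ) : Zy)) (hc : ∀ n, 5 ^ φ n 0 ∣ c n) : Bd φ F := by
  intro n j
  rw [hF]
  rcases Nat.eq_zero_or_pos j with rfl | hj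
  · rw [Polynomial.natCast_coeff_zero]
    exact_mod_cast Nat.cast_dvd_cast (α := ℤ_[5]) (hc n)
  · rw [← Polynomial.C_eq_natCast, Polynomial.coeff_C_of_ne_zero (by omega)]
    exact dvd_zero _

/-- the coefficients of a quartic -/
theorem coeff_quartic (a b c d : ℕ) (n : ℕ) :
    coeff n (1 + C (a : Zy) * X + C (b : Zy) * X ^ 2 + C (c : Zy) * X ^ 3 +
      C (d : Zy) * X ^ 4 : PowerSeries Zy) =
      (((if n = 0 then 1 else if n = 1 then a else if n = 2 then b else if n = 3 then c else
        if n = 4 then d else 0 : ℕ) : ℕ) : Zy) := by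
  rw [map_add, map_add, map_add, map_add, coeff_one, coeff_C_mul, coeff_C_mul, coeff_C_mul,
    coeff_C_mul, coeff_X, coeff_X_pow, coeff_X_pow, coeff_X_pow]
  by_cases h0 : n = 0
  · subst h0
    simp
  by_cases h1 : n = 1
  · subst h1
    simp
  by_cases h2 : n = 2
  · subst h2
    simp
  by_cases h3 : n = 3
  · subst h3
    simp
  by_cases h4 : n = 4
  · subst h4
    simp
  · simp [h0, h1, h2, h3, h4]

theorem bd_Q : Bd phA (Qser5 Zy) := by
  refine bd_nat (fun n => if n = 0 then 1 else if n = 1 then 5 else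
    if n = 2 then 15 else if n = 3 then 25 else if n = 4 then 25 else 0) _ _
    (fun n => ?_) (fun n => ?_)
  · have h := coeff_quartic 5 15 25 25 n
    rw [← h, Qser5]
    push_cast
    rfl
  · split_ifs with h0 h1 h2 h3 h4
    · subst h0; decide
    · subst h1; decide
    · subst h2; decide
    · subst h3; decide
    · subst h4; decide
    · exact dvd_zero _

theorem bd_R (e : ℕ) (he : e ≤ 1) : Bd (ph e) (Rser5 Zy e) := by
  rcases Nat.le_one_iff_eq_zero_or_eq_one.mp he with rfl | rfl
  · refine bd_nat (fun n => if n = 0 then 1 else if n = 1 then 4 else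
      if n = 2 then 9 else if n = 3 then 10 else if n = 4 then 5 else 0) _ _
      (fun n => ?_) (fun n => ?_)
    · have h := coeff_quartic 4 9 10 5 n
      rw [← h, Rser5, if_pos rfl]
      push_cast
      rfl
    · split_ifs with h0 h1 h2 h3 h4
      · subst h0; decide
      · subst h1; decide
      · subst h2; decide
      · subst h3; decide
      · subst h4; decide
      · exact dvd_zero _
  · refine bd_nat (fun n => if n = 0 then 1 else if n = 1 then 10 else
      if n = 2 then 45 else if n = 3 then 100 else if n = 4 then 125 else 0) _ _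
      (fun n => ?_) (fun n => ?_)
    · have h := coeff_quartic 10 45 100 125 n
      rw [← h, Rser5, if_neg one_ne_zero]
      push_cast
      rfl
    · split_ifs with h0 h1 h2 h3 h4
      · subst h0; decide
      · subst h1; decide
      · subst h2; decide
      · subst h3; decide
      · subst h4; decide
      · exact dvd_zero _

theorem phA_sup (a b c d : ℕ) : phA (a + b) (c + d) ≤ phA a c + phA b d := by
  simp only [phA]
  omega

theorem ph_sup (e : ℕ) (a b c d : ℕ) : ph e (a + b) (c + d) ≤ ph e a c + phA b d := by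
  simp only [phA, ph]
  omega

theorem bd_Qpow (n : ℕ) : Bd phA (Qser5 Zy ^ n) := by
  induction n with
  | zero =>
    rw [pow_zero]
    intro n j
    rw [coeff_one]
    split_ifs with h
    · subst h
      rw [Polynomial.coeff_one]
      split_ifs with h
      · subst h
        simp [phA]
      · exact dvd_zero _
    · rw [Polynomial.coeff_zero]
      exact dvd_zero _
  | succ n ih =>
    rw [pow_succ]
    exact bd_mul phA_sup ih bd_Q

theorem Q_mul_Qi : Qser5 Zy * Qi Zy = 1 := by
  rw [Qi]
  exact PowerSeries.mul_invOfUnit _ _ (by simp [Qser5])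

theorem hasSubst_g : PowerSeries.HasSubst (gT Zy) := by
  apply PowerSeries.HasSubst.of_constantCoeff_zero'
  simp [gT]

/-- the truncation of a series -/
theorem exists_trunc (G : PowerSeries Zy) (n : ℕ) : ∃ G' : PowerSeries Zy,
    G = ∑ l ∈ Finset.range n, C (coeff l G) * X ^ l + X ^ n * G' := by
  have h : X ^ n ∣ G - ∑ l ∈ Finset.range n, C (coeff l G) * X ^ l := by
    rw [PowerSeries.X_pow_dvd_iff]
    intro m hm
    rw [map_sub, map_sum]
    have h1 : ∀ l ∈ Finset.range n, coeff m (C (coeff l G) * X ^ l : PowerSeries Zy) =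
        if m = l then coeff m G else 0 := by
      intro l _
      rw [coeff_C_mul, coeff_X_pow]
      split_ifs with h
      · rw [h, mul_one]
      · rw [mul_zero]
    rw [Finset.sum_congr rfl h1, Finset.sum_ite_eq, if_pos (Finset.mem_range.mpr hm), sub_self]
  obtain ⟨G', hG'⟩ := h
  exact ⟨G', by rw [← hG']; ring⟩

/-- the substitution of `g` -/
theorem subst_g (G : PowerSeries Zy) (n : ℕ) : ∃ G' : PowerSeries Zy,
    G.subst (gT Zy) = ∑ l ∈ Finset.range n, C (coeff l G) * gT Zy ^ l + gT Zy ^ n * G' := by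
  obtain ⟨G', hG'⟩ := exists_trunc G n
  refine ⟨G'.subst (gT Zy), ?_⟩
  conv_lhs => rw [hG']
  rw [← PowerSeries.coe_substAlgHom hasSubst_g, map_add, map_sum, map_mul, map_pow]
  rw [PowerSeries.coe_substAlgHom hasSubst_g, PowerSeries.subst_X hasSubst_g]
  congr 1
  refine Finset.sum_congr rfl fun l _ => ?_
  rw [← PowerSeries.coe_substAlgHom hasSubst_g, map_mul, map_pow,
    PowerSeries.coe_substAlgHom hasSubst_g, PowerSeries.subst_X hasSubst_g,
    PowerSeries.subst_C]
  rfl

theorem alg_sum {R : Type*} [CommRing R] (r q qi x A L G' D : R) (c : ℕ → R) (i j N : ℕ)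
    (hq : q * qi = 1)
    (hL : L = A * (∑ l ∈ Finset.range (i + 1), c l * (x ^ 5 * qi) ^ l +
      (x ^ 5 * qi) ^ (i + 1) * G') + x ^ N * D) :
    r * q ^ (i + j + 1) * L =
      ∑ l ∈ Finset.range (i + 1), c l * (x ^ (5 * l) * (r * q ^ (i - l + j + 1) * A)) +
        x ^ (5 * (i + 1)) * (qi ^ (i + 1) * G' * (r * q ^ (i + j + 1) * A)) +
        x ^ N * (r * q ^ (i + j + 1) * D) := by
  rw [hL, mul_add, mul_add, mul_add]
  congr 1
  · congr 1
    · rw [Finset.mul_sum, Finset.mul_sum]
      refine Finset.sum_congr rfl fun l hl => ?_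
      rw [Finset.mem_range] at hl
      have e2 : q ^ (i + j + 1) * qi ^ l = q ^ (i - l + j + 1) := by
        have e3 : i + j + 1 = (i - l + j + 1) + l := by omega
        rw [e3, pow_add, mul_assoc, ← mul_pow, hq, one_pow, mul_one]
      rw [mul_pow, ← pow_mul, ← e2]
      ring
    · rw [mul_pow, ← pow_mul]
      ring
  · ring

theorem alg_sub {R : Type*} [CommRing R] {L P x : R} (h : L - P = x) : L = P + x := by
  rw [← h]
  ring

end WN

open WN in
theorem spWN (h : SpFac) : SpWN := by
  intro e he I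
  obtain ⟨A, G, hA, hG0, hG, hX⟩ := h (5 * (I + 1))
  refine ⟨fun l => coeff l G, fun i j => if j + 1 ≤ 5 * (i + 1) then
    coeff (5 * (i + 1) - (j + 1)) (Rser5 Zy e * Qser5 Zy ^ (i + j + 1) * A) else 0,
    ?_, hG, ?_, ?_, ?_⟩
  · exact (coeff_zero_eq_constantCoeff_apply _).trans hG0
  · intro i j k
    simp only []
    split_ifs with hij
    · have hB : Bd (ph e) (Rser5 Zy e * Qser5 Zy ^ (i + j + 1) * A) :=
        bd_mul (ph_sup e) (bd_mul (ph_sup e) (bd_R e he) (bd_Qpow _)) hA
      refine (pow_dvd_pow _ ?_).trans (hB (5 * (i + 1) - (j + 1)) k)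
      simp only [rr, ph]
      rcases Nat.le_one_iff_eq_zero_or_eq_one.mp he with rfl | rfl <;> omega
    · rw [Polynomial.coeff_zero]
      exact dvd_zero _
  · intro i j hij
    simp only []
    rw [if_neg (by omega)]
  · intro i hi j
    simp only []
    rw [PM]
    by_cases hij : j + 1 ≤ 5 * (i + 1)
    · rw [if_pos hij]
      obtain ⟨D, hD⟩ := hX
      obtain ⟨G', hG'⟩ := subst_g G (i + 1)
      have hn : 5 * (i + 1) - (j + 1) < 5 * (i + 1) := by omega
      have hL := alg_sub hD
      rw [hG'] at hL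
      have e1 := alg_sum (Rser5 Zy e) (Qser5 Zy) (Qi Zy) X A LY G' D (fun l => C (coeff l G))
        i j (5 * (I + 1)) Q_mul_Qi hL
      rw [e1, map_add, map_add]
      have z1 : ∀ (F : PowerSeries Zy) (m n : ℕ), n < m → coeff n (X ^ m * F) = 0 := by
        intro F m n hmn
        rw [PowerSeries.coeff_X_pow_mul', if_neg (by omega)]
      rw [z1 _ _ _ hn, z1 _ _ _ (by omega), add_zero, add_zero, map_sum,
        ← Finset.sum_range_reflect]
      refine Finset.sum_congr rfl fun l hl => ?_
      rw [Finset.mem_range] at hl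
      have e4 : i + 1 - 1 - l = i - l := by omega
      rw [e4, coeff_C_mul, PowerSeries.coeff_X_pow_mul']
      have e5 : i - (i - l) = l := by omega
      rw [e5]
      congr 1
      by_cases hl2 : j + 1 ≤ 5 * (l + 1)
      · rw [if_pos hl2, if_pos (by omega)]
        congr 2
        omega
      · rw [if_neg hl2, if_neg (by omega)]
    · rw [if_neg hij]
      symm
      refine Finset.sum_eq_zero fun l hl => ?_
      rw [Finset.mem_range] at hl
      rw [if_neg (by omega), mul_zero]

end GH.M5
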