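import Pool.Agent.GH.M5.Cen
import Pool.Agent.GH.M5.Cor
import Pool.Agent.GH.M5.DetEven
import Pool.Agent.GH.M5.Fac
import Pool.Agent.GH.M5.Exp
import Pool.Agent.GH.M5.Start
import Pool.Agent.GH.M5.Step
import Pool.Agent.GH.M5.Ghost
import Pool.Agent.GH.M5.H
import Pool.Agent.GH.M5.Im
import Pool.Agent.GH.M5.Int
import Pool.Agent.GH.M5.J
import Pool.Agent.GH.M5.Six
import Pool.Agent.GH.M5.PS
import Pool.Agent.GH.M5.Small
import Pool.Agent.GH.M5.Strict
import Pool.Agent.GH.M5.Sum
import Pool.Agent.GH.M5.Weak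
import Pool.Agent.GH.M5.AH
import Pool.Agent.GH.M5.DetOdd
import Pool.Agent.GH.M5.Eval
import Pool.Agent.GH.M5.Lead
import Pool.Agent.GH.M5.NP
import Pool.Agent.GH.M5.Val
import Pool.Agent.GH.M5.Van
import Pool.Agent.GH.M5.WN
import Pool.Agent.GH.D5.Param5

/-!
# GH5-MAT: the theorem on the central disc for `p = 5`, both components
-/

noncomputable section

namespace GH.M5

open GH.D5 GH.CombU

theorem norm_wx5_nat {y : C5} (hy : ‖y‖ ≤ 1) (m : ℕ) :
    ‖wx5 y + 1 - 121 ^ m‖ = ‖y - (m : C5)‖ / 5 := by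
  have hm : ‖(m : C5)‖ ≤ 1 := by
    have h := m5_norm_iota (m : ℤ_[5])
    rw [map_natCast] at h
    rw [h]
    exact PadicInt.norm_le_one _
  rw [← norm_wx5_sub hy hm, wx5_natCast]
  congr 1
  ring

theorem isFac : SpFac := spFac spExp spStart (spStep spExp spAH)

theorem isWN : SpWN := spWN isFac

theorem isPS : SpPS := spPS isWN

theorem isPrin : SpPrin := spPrin isPS

theorem isJ : SpJ := spJ spIm spSix

theorem isLead : SpLead :=
  spLead (spInt isWN) (spVan isJ spVal) spSum (spDetOdd isJ spVal) (spDetEven isJ spVal) spSmall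
    spFOdd spFEven

theorem isMatW : SpMatW :=
  spMatW isLead isPrin (spWeak isWN isPS) (spCor isJ spVal (spH spVal) isPS)

/-- **The theorem on the central disc**, `p = 5`. -/
theorem central5 : GH.M5.CentralTheorem5 :=
  central5_of isMatW isPrin (spNP isMatW spEval isPS isPrin (spStrict isWN))
    (spGhost spSum fun _ hy m ↦ norm_wx5_nat hy m)

/-- The form used by the definition side. -/
theorem central5' : ∀ e ≤ 1, ∀ y : C5, ‖y‖ ≤ 1 →
    newtonPolygon 5 (fred (Mat5 e y)) =
      newtonPolygon 5 (ghostG 5 e (121 ^ e * (1 + wx5 y) - 1)) := by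
  intro e he y hy
  rw [central5 e y he hy]
  congr 2
  ring

end GH.M5
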