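import Pool.Agent.GH.M5.MatW
import Pool.Agent.GH.NP

/-!
# GH5-MAT: the theorem on the central disc from its parts
-/

noncomputable section

namespace GH.M5

open GH.D5 GH.CombU

theorem m5_norm_iota (z : ℤ_[5]) : ‖iota5 z‖ = ‖z‖ := by
  have h1 : ‖iota5 z‖ = ‖(z : ℚ_[5])‖ := by
    rw [← PadicComplex.norm_extends' 5 (z : ℚ_[5])]
    congr 1
  rw [h1]
  rfl

theorem central5_of (hM : SpMatW) (hpr : SpPrin) (hNP : SpNP) (hG : SpGhost) :
    CentralTheorem5 := by
  intro e y he hy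
  rw [hNP e y he hy]
  refine newtonPolygon_congr_norm fun n => ?_
  rw [hG e n y he hy, ← lead_PS hpr he n, Pot.w_norm_lead (hM e he) iota5 m5_norm_iota hy n]
  congr 1
  rw [← Real.rpow_intCast]
  norm_num

end GH.M5
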