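import Pool.Agent.GH.M5.Stm
import Pool.Agent.GH.Pot.Gv

/-!
# GH5-MAT: the input of GH-POT
-/

noncomputable section

namespace GH.M5

open GH.D5 GH.CombU

theorem lead_PS (h2 : SpPrin) {e : ℕ} (he : e ≤ 1) (n : ℕ) :
    Pot.lead (PS e) n = Pot.lead (PM e) n := h2 e n _ he

theorem spMatW (h1 : SpLead) (h2 : SpPrin) (h3 : SpWeak) (h4 : SpCor) : SpMatW := by
  intro e he
  exact
    { lead := fun n => by
        obtain ⟨u, z, hu, hn⟩ := h1 e he n
        exact ⟨u, z, hu, by rw [lead_PS h2 he, hn]⟩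
      root := fun n a b => by
        rw [Pot.le_gv_iff]
        exact Pot.gv_dvd_comp (by simpa using h3 e n a b he) _
      corank := h4 e he }

end GH.M5
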