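import Pool.Agent.GH.M5.Stm

/-! Helper file for row GH5-A4: general lemmas. -/

open PowerSeries

noncomputable section

namespace GH.M5

open GH.D5 GH.CombU

/-! ### divisibility classes -/

theorem s4_Bd_mul {φ : ℕ → ℕ → ℕ} (hφ : ∀ a b c d, φ (a + c) (b + d) ≤ φ a b + φ c d)
    {F G : PowerSeries Zy} (hF : Bd φ F) (hG : Bd φ G) : Bd φ (F * G) := by
  intro n j
  rw [coeff_mul, Polynomial.finsetSum_coeff]
  refine Finset.dvd_sum fun x hx => ?_
  rw [Polynomial.coeff_mul]
  refine Finset.dvd_sum fun z hz => ?_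
  rw [Finset.HasAntidiagonal.mem_antidiagonal] at hx hz
  have h1 := mul_dvd_mul (hF x.1 z.1) (hG x.2 z.2)
  rw [← pow_add] at h1
  refine (pow_dvd_pow _ ?_).trans h1
  rw [← hx, ← hz]
  exact hφ _ _ _ _

theorem s4_Bd_one {φ : ℕ → ℕ → ℕ} (hφ : φ 0 0 = 0) : Bd φ 1 := by
  intro n j
  rw [coeff_one]
  split_ifs with h
  · rw [Polynomial.coeff_one]
    split_ifs with h2
    · rw [h, h2, hφ, pow_zero]
    · exact dvd_zero _
  · rw [Polynomial.coeff_zero]
    exact dvd_zero _

theorem s4_Bd_prod {φ : ℕ → ℕ → ℕ} (hφ : ∀ a b c d, φ (a + c) (b + d) ≤ φ a b + φ c d)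
    (hφ0 : φ 0 0 = 0) (F : ℕ → PowerSeries Zy) (m : ℕ) (h : ∀ i, Bd φ (F i)) :
    Bd φ (∏ i ∈ Finset.range m, F i) := by
  induction m with
  | zero =>
    rw [Finset.prod_range_zero]
    exact s4_Bd_one hφ0
  | succ m ih =>
    rw [Finset.prod_range_succ]
    exact s4_Bd_mul hφ ih (h m)

theorem s4_Bd_sub {φ : ℕ → ℕ → ℕ} {F G : PowerSeries Zy} (hF : Bd φ F) (hG : Bd φ G) :
    Bd φ (F - G) := by
  intro n j
  rw [map_sub, Polynomial.coeff_sub]
  exact dvd_sub (hF n j) (hG n j)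

theorem s4_Bd_sum {φ : ℕ → ℕ → ℕ} (F : ℕ → PowerSeries Zy) (m : ℕ) (h : ∀ i, Bd φ (F i)) :
    Bd φ (∑ i ∈ Finset.range m, F i) := by
  intro n j
  rw [map_sum, Polynomial.finsetSum_coeff]
  exact Finset.dvd_sum fun i _ => h i n j

theorem s4_phA_sub (a b c d : ℕ) : phA (a + c) (b + d) ≤ phA a b + phA c d := by
  simp only [phA]
  omega

theorem s4_phA_zero : phA 0 0 = 0 := by
  simp [phA]

theorem s4_C_dvd {a : Zy} {F : PowerSeries Zy} (h : ∀ n, a ∣ coeff n F) : C a ∣ F := by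
  choose g hg using h
  refine ⟨PowerSeries.mk g, ?_⟩
  ext1 n
  rw [coeff_C_mul, coeff_mk]
  exact hg n

theorem s4_dvd5 {F : PowerSeries Zy} (h : Bd phE F) (h0 : constantCoeff F = 0) :
    C (Polynomial.C (5 : ℤ_[5])) ∣ F := by
  refine s4_C_dvd fun n => ?_
  rcases n with _ | n
  · rw [coeff_zero_eq_constantCoeff_apply, h0]
    exact dvd_zero _
  · rw [Polynomial.C_dvd_iff_dvd_coeff]
    intro j
    refine (dvd_pow_self (5 : ℤ_[5]) ?_).trans (h (n + 1) j)
    simp only [phE]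
    omega

/-! ### substitutions and exponentials -/

theorem s4_subst_C' {R : Type*} [CommRing R] {a : PowerSeries R} (ha : HasSubst a) (r : R) :
    (C r : PowerSeries R).subst a = C r := by
  have h := (substAlgHom (R := R) (S := R) ha).commutes r
  rw [coe_substAlgHom] at h
  exact h

theorem s4_subst_C {a : PowerSeries Zy} (ha : HasSubst a) (r : Zy) :
    (C r : PowerSeries Zy).subst a = C r := s4_subst_C' ha r

theorem s4_subst_one {a : PowerSeries Zy} (ha : HasSubst a) :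
    (1 : PowerSeries Zy).subst a = (1 : PowerSeries Zy) := by
  have h := map_one (substAlgHom (R := Zy) (S := Zy) ha)
  rw [coe_substAlgHom] at h
  exact h

theorem s4_const_subst {a : PowerSeries Zy} (ha : constantCoeff a = 0) (F : PowerSeries Zy) :
    constantCoeff (F.subst a : PowerSeries Zy) = constantCoeff F := by
  have hs : HasSubst a := HasSubst.of_constantCoeff_zero' ha
  have h1 : constantCoeff (F - C (constantCoeff F)) = 0 := by simp
  obtain ⟨G, hG⟩ := PowerSeries.X_dvd_iff.mpr h1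
  have h2 : F = C (constantCoeff F) + X * G := by
    rw [← hG]
    ring
  have h3 : (F.subst a : PowerSeries Zy) = C (constantCoeff F) + a * G.subst a := by
    conv_lhs => rw [h2]
    rw [subst_add hs, subst_mul hs, s4_subst_C hs, subst_X hs]
  rw [h3, map_add, map_mul, ha]
  simp

theorem s4_isE_subst {E F g : PowerSeries Zy} (hg : constantCoeff g = 0) (h : IsE E F) :
    IsE (E.subst g : PowerSeries Zy) (F.subst g) := by
  have hs : HasSubst g := HasSubst.of_constantCoeff_zero' hg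
  refine ⟨?_, ?_, ?_⟩
  · rw [s4_const_subst hg, h.e0]
  · rw [s4_const_subst hg, h.f0]
  · rw [PowerSeries.derivative_subst hs, PowerSeries.derivative_subst hs, h.der, subst_mul hs]
    ring

theorem s4_isE_zero : IsE (0 : PowerSeries Zy) 1 :=
  ⟨map_zero _, map_one _, by rw [map_zero, zero_mul]; exact PowerSeries.derivative_one⟩

theorem s4_isE_sum (h1 : SpExp) (E F : ℕ → PowerSeries Zy) (m : ℕ) (h : ∀ i, IsE (E i) (F i)) :
    IsE (∑ i ∈ Finset.range m, E i) (∏ i ∈ Finset.range m, F i) := by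
  induction m with
  | zero =>
    rw [Finset.sum_range_zero, Finset.prod_range_zero]
    exact s4_isE_zero
  | succ m ih =>
    rw [Finset.sum_range_succ, Finset.prod_range_succ]
    exact h1.2.2.2 _ _ _ _ ih (h m)

theorem s4_gT_const : constantCoeff (gT Zy) = 0 := by
  unfold gT
  rw [map_mul, map_pow, constantCoeff_X]
  simp

/-! ### the series `1/Q` -/

theorem s4_Q_const (R : Type*) [CommRing R] : constantCoeff (Qser5 R) = 1 := by
  unfold Qser5
  simp

theorem s4_Q_mul (R : Type*) [CommRing R] : Qser5 R * Qi R = 1 :=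
  mul_invOfUnit _ 1 (by rw [s4_Q_const]; rfl)

theorem s4_Qi_const (R : Type*) [CommRing R] : constantCoeff (Qi R) = 1 := by
  have h := congrArg constantCoeff (s4_Q_mul R)
  rw [map_mul, s4_Q_const, one_mul, map_one] at h
  exact h

theorem s4_map_Q {R S : Type*} [CommRing R] [CommRing S] (f : R →+* S) :
    PowerSeries.map f (Qser5 R) = Qser5 S := by
  unfold Qser5
  simp only [map_add, map_one, map_mul, map_pow, PowerSeries.map_C, PowerSeries.map_X]
  rw [map_ofNat f 5, map_ofNat f 15, map_ofNat f 25]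

theorem s4_map_Qi {R S : Type*} [CommRing R] [CommRing S] (f : R →+* S) :
    PowerSeries.map f (Qi R) = Qi S := by
  have h1 : Qser5 S * PowerSeries.map f (Qi R) = 1 := by
    rw [← s4_map_Q f, ← map_mul, s4_Q_mul, map_one]
  calc PowerSeries.map f (Qi R) = (Qser5 S * Qi S) * PowerSeries.map f (Qi R) := by
        rw [s4_Q_mul, one_mul]
    _ = Qi S * (Qser5 S * PowerSeries.map f (Qi R)) := by ring
    _ = Qi S := by rw [h1, mul_one]

/-- coefficients of order `2k/5` -/
def s4_M (F : PowerSeries ℤ_[5]) : Prop := ∀ k, (5 : ℤ_[5]) ^ ((2 * k + 4) / 5) ∣ coeff k F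

theorem s4_M_mul {F G : PowerSeries ℤ_[5]} (hF : s4_M F) (hG : s4_M G) : s4_M (F * G) := by
  intro n
  rw [coeff_mul]
  refine Finset.dvd_sum fun x hx => ?_
  rw [Finset.HasAntidiagonal.mem_antidiagonal] at hx
  have h1 := mul_dvd_mul (hF x.1) (hG x.2)
  rw [← pow_add] at h1
  refine (pow_dvd_pow _ ?_).trans h1
  omega

theorem s4_M_one : s4_M 1 := by
  intro n
  rw [coeff_one]
  split_ifs with h
  · rw [h]
    simp
  · exact dvd_zero _

theorem s4_M_pow {F : PowerSeries ℤ_[5]} (hF : s4_M F) (n : ℕ) : s4_M (F ^ n) := by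
  induction n with
  | zero =>
    rw [pow_zero]
    exact s4_M_one
  | succ n ih =>
    rw [pow_succ]
    exact s4_M_mul ih hF

theorem s4_Q_coeff (k : ℕ) : coeff k (Qser5 ℤ_[5]) =
    if k = 0 then 1 else if k = 1 then 5 else if k = 2 then 15 else if k = 3 then 25 else
      if k = 4 then 25 else 0 := by
  unfold Qser5
  simp only [map_add, coeff_one, coeff_C_mul, coeff_X, coeff_X_pow]
  rcases k with _ | _ | _ | _ | _ | k
  · simp
  · simp
  · simp
  · simp
  · simp
  · simp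

theorem s4_M_Q : s4_M (Qser5 ℤ_[5]) := by
  intro k
  rw [s4_Q_coeff]
  rcases k with _ | _ | _ | _ | _ | k
  · simp
  · simp
  · norm_num
    exact ⟨3, by norm_num⟩
  · norm_num
  · norm_num
  · simp

theorem s4_M_Qi : s4_M (Qi ℤ_[5]) := by
  intro n
  induction n using Nat.strong_induction_on with
  | _ n ih =>
    rcases n with _ | n
    · simp
    · have h := congrArg (coeff (n + 1)) (s4_Q_mul ℤ_[5])
      rw [coeff_mul, coeff_one, if_neg (by omega), Finset.Nat.antidiagonal_succ,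
        Finset.sum_cons] at h
      have h2 : coeff (n + 1) (Qi ℤ_[5]) = - ∑ x ∈ (Finset.HasAntidiagonal.antidiagonal n).map
          (Function.Embedding.prodMap ⟨Nat.succ, Nat.succ_injective⟩ (Function.Embedding.refl ℕ)),
          coeff x.1 (Qser5 ℤ_[5]) * coeff x.2 (Qi ℤ_[5]) := by
        have h3 : coeff 0 (Qser5 ℤ_[5]) = 1 := by
          rw [coeff_zero_eq_constantCoeff_apply, s4_Q_const]
        rw [h3, one_mul] at h
        exact eq_neg_of_add_eq_zero_left h
      rw [h2, dvd_neg]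
      refine Finset.dvd_sum fun x hx => ?_
      rw [Finset.mem_map] at hx
      obtain ⟨y, hy, rfl⟩ := hx
      rw [Finset.HasAntidiagonal.mem_antidiagonal] at hy
      have h1 := mul_dvd_mul (s4_M_Q (y.1 + 1)) (ih y.2 (by omega))
      rw [← pow_add] at h1
      refine (pow_dvd_pow _ ?_).trans h1
      omega

/-- `Q^(-n) = 1` modulo `5 n` -/
theorem s4_Qi_pow (n v : ℕ) (hv : 5 ^ v ∣ n) (k : ℕ) (hk : 1 ≤ k) :
    (5 : ℤ_[5]) ^ (1 + v) ∣ coeff k (Qi ℤ_[5] ^ n) := by
  obtain ⟨m, rfl⟩ := hv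
  have h1 : ((5 : ℕ) : PowerSeries ℤ_[5]) ∣ Qi ℤ_[5] - 1 := by
    have h2 : ∀ k, (5 : ℤ_[5]) ∣ coeff k (Qi ℤ_[5] - 1) := by
      intro k
      rcases k with _ | k
      · rw [map_sub, coeff_zero_eq_constantCoeff_apply, coeff_zero_eq_constantCoeff_apply,
          s4_Qi_const, map_one, sub_self]
        exact dvd_zero _
      · rw [map_sub, coeff_one, if_neg (by omega), sub_zero]
        refine (dvd_pow_self (5 : ℤ_[5]) ?_).trans (s4_M_Qi (k + 1))
        omega
    choose g hg using h2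
    refine ⟨PowerSeries.mk g, ?_⟩
    ext1 n
    have h3 : ((5 : ℕ) : PowerSeries ℤ_[5]) = C (5 : ℤ_[5]) := by
      rw [map_ofNat]
      rfl
    rw [h3, coeff_C_mul, coeff_mk]
    exact hg n
  have h2 := dvd_sub_pow_of_dvd_sub h1 v
  rw [one_pow] at h2
  have h3 : Qi ℤ_[5] ^ 5 ^ v - 1 ∣ Qi ℤ_[5] ^ (5 ^ v * m) - 1 := by
    have := sub_dvd_pow_sub_pow (Qi ℤ_[5] ^ 5 ^ v) 1 m
    rwa [one_pow, ← pow_mul] at this
  obtain ⟨G, hG⟩ := h2.trans h3
  have h4 := congrArg (coeff k) hG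
  rw [map_sub, coeff_one, if_neg (by omega), sub_zero] at h4
  have h5 : (((5 : ℕ) : PowerSeries ℤ_[5]) ^ (v + 1)) = C ((5 : ℤ_[5]) ^ (v + 1)) := by
    rw [map_pow, map_ofNat]
    rfl
  rw [h5, coeff_C_mul] at h4
  rw [h4, add_comm]
  exact dvd_mul_right _ _

/-! ### factorials -/

theorem s4_fact (k : ℕ) (hk : 1 ≤ k) : ∃ (v : ℕ) (t : ℤ_[5]), IsUnit t ∧ 4 * v < k ∧
    (k.factorial : ℤ_[5]) = 5 ^ v * t := by
  have hp : Nat.Prime 5 := by norm_num
  obtain ⟨v, t, ht, hv⟩ := Nat.exists_eq_pow_mul_and_not_dvd k.factorial_ne_zero 5 hp.ne_one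
  refine ⟨v, t, ?_, ?_, ?_⟩
  · rw [PadicInt.isUnit_iff]
    refine le_antisymm (PadicInt.norm_le_one _) ?_
    by_contra hlt
    have h1 : ‖((t : ℤ) : ℤ_[5])‖ < 1 := by
      push_cast
      exact not_le.mp hlt
    rw [PadicInt.norm_int_lt_one_iff_dvd] at h1
    exact ht (by exact_mod_cast h1)
  · have h1 := sub_one_mul_padicValNat_factorial_lt_of_ne_zero (p := 5) (n := k) (by omega)
    have h2 : v ≤ padicValNat 5 k.factorial := by
      rw [← padicValNat_dvd_iff_le k.factorial_ne_zero, hv]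
      exact dvd_mul_right _ _
    omega
  · rw [hv]
    push_cast
    ring

end GH.M5
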