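import Pool.Agent.GH.M5.Step_a

/-! Helper file for row GH5-A4: the case `5 ∤ N`. -/

open PowerSeries

noncomputable section

namespace GH.M5

open GH.D5 GH.CombU

theorem s4_arith1 {N j V l : ℕ} (hN : 1 ≤ N) (h5 : ¬ 5 ∣ N) (hV1 : (2 * N + 4) / 5 ≤ V)
    (hV2 : j ≤ V) : phE (N * 5 ^ l) (j * 5 ^ l) ≤ (5 ^ l - l) + (V - 1) * 5 ^ l := by
  have h55 : Fact (Nat.Prime 5) := ⟨by norm_num⟩
  rcases l with _ | l
  · simp only [phE, pow_zero, mul_one]
    have h1 : padicValNat 5 N = 0 := padicValNat.eq_zero_of_not_dvd h5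
    rw [h1]
    omega
  · have h1 : padicValNat 5 (N * 5 ^ (l + 1)) = l + 1 := by
      rw [padicValNat.mul (by omega) (by positivity), padicValNat.eq_zero_of_not_dvd h5,
        padicValNat.prime_pow, zero_add]
    have h2 : l < 5 ^ l := Nat.lt_pow_self (by norm_num)
    obtain ⟨P, hP⟩ : ∃ P, P = 5 ^ l := ⟨_, rfl⟩
    have h3 : 5 ^ (l + 1) = 5 * P := by rw [pow_succ, hP]; ring
    simp only [phE]
    rw [h1, h3]
    rw [← hP] at h2
    have h4 : (2 * N + 1) * P ≤ (5 * V) * P := Nat.mul_le_mul_right P (by omega)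
    have h5' : j * P ≤ V * P := Nat.mul_le_mul_right P hV2
    have h6 : (V - 1) * (5 * P) + 5 * P = 5 * (V * P) := by
      obtain ⟨W, rfl⟩ : ∃ W, V = W + 1 := ⟨V - 1, by omega⟩
      rw [Nat.add_sub_cancel]
      ring
    have h7 : (2 * N + 1) * P = 2 * (N * P) + P := by ring
    have h8 : 5 * V * P = 5 * (V * P) := by ring
    have h9 : N * (5 * P) = 5 * (N * P) := by ring
    have h10 : j * (5 * P) = 5 * (j * P) := by ring
    rw [h9, h10]
    rw [h7, h8] at h4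
    generalize N * P = A at *
    generalize V * P = B at *
    generalize j * P = J at *
    generalize (V - 1) * (5 * P) = D at *
    omega

theorem s4_GG_bd {N j V : ℕ} {c : ℤ_[5]} (hN : 1 ≤ N) (h5 : ¬ 5 ∣ N) (hV1 : (2 * N + 4) / 5 ≤ V)
    (hV2 : j ≤ V) (hc : (5 : ℤ_[5]) ^ V ∣ 5 * c) : Bd phE (GG c j N) := by
  intro n j'
  unfold GG
  rw [coeff_mk, Polynomial.finsetSum_coeff]
  refine Finset.dvd_sum fun l _ => ?_
  split_ifs with h
  · rw [Polynomial.coeff_monomial]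
    split_ifs with h2
    · have hV : 1 ≤ V := by omega
      have hc' : (5 : ℤ_[5]) ^ (V - 1) ∣ c := by
        obtain ⟨W, rfl⟩ : ∃ W, V = W + 1 := ⟨V - 1, by omega⟩
        rw [pow_succ', Nat.add_sub_cancel] at *
        exact (mul_dvd_mul_iff_left (by norm_num)).1 hc
      have h3 : (5 : ℤ_[5]) ^ ((5 ^ l - l) + (V - 1) * 5 ^ l) ∣
          5 ^ (5 ^ l - l) * c ^ 5 ^ l := by
        rw [pow_add]
        refine mul_dvd_mul_left _ ?_
        rw [pow_mul]
        exact pow_dvd_pow_of_dvd hc' _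
      refine (pow_dvd_pow _ ?_).trans h3
      rw [h, ← h2]
      exact s4_arith1 hN h5 hV1 hV2
    · exact dvd_zero _
  · rw [Polynomial.coeff_zero]
    exact dvd_zero _

theorem s4_AH_bd {N j V : ℕ} {c : ℤ_[5]} (a : ℕ → ℤ_[5]) (hN : 1 ≤ N)
    (hV1 : (2 * N + 4) / 5 ≤ V) (hV2 : j ≤ V) (hc : (5 : ℤ_[5]) ^ V ∣ 5 * c) :
    Bd phA (AHm a c j N) := by
  intro n j'
  unfold AHm
  rw [coeff_mk]
  split_ifs with h
  · obtain ⟨k, rfl⟩ := h
    rw [Nat.mul_div_cancel_left k (by omega), Polynomial.coeff_monomial]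
    split_ifs with h2
    · have h3 : (5 : ℤ_[5]) ^ (V * k) ∣ (5 * c) ^ k := by
        rw [pow_mul]
        exact pow_dvd_pow_of_dvd hc _
      refine (pow_dvd_pow _ ?_).trans (Dvd.dvd.mul_left h3 _)
      rw [← h2]
      have h4 : (2 * N) * k ≤ (5 * V) * k := Nat.mul_le_mul_right k (by omega)
      have h5 : j * k ≤ V * k := Nat.mul_le_mul_right k hV2
      have h6 : 2 * N * k = 2 * (N * k) := by ring
      have h7 : 5 * V * k = 5 * (V * k) := by ring
      rw [h6, h7] at h4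
      simp only [phA]
      generalize N * k = A at *
      generalize V * k = B at *
      generalize j * k = J at *
      omega
    · exact dvd_zero _
  · rw [Polynomial.coeff_zero]
    exact dvd_zero _

theorem s4_GG_low {N : ℕ} (c : ℤ_[5]) (j : ℕ) (hN : 1 ≤ N) {n : ℕ} (hn : n ≤ N) :
    coeff n (GG c j N) = if n = N then Polynomial.monomial j (5 * c) else 0 := by
  unfold GG
  rw [coeff_mk]
  have hge : ∀ l, 1 ≤ l → N < N * 5 ^ l := by
    intro l hl
    have h1 : 1 < 5 ^ l := Nat.one_lt_pow (by omega) (by norm_num)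
    calc N = N * 1 := (mul_one N).symm
      _ < N * 5 ^ l := Nat.mul_lt_mul_of_pos_left h1 (by omega)
  rw [Finset.sum_eq_single 0]
  · rw [pow_zero, mul_one, mul_one, pow_one]
    simp
  · intro l _ hl
    rw [if_neg]
    have := hge l (by omega)
    omega
  · intro h
    exact absurd (Finset.mem_range.2 (by omega)) h

theorem s4_case1 (h1 : SpExp) (h2 : SpAH) (N : ℕ) (E R : PowerSeries Zy) (hN : 1 ≤ N)
    (h5 : ¬ 5 ∣ N) (hER : IsE E R) (hE : Bd phE E) (hX : X ^ N ∣ E) :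
    ∃ A E' R' : PowerSeries Zy, Bd phA A ∧ IsE E' R' ∧ Bd phE E' ∧ X ^ (N + 1) ∣ E' ∧
      R = A * R' := by
  obtain ⟨a, ha0, ha⟩ := h2
  obtain ⟨c, hc⟩ : ∃ c : Zy, c = coeff N E := ⟨_, rfl⟩
  have hd : ∀ j, ∃ c' : ℤ_[5], c.coeff j = 5 * c' := by
    intro j
    have h3 := hE N j
    rw [← hc] at h3
    refine (dvd_pow_self (5 : ℤ_[5]) ?_).trans h3
    simp only [phE]
    omega
  choose c' hc' using hd
  have h0 : padicValNat 5 N = 0 := padicValNat.eq_zero_of_not_dvd h5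
  have hdv : ∀ j, (5 : ℤ_[5]) ^ (max ((2 * N + 4) / 5) j) ∣ 5 * c' j := by
    intro j
    have h3 := hE N j
    rw [← hc, hc', phE, h0, Nat.sub_zero] at h3
    exact h3
  obtain ⟨m, hm⟩ : ∃ m, m = c.natDegree + 1 := ⟨_, rfl⟩
  obtain ⟨A, hA⟩ : ∃ A, A = ∏ j ∈ Finset.range m, AHm a (c' j) j N := ⟨_, rfl⟩
  obtain ⟨S, hS⟩ : ∃ S, S = ∑ j ∈ Finset.range m, GG (c' j) j N := ⟨_, rfl⟩
  have hAb : Bd phA A := by
    rw [hA]
    exact s4_Bd_prod s4_phA_sub s4_phA_zero _ _
      (fun j => s4_AH_bd a hN (le_max_left _ _) (le_max_right _ _) (hdv j))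
  have hSA : IsE S A := by
    rw [hS, hA]
    exact s4_isE_sum h1 _ _ m (fun j => ha (c' j) j N hN)
  have hSb : Bd phE S := by
    rw [hS]
    exact s4_Bd_sum _ _ (fun j => s4_GG_bd hN h5 (le_max_left _ _) (le_max_right _ _) (hdv j))
  have hE' : Bd phE (E - S) := s4_Bd_sub hE hSb
  have hE0 : constantCoeff (E - S) = 0 := by rw [map_sub, hER.e0, hSA.e0, sub_zero]
  obtain ⟨R', hR'⟩ := h1.1 (E - S) hE0 (s4_dvd5 hE' hE0)
  refine ⟨A, E - S, R', hAb, hR', hE', ?_, ?_⟩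
  · rw [X_pow_dvd_iff] at hX ⊢
    intro n hn
    have h3 : coeff n S = if n = N then c else 0 := by
      rw [hS, map_sum, Finset.sum_congr rfl (fun j _ => s4_GG_low (c' j) j hN (by omega))]
      split_ifs with h
      · rw [hm]
        conv_rhs => rw [Polynomial.as_sum_range c]
        refine Finset.sum_congr rfl fun j _ => ?_
        rw [← hc' j]
      · rw [Finset.sum_const_zero]
    rw [map_sub, h3]
    split_ifs with h
    · rw [h, ← hc, sub_self]
    · rw [hX n (by omega), sub_zero]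
  · have h3 := h1.2.2.2 _ _ _ _ hSA hR'
    rw [add_sub_cancel] at h3
    exact h1.2.2.1 _ _ _ hER h3

end GH.M5
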