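import Pool.Agent.GH.D5.Base5
import Pool.Agent.GH.Pot.WDefs
import Pool.Agent.GH.CombU.Defs5
import Pool.Agent.GH.MatU.Lpow

/-!
# GH5-MAT: the matrix of `U_5`, `p = 5`, both components: definitions and statements

Head: helper7. Paper proof: note 5139 (helper7), 5138 (helper66) on MP_370013_nt and the row texts.
`e = 0, 1` is the component, `y` the variable, the centres are the even integers `y = m = 2a`.
-/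

open PowerSeries

noncomputable section

namespace GH.M5

open GH.D5 GH.CombU

/-- The ring of coefficients `ℤ_5[y]`. -/
abbrev Zy : Type := Polynomial ℤ_[5]

/-- `θ = T + 3T² + 5T³ + 5T⁴`, so `Q = 1 + 5θ`. -/
def thQ (R : Type*) [CommRing R] : PowerSeries R :=
  X + C (3 : R) * X ^ 2 + C (5 : R) * X ^ 3 + C (5 : R) * X ^ 4

/-- `1/Q`. -/
def Qi (R : Type*) [CommRing R] : PowerSeries R := invOfUnit (Qser5 R) 1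

/-- `g = T⁵/Q`. -/
def gT (R : Type*) [CommRing R] : PowerSeries R := X ^ 5 * Qi R

/-- `Q^{-y} = (1 + 5 (-θ/Q))^y` over `ℤ_5[y]`. -/
def LY : PowerSeries Zy := MatU.Lpow 5 (-(thQ ℤ_[5] * Qi ℤ_[5]))

/-- The matrix `[T^(5i'-j')] R_e Q^(i'+j'-1-y)` over `ℤ_5[y]`, `i' = i + 1`, `j' = j + 1`. -/
def PM (e i j : ℕ) : Zy :=
  if j + 1 ≤ 5 * (i + 1) then
    coeff (5 * (i + 1) - (j + 1)) (Rser5 Zy e * Qser5 Zy ^ (i + j + 1) * LY)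
  else 0

/-- `⌊3i'/2⌋`, `i' = i + 1`. -/
def gg (i : ℕ) : ℕ := 3 * (i + 1) / 2

open Classical in
/-- The scaled matrix `5^(⌊3j'/2⌋ - ⌊3i'/2⌋) PM_ij`. -/
def PS (e i j : ℕ) : Zy :=
  if h : ∃ P : Zy, Polynomial.C ((5 : ℤ_[5]) ^ gg i) * P =
      Polynomial.C ((5 : ℤ_[5]) ^ gg j) * PM e i j then h.choose else 0

/-! ### Block A: the factorisation `Q^{-y} = A(T) G(g)` -/

/-- The coefficient of `y^j T^n` is divisible by `5^(φ n j)`. -/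
def Bd (φ : ℕ → ℕ → ℕ) (F : PowerSeries Zy) : Prop :=
  ∀ n j, (5 : ℤ_[5]) ^ φ n j ∣ (coeff n F).coeff j

/-- `max ⌈2n/5⌉ j`. -/
def phA (n j : ℕ) : ℕ := max ((2 * n + 4) / 5) j

/-- `max ⌈2n/5⌉ (j - v_5(n))`. -/
def phE (n j : ℕ) : ℕ := max ((2 * n + 4) / 5) (j - padicValNat 5 n)

/-- `F = exp E`: `E(0) = 0`, `F(0) = 1`, `F' = E' F`. -/
structure IsE {R : Type*} [CommRing R] (E F : PowerSeries R) : Prop where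
  e0 : constantCoeff E = 0
  f0 : constantCoeff F = 1
  der : derivative R F = derivative R E * F

/-- `∑_l x^(5^l)/5^l` for the monomial `x = 5c y^j T^N`. -/
def GG (c : ℤ_[5]) (j N : ℕ) : PowerSeries Zy :=
  PowerSeries.mk fun n ↦ ∑ l ∈ Finset.range (n + 1),
    if n = N * 5 ^ l then
      Polynomial.monomial (j * 5 ^ l) ((5 : ℤ_[5]) ^ (5 ^ l - l) * c ^ 5 ^ l)
    else 0

/-- `AH(x) = ∑ a_k x^k` for the monomial `x = 5c y^j T^N`. -/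
def AHm (a : ℕ → ℤ_[5]) (c : ℤ_[5]) (j N : ℕ) : PowerSeries Zy :=
  PowerSeries.mk fun n ↦
    if N ∣ n then Polynomial.monomial (j * (n / N)) (a (n / N) * (5 * c) ^ (n / N)) else 0

/-- A1: existence of `exp E` for `5 ∣ E`, its order, uniqueness. -/
def SpExp : Prop :=
  (∀ E : PowerSeries Zy, constantCoeff E = 0 → C (Polynomial.C (5 : ℤ_[5])) ∣ E →
    ∃ F, IsE E F) ∧
  (∀ (E F : PowerSeries Zy) (N : ℕ), IsE E F → X ^ N ∣ E → X ^ N ∣ F - 1) ∧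
  (∀ E F F' : PowerSeries Zy, IsE E F → IsE E F' → F = F') ∧
  (∀ E F E' F' : PowerSeries Zy, IsE E F → IsE E' F' → IsE (E + E') (F * F'))

/-- A2: the Artin-Hasse series. -/
def SpAH : Prop := ∃ a : ℕ → ℤ_[5], a 0 = 1 ∧
  ∀ (c : ℤ_[5]) (j N : ℕ), 1 ≤ N → IsE (GG c j N) (AHm a c j N)

/-- A3: the start, `Q^{-y} = exp(-y log Q)`. -/
def SpStart : Prop := ∃ E : PowerSeries Zy, IsE E LY ∧ Bd phE E

/-- A4: one step of the elimination. -/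
def SpStep : Prop := ∀ (N : ℕ) (E R : PowerSeries Zy), 1 ≤ N → IsE E R → Bd phE E → X ^ N ∣ E →
  ∃ A G E' R' : PowerSeries Zy, Bd phA A ∧ constantCoeff G = 1 ∧
    (∀ l, Polynomial.C ((5 : ℤ_[5]) ^ ((7 * (l + 1) + 4) / 4)) ∣ coeff (l + 1) G) ∧
    IsE E' R' ∧ Bd phE E' ∧ X ^ (N + 1) ∣ E' ∧ R = A * G.subst (gT Zy) * R'

/-- A5: the factorisation. -/
def SpFac : Prop := ∀ N : ℕ, ∃ A G : PowerSeries Zy, Bd phA A ∧ constantCoeff G = 1 ∧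
  (∀ l, Polynomial.C ((5 : ℤ_[5]) ^ ((7 * (l + 1) + 4) / 4)) ∣ coeff (l + 1) G) ∧
  X ^ N ∣ LY - A * G.subst (gT Zy)

/-- `2i' - ⌈2j'/5⌉` (`e = 0`), `2i' - ⌊2j'/5⌋` (`e = 1`). -/
def rr (e i j : ℕ) : ℕ := 2 * (i + 1) - (2 * (j + 1) + 4 * (1 - e)) / 5

/-- A6: the matrix `M = W N`. -/
def SpWN : Prop := ∀ e : ℕ, e ≤ 1 → ∀ I : ℕ, ∃ (W : ℕ → Zy) (N : ℕ → ℕ → Zy), W 0 = 1 ∧
  (∀ l, Polynomial.C ((5 : ℤ_[5]) ^ ((7 * (l + 1) + 4) / 4)) ∣ W (l + 1)) ∧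
  (∀ i j k, (5 : ℤ_[5]) ^ max (rr e i j) k ∣ (N i j).coeff k) ∧
  (∀ i j, 5 * (i + 1) < j + 1 → N i j = 0) ∧
  ∀ i < I, ∀ j, PM e i j = ∑ l ∈ Finset.range (i + 1), W (i - l) * N l j

/-! ### Block J: the decomposition at `y = m = 2a` -/

/-- The value of the matrix at `y = m`, `i, j ≥ 1`. -/
def MQ (e m i j : ℕ) : ℚ :=
  if j ≤ 5 * i then
    coeff (5 * i - j) (Rser5 ℚ e * Qser5 ℚ ^ (i + j - 1) * Qi ℚ ^ m)
  else 0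

/-- `e(g) = 1 + 250 g + 3125 g²`. -/
def eG : PowerSeries ℚ := 1 + C (250 : ℚ) * X + C (3125 : ℚ) * X ^ 2

/-- `ψ_0 = 1`, `ψ_1 = 1 - 500 g - 15625 g²`. -/
def psG (e : ℕ) : PowerSeries ℚ :=
  if e = 0 then 1 else 1 - C (500 : ℚ) * X - C (15625 : ℚ) * X ^ 2

/-- `x_l = ψ_e e(g)^(b-3l) g^l`, `l ≥ 1`. -/
def xG (e b l : ℕ) : PowerSeries ℚ := psG e * eG ^ (b - 3 * l) * X ^ l

/-- `T_(i,i') = δ + (-1)^e 5^(a+1-3i'-e) M_(i,m-i')`, `m = 2a`. -/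
def TQ (e a i i' : ℕ) : ℚ :=
  (if i = i' then 1 else 0) +
    (-1) ^ e * (5 : ℚ) ^ ((a : ℤ) + 1 - 3 * i' - e) * MQ e (2 * a) i (2 * a - i')

/-- J1: the image of `T` is in the span of the `x_l`. -/
def SpIm : Prop := ∀ e a : ℕ, e ≤ 1 → 1 ≤ a → ∀ i' : ℕ, 1 ≤ i' → i' < 2 * a →
  ∃ c : ℕ → ℚ, ∀ i : ℕ, 1 ≤ i →
    TQ e a i i' = ∑ l ∈ Finset.Icc 1 ((a - e) / 3), c l * coeff i (xG e (a - e) l)

/-- J2: `T = 6` on the `x_l`. -/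
def SpSix : Prop := ∀ e a l : ℕ, e ≤ 1 → 1 ≤ a → 1 ≤ l → 3 * l ≤ a - e → ∀ i : ℕ, 1 ≤ i →
  ∑ i' ∈ Finset.Icc 1 (2 * a - 1), TQ e a i i' * coeff i' (xG e (a - e) l) =
    6 * coeff i (xG e (a - e) l)

/-- J3: the rank decomposition, `T = x y`, `y x = 6`. -/
def SpJ : Prop := ∀ e a : ℕ, e ≤ 1 → 1 ≤ a →
  ∃ (x : ℕ → Fin ((a - e) / 3) → ℚ) (y : Fin ((a - e) / 3) → ℕ → ℚ),
    (∀ i i' : ℕ, 1 ≤ i → 1 ≤ i' → i' < 2 * a → TQ e a i i' = ∑ l, x i l * y l i') ∧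
    ∀ l l', ∑ i' ∈ Finset.Icc 1 (2 * a - 1), y l i' * x i' l' = if l = l' then 6 else 0

/-- J4: the values of `PM` at the natural numbers. -/
def SpVal : Prop := ∀ e m i j : ℕ, e ≤ 1 →
  (((PM e i j).eval (m : ℤ_[5]) : ℤ_[5]) : ℚ_[5]) = ((MQ e m (i + 1) (j + 1) : ℚ) : ℚ_[5])

/-! ### Block H -/

/-- H: the entries at the natural numbers, `v''(M_ij(m)) ≥ i' + j' - 1 + e`. -/
def SpH : Prop := ∀ e m i j : ℕ, e ≤ 1 →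
  (5 : ℤ_[5]) ^ (i + j + 1 + e + gg i) ∣ 5 ^ gg j * (PM e i j).eval (m : ℤ_[5])

/-! ### Block W: the scaled matrix and its minors -/

/-- W1: the scaled matrix exists and its columns are small. -/
def SpPS : Prop := ∀ e i j : ℕ, e ≤ 1 →
  Polynomial.C ((5 : ℤ_[5]) ^ gg i) * PS e i j = Polynomial.C ((5 : ℤ_[5]) ^ gg j) * PM e i j ∧
  Polynomial.C ((5 : ℤ_[5]) ^ (gg j - (2 * (j + 1) + 4) / 5)) ∣ PS e i j

/-- W2: principal minors do not change. -/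
def SpPrin : Prop := ∀ (e n : ℕ) (a : Fin n → ℕ), e ≤ 1 →
  Pot.minor (PS e) a a = Pot.minor (PM e) a a

/-- W3: all minors at the root. -/
def SpWeak : Prop := ∀ (e n : ℕ) (a b : Fin n → ℕ), e ≤ 1 →
  Polynomial.C ((5 : ℤ_[5]) ^ B5 e n) ∣ Pot.minor (PS e) a b

/-- W4: principal minors at the root. -/
def SpStrict : Prop := ∀ (e n : ℕ) (a : Fin n → ℕ), e ≤ 1 → StrictMono a → (∃ i, n ≤ a i) →
  Polynomial.C ((5 : ℤ_[5]) ^ (B5 e n + 1)) ∣ Pot.minor (PM e) a a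

/-! ### Block D: the leading minors -/

/-- D1: `D_n ∈ ℤ_5[5y]`. -/
def SpInt : Prop := ∀ e n k : ℕ, e ≤ 1 → (5 : ℤ_[5]) ^ k ∣ (Pot.lead (PM e) n).coeff k

/-- D2: the zeros. -/
def SpVan : Prop := ∀ e n m : ℕ, e ≤ 1 →
  (Polynomial.X - Polynomial.C ((m : ℕ) : ℚ_[5])) ^ T5 e n m ∣
    (Pot.lead (PM e) n).map PadicInt.Coe.ringHom

/-- `B_n + ∑ T_m(n) v_5(m0 - m)`. -/
def FF (e n m0 : ℕ) : ℕ :=
  B5 e n + ∑ m ∈ Finset.range (Z5 n), T5 e n m * padicValInt 5 ((m0 : ℤ) - m)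

/-- D3: the number of zeros. -/
def SpSum : Prop := ∀ e n : ℕ, e ≤ 1 → ∑ m ∈ Finset.range (Z5 n), T5 e n m = B5 e n

/-- D4: the value for odd `n` at `m = n + 1`. -/
def SpDetOdd : Prop := ∀ e n : ℕ, e ≤ 1 → Odd n →
  ‖(Pot.lead (PM e) n).eval ((n + 1 : ℕ) : ℤ_[5])‖ =
    (5 : ℝ) ^ (-((n * (n + e) + t5 e (n + 1) : ℕ) : ℤ))

/-- D5: the value for even `n` at `m = n + 2`. -/
def SpDetEven : Prop := ∀ e n : ℕ, e ≤ 1 → Even n → 1 ≤ t5 e (n + 2) →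
  ‖(Pot.lead (PM e) n).eval ((n + 2 : ℕ) : ℤ_[5])‖ =
    (5 : ℝ) ^ (-(((n - 1) * (n + 1 + e) + (t5 e (n + 2) - 1) : ℕ) : ℤ)) *
      ‖(PM e 0 0).eval ((n + 2 : ℕ) : ℤ_[5])‖

/-- D6: three small cases. -/
def SpSmall : Prop :=
  ‖(Pot.lead (PM 0) 2).eval (0 : ℤ_[5])‖ = (5 : ℝ) ^ (-5 : ℤ) ∧
  ‖(Pot.lead (PM 1) 2).eval (0 : ℤ_[5])‖ = (5 : ℝ) ^ (-7 : ℤ) ∧
  ‖(Pot.lead (PM 1) 4).eval (0 : ℤ_[5])‖ = (5 : ℝ) ^ (-22 : ℤ)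

/-- D7: the ghost numbers, `n` odd. -/
def SpFOdd : Prop := ∀ e n : ℕ, e ≤ 1 → Odd n → FF e n (n + 1) = n * (n + e) + t5 e (n + 1)

/-- D8: the ghost numbers, `n` even. -/
def SpFEven : Prop := ∀ e n : ℕ, e ≤ 1 → Even n → 1 ≤ t5 e (n + 2) →
  FF e n (n + 2) = (n - 1) * (n + 1 + e) + (t5 e (n + 2) - 1) + FF e 1 (n + 2)

/-- D9: the leading minors. -/
def SpLead : Prop := ∀ e : ℕ, e ≤ 1 → ∀ n : ℕ, ∃ (u : Zy) (z : (ℤ_[5])ˣ),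
  Polynomial.C ((5 : ℕ) : ℤ_[5]) ∣ u - Polynomial.C (z : ℤ_[5]) ∧
    Pot.lead (PM e) n = Polynomial.C (((5 : ℕ) : ℤ_[5]) ^ B5 e n) * u *
      ∏ m ∈ Finset.range (Z5 n), (Polynomial.X - Polynomial.C (m : ℤ_[5])) ^ T5 e n m

/-! ### Block C: corank -/

/-- C: the field `corank`. -/
def SpCor : Prop := ∀ e : ℕ, e ≤ 1 → ∀ m, (∃ n, T5 e n m ≠ 0) →
  ∃ (x : ℕ → Fin (t5 e m) → ℚ_[5]) (y : Fin (t5 e m) → ℕ → ℚ_[5]),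
    ∀ i j, ∃ z : ℤ_[5], (((PS e i j).eval (m : ℤ_[5]) : ℤ_[5]) : ℚ_[5]) =
      ∑ l, x i l * y l j + ((5 : ℕ) : ℚ_[5]) ^ s5 e m * z

/-! ### Block F: assembly -/

/-- F1: the input of GH-POT. -/
def SpMatW : Prop := ∀ e : ℕ, e ≤ 1 → Pot.MatW 5 (PS e) (B5 e) Z5 (T5 e) (s5 e) (t5 e)

/-- F2: the values of `PM` in `ℂ_5`. -/
def SpEval : Prop := ∀ (e : ℕ) (y : C5) (i j : ℕ), e ≤ 1 →
  (PM e i j).eval₂ iota5 y = Mat5 e y (i + 1) (j + 1)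

/-- F3: the Newton polygon. -/
def SpNP : Prop := ∀ (e : ℕ) (y : C5), e ≤ 1 → ‖y‖ ≤ 1 →
  newtonPolygon 5 (fred (Mat5 e y)) =
    newtonPolygon 5 fun n ↦ (Pot.lead (PM e) n).eval₂ iota5 y

/-- F4: the norm of the ghost coefficients. -/
def SpGhost : Prop := ∀ (e n : ℕ) (y : C5), e ≤ 1 → ‖y‖ ≤ 1 →
  ‖ghostG 5 e ((wx5 y + 1) * 121 ^ e - 1) n‖ = (5 : ℝ) ^ (-(B5 e n : ℤ)) *
    ∏ m ∈ Finset.range (Z5 n), ‖y - (m : C5)‖ ^ T5 e n m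

/-- The theorem on the central disc. -/
def CentralTheorem5 : Prop := ∀ (e : ℕ) (y : C5), e ≤ 1 → ‖y‖ ≤ 1 →
  newtonPolygon 5 (fred (Mat5 e y)) = newtonPolygon 5 (ghostG 5 e ((wx5 y + 1) * 121 ^ e - 1))

end GH.M5
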