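import Pool.Agent.GH.M5.Stm
import Pool.Agent.GH.M5.MinExp

/-!
# GH5-MAT, row W3: all minors at the root
-/

open PowerSeries

noncomputable section

namespace GH.M5

open GH.D5 GH.CombU

private theorem wk_dvd_prod {ι : Type*} (s : Finset ι) (f : ι → Zy) (c : ι → ℕ)
    (h : ∀ i ∈ s, Polynomial.C ((5 : ℤ_[5]) ^ c i) ∣ f i) :
    Polynomial.C ((5 : ℤ_[5]) ^ ∑ i ∈ s, c i) ∣ ∏ i ∈ s, f i := by
  rw [← Finset.prod_pow_eq_pow_sum, map_prod]
  exact Finset.prod_dvd_prod_of_dvd _ _ h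

private theorem wk_dvd_of_le {k l : ℕ} {P : Zy} (hkl : k ≤ l)
    (h : Polynomial.C ((5 : ℤ_[5]) ^ l) ∣ P) : Polynomial.C ((5 : ℤ_[5]) ^ k) ∣ P :=
  (map_dvd Polynomial.C (pow_dvd_pow _ hkl)).trans h

private theorem wk_ne (k : ℕ) : (Polynomial.C ((5 : ℤ_[5]) ^ k) : Zy) ≠ 0 := by
  rw [Ne, Polynomial.C_eq_zero]
  exact pow_ne_zero _ (by norm_num)

/-- The order of the entries of the unitriangular factor. -/
private def wk_w (d : ℕ) : ℕ := if d = 0 then 0 else (7 * d + 4) / 4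

private theorem wk_w_dvd {W : ℕ → Zy} (h0 : W 0 = 1)
    (h1 : ∀ l, Polynomial.C ((5 : ℤ_[5]) ^ ((7 * (l + 1) + 4) / 4)) ∣ W (l + 1)) (d : ℕ) :
    Polynomial.C ((5 : ℤ_[5]) ^ wk_w d) ∣ W d := by
  cases d with
  | zero =>
    rw [h0]
    unfold wk_w
    rw [if_pos rfl, pow_zero, map_one]
  | succ l =>
    unfold wk_w
    rw [if_neg (Nat.succ_ne_zero l)]
    exact h1 l

private theorem wk_w_gg {a k : ℕ} (h : k ≤ a) : gg a ≤ wk_w (a - k) + gg k := by
  unfold gg wk_w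
  split_ifs with h1
  · have : a = k := by omega
    subst this
    omega
  · omega

/-- The scaled minors. -/
private theorem wk_scale (hp : SpPS) {e n : ℕ} (he : e ≤ 1) (a b : Fin n → ℕ) :
    Polynomial.C ((5 : ℤ_[5]) ^ ∑ i, gg (a i)) * Pot.minor (PS e) a b =
      Polynomial.C ((5 : ℤ_[5]) ^ ∑ j, gg (b j)) * Pot.minor (PM e) a b := by
  have h1 := Matrix.det_mul_column (fun i => (Polynomial.C ((5 : ℤ_[5]) ^ gg (a i)) : Zy))
    (Matrix.of fun i j => PS e (a i) (b j))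
  have h2 := Matrix.det_mul_row (fun j => (Polynomial.C ((5 : ℤ_[5]) ^ gg (b j)) : Zy))
    (Matrix.of fun i j => PM e (a i) (b j))
  have h3 : (Matrix.of fun i j => Polynomial.C ((5 : ℤ_[5]) ^ gg (a i)) *
      (Matrix.of fun i j => PS e (a i) (b j)) i j) =
      (Matrix.of fun i j => Polynomial.C ((5 : ℤ_[5]) ^ gg (b j)) *
      (Matrix.of fun i j => PM e (a i) (b j)) i j) := by
    exact Matrix.ext fun i j => (hp e (a i) (b j) he).1
  rw [h3, h2] at h1
  unfold Pot.minor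
  rw [← Finset.prod_pow_eq_pow_sum, ← Finset.prod_pow_eq_pow_sum, map_prod, map_prod]
  exact h1.symm

/-- The numerical inequality. -/
private theorem wk_num {e n : ℕ} (he : e ≤ 1) {a b k : Fin n → ℕ} (hk : ∀ i, k i ≤ a i)
    (hki : Function.Injective k) (hb : Function.Injective b) (s : Equiv.Perm (Fin n)) :
    B5 e n + ∑ i, gg (a i) ≤
      (∑ i, wk_w (a i - k i) + ∑ j, rr e (k (s j)) (b j)) + ∑ j, gg (b j) := by
  -- the two monotone functions
  have m1 : Monotone (fun i : ℕ => (i + 2) / 2) := by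
    intro i j hij
    simp only
    omega
  have m2 : Monotone (fun i : ℕ => 3 * (i + 1) / 2 - (2 * (i + 1) + 4 * (1 - e)) / 5) := by
    refine monotone_nat_of_le_succ fun i => ?_
    omega
  have s1 := sum_mono_le _ m1 k hki
  have s2 := sum_mono_le _ m2 b hb
  have s3 : ∑ i, gg (a i) ≤ ∑ i, wk_w (a i - k i) + ∑ i, gg (k i) := by
    rw [← Finset.sum_add_distrib]
    exact Finset.sum_le_sum fun i _ => wk_w_gg (hk i)
  have s4 : ∑ i, ((k i + 2) / 2 + gg (k i)) ≤
      ∑ j, (rr e (k (s j)) (b j) + (2 * (b j + 1) + 4 * (1 - e)) / 5) := by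
    rw [← Equiv.sum_comp s]
    refine Finset.sum_le_sum fun j _ => ?_
    unfold gg rr
    omega
  have s5 : ∑ j, ((3 * (b j + 1) / 2 - (2 * (b j + 1) + 4 * (1 - e)) / 5) +
      (2 * (b j + 1) + 4 * (1 - e)) / 5) ≤ ∑ j, gg (b j) := by
    refine Finset.sum_le_sum fun j _ => ?_
    unfold gg
    omega
  have s6 : B5 e n = ∑ i ∈ Finset.range n, (i + 2) / 2 +
      ∑ i ∈ Finset.range n, (3 * (i + 1) / 2 - (2 * (i + 1) + 4 * (1 - e)) / 5) := by
    unfold B5
    rw [← Finset.sum_add_distrib]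
    refine Finset.sum_congr rfl fun i _ => ?_
    have t1 : (i + 2) / 2 + 3 * (i + 1) / 2 = 2 * (i + 1) := by omega
    have t2 : (2 * (i + 1) + 4 * (1 - e)) / 5 ≤ 3 * (i + 1) / 2 := by omega
    have t3 : (8 * (i + 1) + 4 * e) / 5 + (2 * (i + 1) + 4 * (1 - e)) / 5 = 2 * (i + 1) := by
      rcases Nat.le_one_iff_eq_zero_or_eq_one.1 he with rfl | rfl <;> omega
    omega
  rw [Finset.sum_add_distrib, Finset.sum_add_distrib] at s4
  rw [Finset.sum_add_distrib] at s5
  omega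

theorem spWeak (h : SpWN) (hp : SpPS) : SpWeak := by
  intro e n a b he
  by_cases hb : Function.Injective b
  swap
  · -- two equal columns
    have h0 : Pot.minor (PS e) a b = 0 := by
      unfold Function.Injective at hb
      push Not at hb
      obtain ⟨i, j, hij, hne⟩ := hb
      unfold Pot.minor
      refine Matrix.det_zero_of_column_eq hne fun l => ?_
      rw [Matrix.of_apply, Matrix.of_apply, hij]
    rw [h0]
    exact dvd_zero _
  obtain ⟨W, N, hW0, hW, hN, hN0, hM⟩ := h e he (Finset.univ.sup a + 1)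
  -- the order of the minors of the unscaled matrix
  have key : Pot.minor (PM e) a b ∈ Ideal.span
      {(Polynomial.C ((5 : ℤ_[5]) ^ (B5 e n + ∑ i, gg (a i) - ∑ j, gg (b j))) : Zy)} := by
    refine minor_mem _ (PM e) N W a b (fun i j => hM (a i) ?_ (b j)) fun k hk hki s => ?_
    · exact Nat.lt_succ_of_le (Finset.le_sup (Finset.mem_univ i))
    rw [Ideal.mem_span_singleton]
    have d1 : Polynomial.C ((5 : ℤ_[5]) ^ ∑ i, wk_w (a i - k i)) ∣ ∏ i, W (a i - k i) :=
      wk_dvd_prod _ _ _ fun i _ => wk_w_dvd hW0 hW _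
    have d2 : Polynomial.C ((5 : ℤ_[5]) ^ ∑ j, rr e (k (s j)) (b j)) ∣
        ∏ j, N (k (s j)) (b j) := by
      refine wk_dvd_prod _ _ _ fun j _ => ?_
      rw [Polynomial.C_dvd_iff_dvd_coeff]
      exact fun l => (pow_dvd_pow _ (le_max_left _ _)).trans (hN _ _ l)
    have d3 := mul_dvd_mul d1 d2
    rw [← map_mul, ← pow_add] at d3
    refine wk_dvd_of_le ?_ d3
    have := wk_num he hk hki hb s
    omega
  rw [Ideal.mem_span_singleton] at key
  have e1 := wk_scale hp he a b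
  have d4 : Polynomial.C ((5 : ℤ_[5]) ^ (∑ j, gg (b j) + (B5 e n + ∑ i, gg (a i) -
      ∑ j, gg (b j)))) ∣
      Polynomial.C ((5 : ℤ_[5]) ^ ∑ j, gg (b j)) * Pot.minor (PM e) a b := by
    rw [pow_add, map_mul]
    exact mul_dvd_mul_left _ key
  have d5 : Polynomial.C ((5 : ℤ_[5]) ^ (∑ i, gg (a i) + B5 e n)) ∣
      Polynomial.C ((5 : ℤ_[5]) ^ ∑ i, gg (a i)) * Pot.minor (PS e) a b := by
    rw [e1]
    exact wk_dvd_of_le (by omega) d4
  rw [pow_add, map_mul] at d5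
  exact (mul_dvd_mul_iff_left (wk_ne _)).1 d5

end GH.M5
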